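import Pool.Agent.V7H51.HF.OL

/-!
# Local laws
-/

set_option autoImplicit false

open Complex Filter Topology Set Metric MeasureTheory
open scoped ComplexConjugate

namespace Pool.Agent.V7H51.HF

open Pool.Agent.W169.HF H353.E H353.F

lemma ex_le {x r : ℝ} (hx : 0 < x) (hr : 0 ≤ r) : ex x r ≤ x / 4 := by
  unfold ex
  rw [div_le_iff₀ (by positivity)]
  rcases le_total x r with h | h
  · rw [max_eq_right (by linarith)]
    have : 0 ≤ x / 4 * (4 * x) := by positivity
    linarith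
  · rw [max_eq_left (by linarith)]
    nlinarith

lemma phx_lip {x x' r : ℝ} (hx : 0 < x) (hx' : 0 < x') (hr : 0 ≤ r) :
    phx x' r ≤ phx x r + |x' - x| / 2 := by
  unfold phx
  rcases le_total x' x with h | h
  · have h1 : max (x' - r) 0 ^ 2 / (2 * x') ≤ max (x - r) 0 ^ 2 / (2 * x) := by
      rw [div_le_div_iff₀ (by positivity) (by positivity)]
      rcases le_total x' r with h2 | h2
      · rw [max_eq_right (by linarith : x' - r ≤ 0)]
        have : 0 ≤ max (x - r) 0 ^ 2 * (2 * x') := by positivity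
        simpa using this
      · rw [max_eq_left (by linarith : 0 ≤ x' - r), max_eq_left (by linarith : 0 ≤ x - r)]
        have h3 : 0 ≤ (x - x') * (x * x' - r ^ 2) := by
          apply mul_nonneg (by linarith)
          nlinarith
        nlinarith
    have := abs_nonneg (x' - x)
    linarith
  · rw [abs_of_nonneg (by linarith : 0 ≤ x' - x)]
    have h1 : max (x' - r) 0 ^ 2 / (2 * x') ≤ max (x - r) 0 ^ 2 / (2 * x) + (x' - x) / 2 := by
      rcases le_total x' r with h2 | h2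
      · rw [max_eq_right (by linarith : x' - r ≤ 0), max_eq_right (by linarith : x - r ≤ 0)]
        have e : (0 : ℝ) ^ 2 / (2 * x') = 0 := by norm_num
        have e' : (0 : ℝ) ^ 2 / (2 * x) = 0 := by norm_num
        rw [e, e']
        linarith
      · rw [max_eq_left (by linarith : 0 ≤ x' - r)]
        rcases le_total x r with h3 | h3
        · rw [max_eq_right (by linarith : x - r ≤ 0)]
          have e' : (0 : ℝ) ^ 2 / (2 * x) = 0 := by norm_num
          rw [e', zero_add, div_le_iff₀ (by positivity)]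
          have h4 : (x' - r) ^ 2 ≤ (x' - x) ^ 2 := pow_le_pow_left₀ (by linarith) (by linarith) 2
          nlinarith
        · rw [max_eq_left (by linarith : 0 ≤ x - r), div_add_div _ _ (by positivity) (by norm_num),
            div_le_div_iff₀ (by positivity) (by positivity)]
          have h4 : 0 ≤ (x' - x) * r ^ 2 := mul_nonneg (by linarith) (sq_nonneg r)
          nlinarith [mul_nonneg (mul_nonneg hx.le hx'.le) h4]
    linarith

/-- one point: from `fy` to zeta -/
lemma zeta_pt {r a κ T A : ℝ} (hr0 : 0 ≤ r) (hr1 : r ≤ 1 / 2) (hκ : 0 < κ) (ha0 : 0 ≤ a) (haA : a ≤ A)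
    (h3 : 4 ≤ T) (h2 : 2 / κ * (14 * A + 7 * κ + 3750) ≤ Real.log T)
    (h1 : ‖fy T (r : ℂ)‖ ≤ Gy T * Real.exp (ell T * (r + 2 * a) + κ * ell T)) :
    ‖riemannZeta (1 / 2 + r + T * I)‖ ≤ T ^ (a + κ) := by
  have hT : 0 < T := by linarith
  obtain ⟨h4, h5⟩ := ell_le h3
  have hz := zeta_le (y := T) (u := (r : ℂ)) (by simp; linarith) (by
    simp
    rw [abs_of_pos hT]
    linarith)
  have e1 : (1 / 2 : ℂ) + T * I + r = 1 / 2 + r + T * I := by ring
  have e2 : ‖(r : ℂ)‖ ^ 2 = r ^ 2 := by rw [Complex.norm_real, Real.norm_eq_abs, sq_abs]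
  rw [e1, ofReal_re, e2] at hz
  have hG := Gy_pos T
  have h6 : ‖riemannZeta (1 / 2 + r + T * I)‖ ≤
      Real.exp ((ell T * (r + 2 * a) + κ * ell T) - (ell T * r - 3000 * (1 + r ^ 2))) := by
    rw [Real.exp_sub, le_div_iff₀ (Real.exp_pos _)]
    have h7 := hz.trans h1
    have h8 : Gy T * (‖riemannZeta (1 / 2 + r + T * I)‖ * Real.exp (ell T * r - 3000 * (1 + r ^ 2))) ≤
        Gy T * Real.exp (ell T * (r + 2 * a) + κ * ell T) := by
      calc Gy T * (‖riemannZeta (1 / 2 + r + T * I)‖ * Real.exp (ell T * r - 3000 * (1 + r ^ 2))) =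
          ‖riemannZeta (1 / 2 + r + T * I)‖ * (Gy T * Real.exp (ell T * r - 3000 * (1 + r ^ 2))) := by ring
        _ ≤ _ := h7
    exact le_of_mul_le_mul_left h8 hG
  refine h6.trans ?_
  rw [Real.rpow_def_of_pos hT]
  apply Real.exp_le_exp.2
  have h9 : 14 * A + 7 * κ + 3750 ≤ κ / 2 * Real.log T := by
    have : κ / 2 * (2 / κ * (14 * A + 7 * κ + 3750)) = 14 * A + 7 * κ + 3750 := by field_simp
    have h10 := mul_le_mul_of_nonneg_left h2 (show 0 ≤ κ / 2 by linarith)
    linarith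
  have h11 : 2 * a * ell T ≤ a * Real.log T + 14 * A := by nlinarith
  have h15 : κ * ell T ≤ κ * (1 / 2 * Real.log T + 7) := mul_le_mul_of_nonneg_left h4 hκ.le
  have h16 : r ^ 2 ≤ 1 / 4 := by nlinarith
  nlinarith

/-- one point: from zeta to `fy` -/
lemma fy_pt {r a κ T A R v : ℝ} (hr0 : 0 ≤ r) (hr1 : r ≤ 1 / 2) (hκ : 0 < κ) (ha0 : 0 ≤ a) (haA : a ≤ A)
    (hT4 : R + 5 ≤ T) (hv : |v| ≤ R)
    (h1 : 8 / κ * (3 + 3000 * (2 + R ^ 2) + 14 * A + 7 * κ) ≤ Real.log T)
    (hz : ‖riemannZeta (1 / 2 + r + ((T + v : ℝ) : ℂ) * I)‖ ≤ T ^ (a + κ / 8)) :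
    ‖fy T ((r : ℂ) + v * I)‖ ≤ Gy T * Real.exp (ell T * (r + 2 * a) + κ * ell T) := by
  have hR : 0 ≤ R := (abs_nonneg v).trans hv
  have hv' := abs_le.1 hv
  obtain ⟨h3, h4⟩ := ell_le (y := T) (by linarith)
  have hT : 0 < T := by linarith
  have hne : (1 / 2 : ℂ) + T * I + (r + v * I) ≠ 1 := by
    intro h
    have := congrArg im h
    simp at this
    linarith
  have hf := f_le (y := T) (u := (r : ℂ) + v * I) (by simp; linarith) hne
  have e1 : (1 / 2 : ℂ) + T * I + (r + v * I) = 1 / 2 + r + ((T + v : ℝ) : ℂ) * I := by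
    push_cast; ring
  have e2 : ((r : ℂ) + v * I).re = r := by simp
  have e3 : ‖(r : ℂ) + v * I‖ ^ 2 = r ^ 2 + v ^ 2 := by
    rw [← Complex.normSq_eq_norm_sq, Complex.normSq_apply]
    simp
    ring
  rw [e1, e2, e3] at hf
  rw [Real.rpow_def_of_pos hT] at hz
  have hG := Gy_pos T
  have h20 : (20 : ℝ) ≤ Real.exp 3 := by
    have h := Real.exp_one_gt_d9
    have e : Real.exp 3 = Real.exp 1 ^ 3 := by rw [← Real.exp_nat_mul]; norm_num
    rw [e]
    have h27 : (27 / 10 : ℝ) ^ 3 ≤ Real.exp 1 ^ 3 := pow_le_pow_left₀ (by norm_num) (by linarith) 3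
    have : (Real.exp 1) ^ 3 ≥ (2.7182 : ℝ) ^ 3 := pow_le_pow_left₀ (by norm_num) (by linarith) 3
    norm_num at this ⊢
    linarith
  calc ‖fy T ((r : ℂ) + v * I)‖ ≤ 20 * (Gy T * Real.exp (ell T * r + 3000 * (1 + (r ^ 2 + v ^ 2)))) *
        Real.exp (Real.log T * (a + κ / 8)) := by
        refine hf.trans ?_
        gcongr
    _ ≤ Real.exp 3 * (Gy T * Real.exp (ell T * r + 3000 * (1 + (r ^ 2 + v ^ 2)))) *
        Real.exp (Real.log T * (a + κ / 8)) := by gcongr
    _ = Gy T * Real.exp (3 + (ell T * r + 3000 * (1 + (r ^ 2 + v ^ 2)) +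
        Real.log T * (a + κ / 8))) := by
        rw [Real.exp_add 3, Real.exp_add (ell T * r + _)]
        ring
    _ ≤ _ := by
        apply mul_le_mul_of_nonneg_left _ hG.le
        apply Real.exp_le_exp.2
        have h8 : v ^ 2 ≤ R ^ 2 := by
          rw [← sq_abs v]
          exact pow_le_pow_left₀ (abs_nonneg v) hv 2
        have h8' : r ^ 2 ≤ 1 := by nlinarith
        have h9 : 3 + 3000 * (2 + R ^ 2) + 14 * A + 7 * κ ≤ κ / 8 * Real.log T := by
          have : κ / 8 * (8 / κ * (3 + 3000 * (2 + R ^ 2) + 14 * A + 7 * κ)) =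
            3 + 3000 * (2 + R ^ 2) + 14 * A + 7 * κ := by field_simp
          have h10 := mul_le_mul_of_nonneg_left h1 (show 0 ≤ κ / 8 by linarith)
          linarith
        have h11 : a * Real.log T - 14 * A ≤ 2 * a * ell T := by nlinarith
        have h12 : κ * (1 / 2 * Real.log T - 7) ≤ κ * ell T := mul_le_mul_of_nonneg_left h4 hκ.le
        have h13 : 0 ≤ Real.log T := Real.log_nonneg (by linarith)
        have h14 : 0 ≤ κ * Real.log T := by positivity
        nlinarith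

/-- the zeros of the heat flow at time `x / log T` in a box near `T` -/
def Box (x δ R c T : ℝ) : Prop := ∀ S : Finset ℂ,
  (∀ z ∈ S, heat (x / Real.log T) xi z = 0 ∧ 1 / 2 + δ ≤ z.re ∧ |z.im - T| ≤ R) →
    ∑ z ∈ S, (analyticOrderNatAt (heat (x / Real.log T) xi) z : ℝ) ≤ c

/-- few zeros bound zeta -/
theorem local_size {x ε : ℝ} (hx : 0 < x) (hε : 0 < ε) : ∃ κ R T₀ : ℝ, 0 < κ ∧ 0 < R ∧
    ∀ T : ℝ, T₀ ≤ T → Box x κ R (κ * Real.log T) T → ∀ r : ℝ, 0 ≤ r → r ≤ 1 / 2 →
      ‖riemannZeta (1 / 2 + r + T * I)‖ ≤ T ^ (ex x r + ε) := by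
  obtain ⟨K, hK, hUD⟩ := ud_xi
  obtain ⟨κ1, R, ℓ0, hκ1, hR, H⟩ := size_of_few (K := K) (ϑ0 := 1) (g := x / 2) (X := x + 1)
    (κ := ε / 2) hK (by norm_num) (by norm_num) (by linarith) (by linarith) (by linarith)
  have hη : 0 < min ε (min (x / 2) 1) := lt_min (by linarith) (lt_min (by linarith) one_pos)
  have hev := ((time_ev hx hη).and (ell_ev (max ℓ0 0))).and (((eventually_ge_atTop (4 : ℝ)).and
    (log_large 1)).and (log_large (2 / ε * (14 * (x / 4) + 7 * ε + 3750))))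
  obtain ⟨T₀, hT₀⟩ := Filter.eventually_atTop.1 hev
  refine ⟨κ1 / 4, R, T₀, by linarith, by linarith, fun T hT hbox r hr0 hr1 => ?_⟩
  obtain ⟨⟨h1, h2⟩, ⟨h4, h5⟩, h6⟩ := hT₀ T hT
  obtain ⟨hℓ, -, hℓ4⟩ := h2
  have hℓ0 : 0 ≤ ell T := (le_max_right _ _).trans hℓ
  have hL : 0 < Real.log T := by linarith
  have hm1 := min_le_left ε (min (x / 2) 1)
  have hm2 := (min_le_right ε (min (x / 2) 1)).trans (min_le_left _ _)
  have hm3 := (min_le_right ε (min (x / 2) 1)).trans (min_le_right _ _)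
  have h1' := abs_le.1 h1
  have ht0 : 0 ≤ x / Real.log T := by positivity
  obtain ⟨hne, hz1⟩ := heat_zero ht0
  have hHd := heat_diff xi_slow ht0
  obtain ⟨a, ha⟩ : ∃ a : ℂ, a = 1 / 2 + T * I := ⟨_, rfl⟩
  have hare : a.re = 1 / 2 := by rw [ha]; simp
  have haim : a.im = T := by rw [ha]; simp
  have hcnt : Cnt (heat (x / Real.log T) (fy T)) {z : ℂ | κ1 ≤ z.re ∧ z.re ≤ R ∧ |z.im| ≤ R}
      (κ1 * ell T) := by
    intro S hS
    have h6 := hbox (S.image fun z => a + z) (by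
      intro w hw
      obtain ⟨z, hz, rfl⟩ := Finset.mem_image.1 hw
      obtain ⟨h7, h8, h9, h10⟩ := hS z hz
      rw [heat_fy] at h7
      refine ⟨by rw [ha]; exact h7, ?_, ?_⟩
      · rw [add_re, hare]; linarith
      · rw [add_im, haim, add_sub_cancel_left]; exact h10)
    rw [Finset.sum_image (by
      intro z _ w _ hzw
      exact add_left_cancel hzw)] at h6
    have e1 : ∀ z ∈ S, (analyticOrderNatAt (heat (x / Real.log T) (fy T)) z : ℝ) =
        (analyticOrderNatAt (heat (x / Real.log T) xi) (a + z) : ℝ) := by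
      intro z _
      rw [heat_fy, ord_shift hHd hne, ← ha]
    rw [Finset.sum_congr rfl e1]
    refine h6.trans ?_
    nlinarith
  have hmain := H (ell T) (Gy T) (x / Real.log T) (fy T) ((le_max_left _ _).trans hℓ) (hUD T)
    (by positivity) (by linarith) (by linarith) hcnt r hr0 (by linarith)
  refine zeta_pt hr0 hr1 hε (ex_nonneg hx r) (ex_le hx hr0) h4 h6 (hmain.trans ?_)
  apply mul_le_mul_of_nonneg_left _ (Gy_pos T).le
  apply Real.exp_le_exp.2
  rw [← ex_phx hx]
  have h7 : phx (2 * (x / Real.log T) * ell T) r ≤ phx x r + ε / 2 := by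
    refine (phx_lip hx (by linarith) hr0).trans ?_
    linarith
  have h8 := mul_le_mul_of_nonneg_left h7 hℓ0
  nlinarith

/-- the bound on zeta near `T` -/
def Near (x κ R T : ℝ) : Prop := ∀ r v : ℝ, 0 ≤ r → r ≤ 1 / 2 → |v| ≤ R →
  ‖riemannZeta (1 / 2 + r + ((T + v : ℝ) : ℂ) * I)‖ ≤ T ^ (ex x r + κ)

/-- zeta small near `T`: few zeros -/
theorem local_few {x δ R ε : ℝ} (hx : 0 < x) (hδ : 0 < δ) (hε : 0 < ε) :
    ∃ κ R' T₀ : ℝ, 0 < κ ∧ ∀ T : ℝ, T₀ ≤ T → Near x κ R' T → Box x δ R (ε * Real.log T) T := by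
  obtain ⟨K, hK, hUD⟩ := ud_xi
  obtain ⟨κ1, R1, ℓ1, hκ1, hR1, H⟩ := few_of_size (K := K) (ϑ0 := 1) (x := x) (X := x + 1)
    (R := max R 1) (δ := min δ 1) (ε := ε) hK (by norm_num) (by norm_num) hx (by linarith)
    (by linarith) (le_max_right _ _) (lt_min hδ one_pos) (min_le_right _ _) hε
  obtain ⟨M, κ2, R2, ℓ2, hM, hκ2, hR2, HN⟩ := net_all K 1 x κ1 R1 hK (by norm_num) (by norm_num) hx
    hκ1 hR1
  have hM0 : (0 : ℝ) < M := by exact_mod_cast hM
  have hM1 : (1 : ℝ) ≤ M := by exact_mod_cast hM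
  obtain ⟨R3, ℓ3, hR23, HP⟩ := prof_all K 1 (1 / 2) (1 / (2 * M)) κ2 R2 hK (by norm_num) (by norm_num)
    (by norm_num) (by norm_num) (by positivity) (by
      rw [div_le_one (by linarith)]; linarith) hκ2 hR2
  have hev := ((log_large (8 / κ2 * (3 + 3000 * (2 + R2 ^ 2) + 14 * (x / 4) + 7 * κ2))).and
    ((eventually_ge_atTop (R2 + 5)).and (time_ev hx (show 0 < min κ1 1 from lt_min hκ1 one_pos)))).and
    ((ell_ev (max ℓ1 (max ℓ2 ℓ3))).and ((eventually_ge_atTop (4 : ℝ)).and (log_large 1)))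
  obtain ⟨T₀, hT₀⟩ := Filter.eventually_atTop.1 hev
  refine ⟨κ2 / 8, R2, T₀, by linarith, fun T hT hnear S hS => ?_⟩
  obtain ⟨⟨hlog, hTR, htime⟩, ⟨hℓ, hℓlog, -⟩, hT4, hlog1⟩ := hT₀ T hT
  have hud := hUD T
  have hG := hud.hG
  have htime' := abs_le.1 htime
  have hL : 0 < Real.log T := by linarith
  have hcnt := H (ell T) (Gy T) (x / Real.log T) (fy T) ((le_max_left _ _).trans hℓ) hud
    (HN (ell T) (Gy T) (fy T) (((le_max_left _ _).trans (le_max_right _ _)).trans hℓ) hud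
      (HP (ell T) (Gy T) (fy T) (((le_max_right _ _).trans (le_max_right _ _)).trans hℓ) hud
        (fun u hu _ => xi_ne (by simp; linarith)))
      (fun k hk1 hk2 v hv => by
        have hk0 : (0 : ℝ) ≤ k / (2 * M) := by positivity
        have hk3 : (k : ℝ) / (2 * M) ≤ 1 / 2 := by
          have hk4 : (k : ℝ) ≤ M := by exact_mod_cast hk2
          rw [div_le_iff₀ (by linarith)]
          linarith
        rw [ex_phx hx]
        exact fy_pt hk0 hk3 hκ2 (ex_nonneg hx _) (ex_le hx hk0) hTR hv hlog (hnear _ v hk0 hk3 hv)))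
    (by positivity) (by have := min_le_left κ1 1; linarith) (by have := min_le_right κ1 1; linarith)
  -- transfer
  have ht0 : 0 ≤ x / Real.log T := by positivity
  obtain ⟨hne, hz1⟩ := heat_zero ht0
  have hHd := heat_diff xi_slow ht0
  obtain ⟨a, ha⟩ : ∃ a : ℂ, a = 1 / 2 + T * I := ⟨_, rfl⟩
  have hare : a.re = 1 / 2 := by rw [ha]; simp
  have haim : a.im = T := by rw [ha]; simp
  have h1 := hcnt (S.image fun z => z - a) (by
    intro w hw
    obtain ⟨z, hz, rfl⟩ := Finset.mem_image.1 hw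
    obtain ⟨h2, h3, h4⟩ := hS z hz
    have h5 := hz1 z h2
    rw [heat_fy]
    refine ⟨?_, ?_, ?_, ?_⟩
    · show heat (x / Real.log T) xi (1 / 2 + T * I + (z - a)) = 0
      rw [← ha]
      have : a + (z - a) = z := by ring
      rw [this]
      exact h2
    · rw [sub_re, hare]
      have := min_le_left δ 1
      linarith
    · rw [sub_re, hare]
      have := le_max_right R 1
      linarith
    · rw [sub_im, haim]
      exact h4.trans (le_max_left _ _))
  rw [Finset.sum_image (by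
    intro z _ w _ hzw
    have : z - a + a = w - a + a := by rw [show z - a = w - a from hzw]
    simpa using this)] at h1
  have e1 : ∀ z ∈ S, (analyticOrderNatAt (heat (x / Real.log T) (fy T)) (z - a) : ℝ) =
      (analyticOrderNatAt (heat (x / Real.log T) xi) z : ℝ) := by
    intro z _
    rw [heat_fy, ord_shift hHd hne, ← ha]
    congr 2
    ring
  rw [Finset.sum_congr rfl e1] at h1
  refine h1.trans ?_
  gcongr

end Pool.Agent.V7H51.HF
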