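import Pool.Agent.W169.HF.DefsD
import Pool.Agent.W186.LH.Fac

/-!
# GLD-TCZ: three circles with few zeros, from the zero-free case
-/

set_option autoImplicit false

open Complex Filter Topology Set Metric

namespace Pool.Agent.V7H51.HF

open Pool.Agent.W169.HF Pool.Agent.W186.LH

/-- upper bound for a product of powers -/
lemma prod_le (Z : Finset ℂ) (m : ℂ → ℕ) (u : ℂ) {M : ℝ} (hM : ∀ z ∈ Z, ‖u - z‖ ≤ M) :
    ‖∏ z ∈ Z, (u - z) ^ (m z)‖ ≤ M ^ (∑ z ∈ Z, m z) := by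
  rw [norm_prod, ← Finset.prod_pow_eq_pow_sum]
  refine Finset.prod_le_prod (fun z _ => norm_nonneg _) fun z hz => ?_
  rw [norm_pow]
  exact pow_le_pow_left₀ (norm_nonneg _) (hM z hz) _

/-- lower bound for a product of powers -/
lemma le_prod (Z : Finset ℂ) (m : ℂ → ℕ) (u : ℂ) {M : ℝ} (hM0 : 0 ≤ M) (hM : ∀ z ∈ Z, M ≤ ‖u - z‖) :
    M ^ (∑ z ∈ Z, m z) ≤ ‖∏ z ∈ Z, (u - z) ^ (m z)‖ := by
  rw [norm_prod, ← Finset.prod_pow_eq_pow_sum]
  refine Finset.prod_le_prod (fun z _ => pow_nonneg hM0 _) fun z hz => ?_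
  rw [norm_pow]
  exact pow_le_pow_left₀ hM0 (hM z hz) _

lemma pow_le_exp {M : ℝ} {n : ℕ} {c : ℝ} (hM : 1 ≤ M) (hn : (n : ℝ) ≤ c) :
    M ^ n ≤ Real.exp (c * Real.log M) := by
  have h0 : 0 < M := by linarith
  have h1 : M ^ n = Real.exp ((n : ℝ) * Real.log M) := by
    rw [Real.exp_nat_mul, Real.exp_log h0]
  rw [h1]
  apply Real.exp_le_exp.2
  exact mul_le_mul_of_nonneg_right hn (Real.log_nonneg hM)

lemma exp_le_pow {M : ℝ} {n : ℕ} {c : ℝ} (hM : 1 ≤ M) (hn : (n : ℝ) ≤ c) :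
    Real.exp (-(c * Real.log M)) ≤ (1 / M) ^ n := by
  have h := pow_le_exp hM hn
  have h0 : 0 < M := by linarith
  rw [Real.exp_neg, one_div, inv_pow]
  exact inv_anti₀ (pow_pos h0 _) h

theorem tcz_of (hTC : S_TC) : S_TCZ := by
  intro A b ρ κ R1 hA hb1 hb3 hρ hρ1 hκ hR1
  obtain ⟨κ', R', hκ', hR', H⟩ := hTC (A + 1) (b + 1 / 4) (ρ / 2) (ρ / 2) (κ / 2) (max R1 4)
    (by linarith) (by linarith) (by linarith) (by linarith) (hR1.trans (le_max_left _ _))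
  have hR'4 : 4 ≤ R' := (le_max_right _ _).trans hR'
  have hR'1 : R1 ≤ R' := (le_max_left _ _).trans hR'
  obtain ⟨R, hRd⟩ : ∃ R : ℝ, R = R' + 1 := ⟨_, rfl⟩
  obtain ⟨L, hLd⟩ : ∃ L : ℝ, L = Real.log (4 * R / ρ) := ⟨_, rfl⟩
  have hR5 : 5 ≤ R := by linarith
  have hq1 : 4 * R ≤ 4 * R / ρ := by
    rw [le_div_iff₀ hρ]
    nlinarith
  have hL0 : 0 ≤ L := by
    rw [hLd]
    exact Real.log_nonneg (by linarith)
  have hlog : ∀ M : ℝ, 1 ≤ M → M ≤ 4 * R / ρ → Real.log M ≤ L := fun M h1 h2 => by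
    rw [hLd]
    exact Real.log_le_log (by linarith) h2
  obtain ⟨κ1, hκ1d⟩ : ∃ κ1 : ℝ, κ1 = min (ρ / 4) (min κ' (min (κ / 2) 1) / (1 + L)) := ⟨_, rfl⟩
  have hm0 : 0 < min κ' (min (κ / 2) 1) := lt_min hκ' (lt_min (by linarith) one_pos)
  have hκ1 : 0 < κ1 := by
    rw [hκ1d]
    exact lt_min (by linarith) (by positivity)
  have hκ1ρ : κ1 ≤ ρ / 4 := by rw [hκ1d]; exact min_le_left _ _
  have hκ1L : κ1 * (1 + L) ≤ min κ' (min (κ / 2) 1) := by
    have h1 : κ1 ≤ min κ' (min (κ / 2) 1) / (1 + L) := by rw [hκ1d]; exact min_le_right _ _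
    rwa [le_div_iff₀ (by linarith)] at h1
  have hκL1 : κ1 * (1 + L) ≤ κ' := hκ1L.trans (min_le_left _ _)
  have hκL2 : κ1 * (1 + L) ≤ κ / 2 := hκ1L.trans ((min_le_right _ _).trans (min_le_left _ _))
  have hκL3 : κ1 * (1 + L) ≤ 1 := hκ1L.trans ((min_le_right _ _).trans (min_le_right _ _))
  refine ⟨κ1, R, hκ1, by linarith, ?_⟩
  intro ℓ HH F hℓ hHH hF hup htwo hcnt u hu1 hu2 hu3
  classical
  -- a nonzero value
  have hne : ∃ v, F v ≠ 0 := by
    refine ⟨(4 : ℝ), fun h => ?_⟩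
    have h1 := (htwo ((4 : ℝ) : ℂ) (by simp; linarith) (by simp; linarith) (by simp; linarith)).1
    rw [h, norm_zero] at h1
    have := mul_pos hHH (Real.exp_pos (ℓ * (((4 : ℝ) : ℂ)).re - κ1 * ℓ))
    linarith
  -- the zeros
  obtain ⟨K, hK⟩ : ∃ K : Set ℂ, K = {z : ℂ | (ρ / 4 ≤ z.re ∧ z.re ≤ R - 1) ∧ -(R - 1) ≤ z.im ∧ z.im ≤ R - 1} :=
    ⟨_, rfl⟩
  have hKc : IsCompact K := by
    have h1 : K = Icc (ρ / 4) (R - 1) ×ℂ Icc (-(R - 1)) (R - 1) := by
      rw [hK]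
      ext z
      rfl
    rw [h1]
    exact isCompact_Icc.reProdIm isCompact_Icc
  have hfin := zfin hF hne hKc
  obtain ⟨Z, hZ⟩ : ∃ Z : Finset ℂ, Z = hfin.toFinset := ⟨_, rfl⟩
  have hZm : ∀ z, z ∈ Z ↔ z ∈ K ∧ F z = 0 := fun z => by rw [hZ]; simp
  obtain ⟨g, hg, hgZ, hFg⟩ := fac Z hF hne
  obtain ⟨m, hmd⟩ : ∃ m : ℂ → ℕ, m = fun z => analyticOrderNatAt F z := ⟨_, rfl⟩
  have hFg' : ∀ v, F v = (∏ z ∈ Z, (v - z) ^ (m z)) * g v := by rw [hmd]; exact hFg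
  obtain ⟨n, hn⟩ : ∃ n : ℕ, n = ∑ z ∈ Z, m z := ⟨_, rfl⟩
  have hnle : (n : ℝ) ≤ κ1 * ℓ := by
    have h1 := hcnt Z fun z hz => by
      have h2 := (hZm z).1 hz
      rw [hK] at h2
      refine ⟨h2.2, ?_⟩
      obtain ⟨⟨⟨h3, h4⟩, h5, h6⟩, -⟩ := h2
      exact ⟨by linarith, by linarith, abs_le.2 ⟨by linarith, by linarith⟩⟩
    rw [hn, hmd]
    push_cast
    exact h1
  have hκℓ : 0 ≤ κ1 * ℓ := by positivity
  -- zeros are to the left of `b`
  have hZb : ∀ z ∈ Z, z.re < b := fun z hz => by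
    by_contra hcon
    push Not at hcon
    have h2 := (hZm z).1 hz
    rw [hK] at h2
    obtain ⟨⟨⟨h3, h4⟩, h5, h6⟩, h7⟩ := h2
    have h1 := (htwo z hcon (by linarith) (abs_le.2 ⟨by linarith, by linarith⟩)).1
    rw [h7, norm_zero] at h1
    have := mul_pos hHH (Real.exp_pos (ℓ * z.re - κ1 * ℓ))
    linarith
  have hZK : ∀ z ∈ Z, (ρ / 4 ≤ z.re ∧ z.re ≤ R - 1) ∧ |z.im| ≤ R - 1 := fun z hz => by
    have h2 := (hZm z).1 hz
    rw [hK] at h2
    exact ⟨h2.1.1, abs_le.2 h2.1.2⟩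
  -- the function `g` has no zeros
  have hgne : ∀ v : ℂ, ρ / 2 < v.re → v.re < R' → |v.im| < R' → g v ≠ 0 := fun v h1 h2 h3 h0 => by
    have h4 : F v = 0 := by rw [hFg', h0, mul_zero]
    have h5 : v ∈ Z := by
      rw [hZm, hK]
      have := abs_le.1 h3.le
      exact ⟨⟨⟨by linarith, by linarith⟩, by linarith, by linarith⟩, h4⟩
    exact hgZ v h5 h0
  -- upper bound of the product
  have hPle : ∀ v : ℂ, 0 ≤ v.re → v.re ≤ R → |v.im| ≤ R →
      ‖∏ z ∈ Z, (v - z) ^ (m z)‖ ≤ Real.exp (κ1 * ℓ * L) := fun v h1 h2 h3 => by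
    have h4 : ‖∏ z ∈ Z, (v - z) ^ (m z)‖ ≤ (4 * R) ^ n := by
      rw [hn]
      refine prod_le Z m v fun z hz => ?_
      obtain ⟨⟨h5, h6⟩, h7⟩ := hZK z hz
      refine (Complex.norm_le_abs_re_add_abs_im _).trans ?_
      rw [sub_re, sub_im]
      have h8 : |v.re - z.re| ≤ R := abs_le.2 ⟨by linarith, by linarith⟩
      have h9 : |v.im - z.im| ≤ |v.im| + |z.im| := abs_sub _ _
      linarith
    refine h4.trans ((pow_le_exp (by linarith) hnle).trans ?_)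
    apply Real.exp_le_exp.2
    exact mul_le_mul_of_nonneg_left (hlog _ (by linarith) hq1) hκℓ
  have hPge : ∀ (v : ℂ) (d : ℝ), ρ / 4 ≤ d → d ≤ 1 → (∀ z ∈ Z, d ≤ ‖v - z‖) →
      Real.exp (-(κ1 * ℓ * L)) ≤ ‖∏ z ∈ Z, (v - z) ^ (m z)‖ := fun v d h1 h2 h3 => by
    have hd0 : 0 < d := by linarith
    have h4 := le_prod Z m v hd0.le h3
    refine le_trans ?_ h4
    have h5 : 1 ≤ 1 / d := by rw [le_div_iff₀ hd0]; linarith
    have h6 := exp_le_pow h5 hnle
    rw [one_div_one_div] at h6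
    rw [← hn]
    refine le_trans ?_ h6
    apply Real.exp_le_exp.2
    apply neg_le_neg
    refine mul_le_mul_of_nonneg_left (hlog _ h5 ?_) hκℓ
    rw [div_le_div_iff₀ hd0 hρ]
    nlinarith
  have hgle : ∀ (v : ℂ) (X : ℝ), ‖F v‖ ≤ X → Real.exp (-(κ1 * ℓ * L)) ≤ ‖∏ z ∈ Z, (v - z) ^ (m z)‖ →
      ‖g v‖ ≤ X * Real.exp (κ1 * ℓ * L) := fun v X h1 h2 => by
    rw [hFg', norm_mul] at h1
    have h3 : Real.exp (-(κ1 * ℓ * L)) * ‖g v‖ ≤ X :=
      (mul_le_mul_of_nonneg_right h2 (norm_nonneg _)).trans h1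
    have h4 : Real.exp (κ1 * ℓ * L) * Real.exp (-(κ1 * ℓ * L)) = 1 := by
      rw [← Real.exp_add]; simp
    have h5 : 0 < Real.exp (κ1 * ℓ * L) := Real.exp_pos _
    calc ‖g v‖ = (Real.exp (κ1 * ℓ * L) * Real.exp (-(κ1 * ℓ * L))) * ‖g v‖ := by rw [h4, one_mul]
      _ = Real.exp (κ1 * ℓ * L) * (Real.exp (-(κ1 * ℓ * L)) * ‖g v‖) := by ring
      _ ≤ Real.exp (κ1 * ℓ * L) * X := by gcongr
      _ = _ := by ring
  -- the rectangle
  obtain ⟨U, hU⟩ : ∃ U : Set ℂ, U = {z : ℂ | (0 < z.re ∧ z.re < R) ∧ |z.im| < R} := ⟨_, rfl⟩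
  obtain ⟨V, hV⟩ : ∃ V : Set ℂ, V = {z : ℂ | (0 ≤ z.re ∧ z.re ≤ R) ∧ |z.im| ≤ R} := ⟨_, rfl⟩
  have hUo : IsOpen U := by
    rw [hU]
    exact ((isOpen_lt continuous_const continuous_re).inter
      (isOpen_lt continuous_re continuous_const)).inter
      (isOpen_lt (continuous_abs.comp continuous_im) continuous_const)
  have hVc : IsClosed V := by
    rw [hV]
    exact ((isClosed_le continuous_const continuous_re).inter
      (isClosed_le continuous_re continuous_const)).inter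
      (isClosed_le (continuous_abs.comp continuous_im) continuous_const)
  have hUV : U ⊆ V := by
    rw [hU, hV]
    rintro z ⟨⟨h1, h2⟩, h3⟩
    exact ⟨⟨h1.le, h2.le⟩, h3.le⟩
  have hUb : Bornology.IsBounded U := by
    rw [isBounded_iff_forall_norm_le]
    refine ⟨R + R, fun z hz => ?_⟩
    rw [hU] at hz
    obtain ⟨⟨h1, h2⟩, h3⟩ := hz
    refine (Complex.norm_le_abs_re_add_abs_im z).trans ?_
    rw [abs_of_pos h1]
    linarith
  have hcrude : ∀ v ∈ U, ‖g v * cexp (-(ℓ * v))‖ ≤ HH * Real.exp ((A + 1) * ℓ) := by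
    intro v hv
    refine Complex.norm_le_of_forall_mem_frontier_norm_le (f := fun v => g v * cexp (-(ℓ * v))) hUb
      (Differentiable.diffContOnCl (by fun_prop)) (fun w hw => ?_) (subset_closure hv)
    have hw1 : w ∈ V := closure_minimal hUV hVc (frontier_subset_closure hw)
    have hw2 : w ∉ U := by
      rw [frontier, hUo.interior_eq] at hw
      exact hw.2
    rw [hV] at hw1
    obtain ⟨⟨h1, h2⟩, h3⟩ := hw1
    have hF1 := hup w h1 h2 h3
    have hd : ∀ z ∈ Z, ρ / 4 ≤ ‖w - z‖ := fun z hz => by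
      obtain ⟨⟨h5, h6⟩, h7⟩ := hZK z hz
      have hre := Complex.abs_re_le_norm (w - z)
      have him := Complex.abs_im_le_norm (w - z)
      rw [sub_re] at hre
      rw [sub_im] at him
      by_contra hcon
      push Not at hcon
      apply hw2
      rw [hU]
      have h8 := abs_lt.1 (hre.trans_lt hcon)
      have h9 := abs_lt.1 (him.trans_lt hcon)
      have h10 := abs_le.1 h7
      refine ⟨⟨by linarith, by linarith⟩, abs_lt.2 ⟨by linarith, by linarith⟩⟩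
    have h4 := hgle w _ hF1 (hPge w (ρ / 4) le_rfl (by linarith) hd)
    show ‖g w * cexp (-(ℓ * w))‖ ≤ _
    rw [norm_mul, Complex.norm_exp]
    have e1 : (-((ℓ : ℂ) * w)).re = -(ℓ * w.re) := by simp
    rw [e1]
    calc ‖g w‖ * Real.exp (-(ℓ * w.re)) ≤
        (HH * Real.exp (ℓ * w.re + A * ℓ) * Real.exp (κ1 * ℓ * L)) * Real.exp (-(ℓ * w.re)) := by gcongr
      _ = HH * Real.exp (A * ℓ + κ1 * ℓ * L) := by
          rw [mul_assoc, mul_assoc, ← Real.exp_add, ← Real.exp_add]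
          congr 2
          ring
      _ ≤ _ := by
          apply mul_le_mul_of_nonneg_left _ hHH.le
          apply Real.exp_le_exp.2
          have : κ1 * L ≤ 1 := by nlinarith
          nlinarith
  -- apply the theorem for `g`
  have hmain := (H ℓ HH g hℓ hHH hg hgne ?_ ?_ u (by linarith) (hu2.trans (le_max_left _ _))
    (hu3.trans (le_max_left _ _))).2.1
  · rw [hFg', norm_mul]
    have h1 := hPle u (by linarith) (by linarith) (by linarith)
    calc ‖∏ z ∈ Z, (u - z) ^ (m z)‖ * ‖g u‖ ≤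
        Real.exp (κ1 * ℓ * L) * (HH * Real.exp (ℓ * u.re + κ / 2 * ℓ)) := by gcongr
      _ = HH * Real.exp (ℓ * u.re + κ / 2 * ℓ + κ1 * ℓ * L) := by
          rw [Real.exp_add (ℓ * u.re + κ / 2 * ℓ)]; ring
      _ ≤ _ := by
          apply mul_le_mul_of_nonneg_left _ hHH.le
          apply Real.exp_le_exp.2
          have : κ1 * L ≤ κ / 2 := by nlinarith
          nlinarith
  · intro v h1 h2 h3
    have h4 := hcrude v (by rw [hU]; exact ⟨⟨by linarith, by linarith⟩, by linarith⟩)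
    rw [norm_mul, Complex.norm_exp] at h4
    have e1 : (-((ℓ : ℂ) * v)).re = -(ℓ * v.re) := by simp
    rw [e1, Real.exp_neg, ← div_eq_mul_inv, div_le_iff₀ (Real.exp_pos _)] at h4
    refine h4.trans (le_of_eq ?_)
    rw [mul_assoc, ← Real.exp_add]
    congr 2
    ring
  · intro v h1 h2 h3
    obtain ⟨h4, h5⟩ := htwo v (by linarith) (by linarith) (by linarith)
    have hd : ∀ z ∈ Z, 1 / 4 ≤ ‖v - z‖ := fun z hz => by
      have h6 := hZb z hz
      have hre := Complex.abs_re_le_norm (v - z)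
      rw [sub_re] at hre
      have := le_abs_self (v.re - z.re)
      linarith
    constructor
    · have h6 := hPle v (by linarith) (by linarith) (by linarith)
      rw [hFg', norm_mul] at h4
      have h7 : HH * Real.exp (ℓ * v.re - κ1 * ℓ) ≤ Real.exp (κ1 * ℓ * L) * ‖g v‖ :=
        h4.trans (mul_le_mul_of_nonneg_right h6 (norm_nonneg _))
      have h8 : HH * Real.exp (ℓ * v.re - κ' * ℓ) ≤
          (HH * Real.exp (ℓ * v.re - κ1 * ℓ)) * Real.exp (-(κ1 * ℓ * L)) := by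
        rw [mul_assoc, ← Real.exp_add]
        apply mul_le_mul_of_nonneg_left _ hHH.le
        apply Real.exp_le_exp.2
        nlinarith
      refine h8.trans ?_
      rw [Real.exp_neg, ← div_eq_mul_inv, div_le_iff₀ (Real.exp_pos _)]
      linarith
    · have h6 := hgle v _ h5 (hPge v (1 / 4) (by linarith) (by norm_num) hd)
      refine h6.trans ?_
      rw [mul_assoc, ← Real.exp_add]
      apply mul_le_mul_of_nonneg_left _ hHH.le
      apply Real.exp_le_exp.2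
      nlinarith

end Pool.Agent.V7H51.HF
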