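import Pool.Agent.W160.HF.Hpx
import Pool.Agent.W251.HF.Jen
import Pool.Agent.W583.HF.InvX
import Pool.Agent.W193.HF.Net
import Pool.Agent.W565.HF.Hup
import Pool.Agent.W565.HF.Inv
import Pool.Agent.W366.HF.Hlo
import Pool.Agent.W351.HF.TC
import Pool.Agent.W397.HF.Lcx
import Pool.Agent.W45.HF.Prof
import Pool.Agent.W363.HF.JU
import Pool.Agent.W736.HF.JL
import Pool.Agent.W320.HF.Rect
import Pool.Agent.W169.HF.Asm
import Pool.Agent.V7H51.HF.Sadl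
import Pool.Agent.V7H51.HF.TCZ

/-!
# Size and the number of zeros of the heat flow: the two directions
-/

set_option autoImplicit false

open Complex Filter Topology Set Metric

namespace Pool.Agent.V7H51.HF

open Pool.Agent.W169.HF

theorem tc_all : S_TC := Pool.Agent.W351.HF.tc
theorem lcx_all : S_LCX := Pool.Agent.W397.HF.lcx
theorem prof_all : S_PROF := Pool.Agent.W45.HF.prof_of tc_all lcx_all
theorem ju_all : S_JU := Pool.Agent.W363.HF.ju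
theorem jl_all : S_JL := Pool.Agent.W736.HF2.jl_of sadl
theorem hlo_all : S_HLO := Pool.Agent.W366.HF.hlo_of prof_all ju_all jl_all
theorem hup_all : S_HUP := Pool.Agent.W565.HF.hup
theorem inv_all : S_INV := Pool.Agent.W565.HF.inv hs_all sg_all heat_all
theorem hpx_all : S_HPX := Pool.Agent.W160.HF.hpx
theorem jen_all : S_JEN := Pool.Agent.W251.HF.jen
theorem invx_all : S_INVX := Pool.Agent.W583.HF.invx_of hup_all inv_all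
theorem rect_all : S_RECT := Pool.Agent.W320.HF.rect
theorem net_all : S_NET := Pool.Agent.W193.HF.net_of rect_all
theorem tcz_all : S_TCZ := tcz_of tc_all

lemma heat_diff {f : ℂ → ℂ} (hf : Slow f) {t : ℝ} (ht : 0 ≤ t) : Differentiable ℂ (heat t f) := by
  rw [heat_all f hf t ht]
  exact (hs_all f hf t).2.1.1

/-- the size profile gives few zeros of the heat flow -/
theorem few_of_size {K ϑ0 x X R δ ε : ℝ} (hK : 1 ≤ K) (hϑ : 1 / 2 ≤ ϑ0) (hϑ2 : ϑ0 ≤ 2) (hx : 0 < x)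
    (hxX : x ≤ X) (hX : 1 ≤ X) (hR : 1 ≤ R) (hδ : 0 < δ) (hδ1 : δ ≤ 1) (hε : 0 < ε) :
    ∃ κ1 R' ℓ0 : ℝ, 0 < κ1 ∧ 1 ≤ R' ∧ ∀ (ℓ G t : ℝ) (f : ℂ → ℂ), ℓ0 ≤ ℓ → UD K ϑ0 ℓ G f →
    (∀ u : ℂ, |u.re| ≤ R' → |u.im| ≤ R' → ‖f u‖ ≤ G * Real.exp (ℓ * phx x |u.re| + κ1 * ℓ)) →
    0 < t → x - κ1 ≤ 2 * t * ℓ → 2 * t * ℓ ≤ X →
    Cnt (heat t f) {z : ℂ | δ ≤ z.re ∧ z.re ≤ R ∧ |z.im| ≤ R} (ε * ℓ) := by
  obtain ⟨κ, R1, hκ, hRR, hJ⟩ := jen_all R δ ε (ϑ0 + 1 / 2) hR hδ hδ1 hε (by linarith)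
  obtain ⟨κ2, R', ℓ1, hκ2, hR', hP⟩ := hpx_all K ϑ0 x X κ R1 hK hϑ hϑ2 hx hxX hX hκ (hR.trans hRR)
  obtain ⟨ℓ2, hH⟩ := hlo_all K ϑ0 (x / 2) X κ R1 hK hϑ hϑ2 (by linarith) hX hκ (hR.trans hRR)
  refine ⟨min κ2 (x / 2), R', max ℓ1 (max ℓ2 1), lt_min hκ2 (by linarith), (hR.trans hRR).trans hR', ?_⟩
  intro ℓ G t f hℓ hud hf ht hx1 hx2
  have hℓ1 : ℓ1 ≤ ℓ := (le_max_left _ _).trans hℓ
  have hℓ2 : ℓ2 ≤ ℓ := (le_max_left _ _).trans ((le_max_right _ _).trans hℓ)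
  have hℓ3 : 1 ≤ ℓ := (le_max_right _ _).trans ((le_max_right _ _).trans hℓ)
  have hG := hud.hG
  refine hJ ℓ (G * Real.exp (t * ℓ ^ 2)) (heat t f) (by linarith) (by positivity)
    (heat_diff hud.slow ht.le) (fun u h1 h2 h3 => ?_) (fun u h1 h2 h3 => ?_)
  · have h4 := hP ℓ G t f hℓ1 hud (fun u h5 h6 => ?_) ht ?_ hx2 u (by rwa [abs_of_nonneg h1]) h3
    · rwa [abs_of_nonneg h1] at h4
    · refine (hf u h5 h6).trans ?_
      apply mul_le_mul_of_nonneg_left _ hG.le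
      apply Real.exp_le_exp.2
      have : min κ2 (x / 2) * ℓ ≤ κ2 * ℓ := mul_le_mul_of_nonneg_right (min_le_left _ _) (by linarith)
      linarith
    · have := min_le_left κ2 (x / 2)
      linarith
  · exact (hH ℓ G t f hℓ2 hud ht (by
      have := min_le_right κ2 (x / 2)
      linarith) hx2 u h1 h2 h3).1

/-- few zeros of the heat flow give the size profile -/
theorem size_of_few {K ϑ0 g X κ : ℝ} (hK : 1 ≤ K) (hϑ : 1 / 2 ≤ ϑ0) (hϑ2 : ϑ0 ≤ 2) (hg : 0 < g)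
    (hX : 1 ≤ X) (hκ : 0 < κ) :
    ∃ κ1 R ℓ0 : ℝ, 0 < κ1 ∧ 1 ≤ R ∧ ∀ (ℓ G t : ℝ) (f : ℂ → ℂ), ℓ0 ≤ ℓ → UD K ϑ0 ℓ G f → 0 < t →
    g ≤ 2 * t * ℓ → 2 * t * ℓ ≤ X →
    Cnt (heat t f) {z : ℂ | κ1 ≤ z.re ∧ z.re ≤ R ∧ |z.im| ≤ R} (κ1 * ℓ) →
    ∀ r : ℝ, 0 ≤ r → r ≤ 1 → ‖f r‖ ≤ G * Real.exp (ℓ * phx (2 * t * ℓ) r + κ * ℓ) := by
  obtain ⟨κi, Ri, ℓi, hκi, hκi1, hRi, hI⟩ := invx_all K ϑ0 g X κ hK hϑ hϑ2 hg hX hκ
  obtain ⟨κz, Rz, hκz, hRz, hZ⟩ := tcz_all (ϑ0 + 1) (ϑ0 + 1 / 2) κi κi (max Ri 2) (by linarith)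
    (by linarith) (by linarith) hκi hκi1 hκi (hRi.trans (le_max_left _ _))
  obtain ⟨ℓh, hH⟩ := hlo_all K ϑ0 g X κz Rz hK hϑ hϑ2 hg hX hκz
    (hRi.trans ((le_max_left _ _).trans hRz))
  obtain ⟨K', ℓu, hK', hU⟩ := hup_all K ϑ0 X hK hϑ hϑ2 hX
  have hRz1 : 1 ≤ Rz := hRi.trans ((le_max_left _ _).trans hRz)
  refine ⟨κz, Rz, max (max ℓi ℓh) (max (max ℓu 1) (K' * (1 + 4 * Rz ^ 2))), hκz, hRz1, ?_⟩
  intro ℓ G t f hℓ hud ht h1 h2 hcnt r hr0 hr1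
  have hℓi : ℓi ≤ ℓ := (le_max_left _ _).trans ((le_max_left _ _).trans hℓ)
  have hℓh : ℓh ≤ ℓ := (le_max_right _ _).trans ((le_max_left _ _).trans hℓ)
  have hℓu : ℓu ≤ ℓ := (le_max_left _ _).trans ((le_max_left _ _).trans ((le_max_right _ _).trans hℓ))
  have hℓ1 : 1 ≤ ℓ := (le_max_right _ _).trans ((le_max_left _ _).trans ((le_max_right _ _).trans hℓ))
  have hℓK : K' * (1 + 4 * Rz ^ 2) ≤ ℓ := (le_max_right _ _).trans ((le_max_right _ _).trans hℓ)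
  have hG := hud.hG
  refine hI ℓ G t f hℓi hud ht h1 h2 (fun u h3 h4 h5 => ?_) r hr0 hr1
  refine hZ ℓ (G * Real.exp (t * ℓ ^ 2)) (heat t f) (by linarith) (by positivity)
    (heat_diff hud.slow ht.le) (fun v h6 h7 h8 => ?_) (fun v h6 h7 h8 => ?_) hcnt u h3
    (h4.trans (le_max_right _ _)) (h5.trans (le_max_left _ _))
  · refine (hU ℓ G t f hℓu hud ht h2 v).trans ?_
    apply mul_le_mul_of_nonneg_left _ (by positivity)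
    apply Real.exp_le_exp.2
    have h9 : max |v.re| ϑ0 ≤ v.re + ϑ0 := by
      rw [abs_of_nonneg h6]
      exact max_le (by linarith) (by linarith)
    have h10 : ‖v‖ ≤ 2 * Rz := by
      refine (Complex.norm_le_abs_re_add_abs_im v).trans ?_
      rw [abs_of_nonneg h6]
      linarith
    have h11 : ‖v‖ ^ 2 ≤ 4 * Rz ^ 2 := by
      have := pow_le_pow_left₀ (norm_nonneg v) h10 2
      nlinarith
    have h12 : K' * (1 + ‖v‖ ^ 2) ≤ ℓ := by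
      have : K' * (1 + ‖v‖ ^ 2) ≤ K' * (1 + 4 * Rz ^ 2) := by gcongr
      linarith
    have h13 : ℓ * max |v.re| ϑ0 ≤ ℓ * (v.re + ϑ0) := by gcongr
    nlinarith
  · exact hH ℓ G t f hℓh hud ht h1 h2 v h6 h7 h8

end Pool.Agent.V7H51.HF
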