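import Pool.Agent.V7H51.HF.ZM5
import Pool.Agent.V7H51.HF.Fwd3

/-!
# All zeros of the heat flow near `T` on the line
-/

set_option autoImplicit false

open Complex Filter Topology Set Metric MeasureTheory
open scoped ComplexConjugate

namespace Pool.Agent.V7H51.HF

open Pool.Agent.W169.HF H353.E H353.F

/-- profile and parabolic majorant -/
lemma mp_ev {x κ ρ R0 : ℝ} (hx : 0 < x) (hκ : 0 < κ) (hρ0 : 0 < ρ) (hρ1 : ρ ≤ 1 / 2)
    (hR0 : 1 ≤ R0) (h : Size x) : ∀ᶠ T : ℝ in atTop,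
      Pf κ (1 / 2 + ρ) R0 (ell T) (Gy T) (fy T) ∧ Mp κ (1 / 2 + ρ) x (ell T) (Gy T) (fy T) := by
  obtain ⟨K, hK, hUD⟩ := ud_xi
  obtain ⟨M, κ2, R2, ℓ2, hM, hκ2, hR2, HN⟩ := net_all K 1 x κ R0 hK (by norm_num) (by norm_num) hx
    hκ hR0
  have hM0 : (0 : ℝ) < M := by exact_mod_cast hM
  have hM1 : (1 : ℝ) ≤ M := by exact_mod_cast hM
  obtain ⟨R3, ℓ3, hR23, HP⟩ := prof_all K 1 (1 / 2) (1 / (2 * M)) κ2 R2 hK (by norm_num) (by norm_num)
    (by norm_num) (by norm_num) (by positivity) (by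
      rw [div_le_one (by linarith)]; linarith) hκ2 hR2
  obtain ⟨R4, ℓ4, hR4, HP4⟩ := prof_all K 1 (1 / 2) ρ κ R0 hK (by norm_num) (by norm_num)
    (by norm_num) (by norm_num) hρ0 (by linarith) hκ hR0
  have hlines : ∀ᶠ T : ℝ in atTop, ∀ k ∈ Finset.Icc 1 M, ∀ v : ℝ, |v| ≤ R2 →
      ‖fy T (((k / (2 * M) : ℝ) : ℂ) + v * I)‖ ≤
        Gy T * Real.exp (ell T * phx x (k / (2 * M)) + κ2 * ell T) := by
    rw [Filter.eventually_all_finset]
    intro k hk
    rw [Finset.mem_Icc] at hk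
    have hk1 : (k : ℝ) ≤ M := by exact_mod_cast hk.2
    refine line_ev hx (by positivity) ?_ hκ2 (by linarith) h
    rw [div_le_iff₀ (by linarith)]
    linarith
  filter_upwards [hlines, ell_ev (max ℓ2 (max ℓ3 ℓ4))] with T hl h2
  obtain ⟨hℓ, -, -⟩ := h2
  have hud := hUD T
  have h3 := HN (ell T) (Gy T) (fy T) ((le_max_left _ _).trans hℓ) hud
      (HP (ell T) (Gy T) (fy T) (((le_max_left _ _).trans (le_max_right _ _)).trans hℓ) hud
        (fun u hu _ => xi_ne (by simp; linarith)))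
      (fun k hk1 hk2 v hv => hl k (Finset.mem_Icc.2 ⟨hk1, hk2⟩) v hv)
  have h4 := HP4 (ell T) (Gy T) (fy T) (((le_max_right _ _).trans (le_max_right _ _)).trans hℓ) hud
        (fun u hu _ => xi_ne (by simp; linarith))
  refine ⟨h4, fun r hr0 hr1 => ?_⟩
  have h5 := h3 (r : ℂ) (by rw [ofReal_re, abs_of_nonneg hr0]; linarith) (by simp; linarith)
  rwa [ofReal_re, abs_of_nonneg hr0] at h5

/-- near `T` all zeros of the heat flow are on the critical line -/
theorem online2 {x₁ x R : ℝ} (hx1 : 0 < x₁) (hx : x₁ < x) (hx2 : 1 / 2 < x)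
    (hR : 0 < R) (h : Size x₁) : ∃ T₀ : ℝ, ∀ T : ℝ, T₀ ≤ T → ∀ z : ℂ, heat (x / Real.log T) xi z = 0 →
      |z.im - T| ≤ R → z.re = 1 / 2 := by
  have hx0 : 0 < x := by linarith
  obtain ⟨K, hK, hUD⟩ := ud_xi
  obtain ⟨d, hd⟩ : ∃ d : ℝ, d = min (x - x₁) (x - 1 / 2) := ⟨_, rfl⟩
  have hd0 : 0 < d := by rw [hd]; exact lt_min (by linarith) (by linarith)
  have hd1 : d ≤ x - x₁ := by rw [hd]; exact min_le_left _ _
  have hd2 : d ≤ x - 1 / 2 := by rw [hd]; exact min_le_right _ _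
  obtain ⟨ρ, hρ⟩ : ∃ ρ : ℝ, ρ = min (1 / 2) (d / 16) := ⟨_, rfl⟩
  have hρ0 : 0 < ρ := by rw [hρ]; exact lt_min (by norm_num) (by linarith)
  have hρ1 : ρ ≤ 1 / 2 := by rw [hρ]; exact min_le_left _ _
  have hρ2 : ρ ≤ d / 16 := by rw [hρ]; exact min_le_right _ _
  obtain ⟨κ, R', ℓ0, hκ, HF⟩ := fwd3_of sadl K 1 (1 / 2 + ρ) x₁ (min 1 (d / 4)) (x + 1) hK (by norm_num)
    (by norm_num) (by linarith) (by linarith) hx1
    (lt_min one_pos (by linarith)) (min_le_left _ _) (by linarith)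
  have hev := (mp_ev hx1 hκ hρ0 hρ1 (le_max_right R' 1) h).and
    ((ell_ev ℓ0).and (eventually_ge_atTop (4 : ℝ)))
  obtain ⟨T₁, hT₁⟩ := Filter.eventually_atTop.1 hev
  obtain ⟨η, hη⟩ : ∃ η : ℝ, η = min 1 (d / 8) := ⟨_, rfl⟩
  have hη0 : 0 < η := by rw [hη]; exact lt_min one_pos (by linarith)
  have hη1 : η ≤ 1 := by rw [hη]; exact min_le_left _ _
  have hη2 : η ≤ d / 8 := by rw [hη]; exact min_le_right _ _
  obtain ⟨T₀, hT₀⟩ := Filter.eventually_atTop.1 ((log_large (16 * x / η + 1)).and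
    (eventually_ge_atTop (max (T₁ + R) (2 * R + 8))))
  refine ⟨T₀, fun T hT z hz hzT => ?_⟩
  obtain ⟨hlog, hTm⟩ := hT₀ T hT
  have hTT1 : T₁ + R ≤ T := (le_max_left _ _).trans hTm
  have hTR : 2 * R + 8 ≤ T := (le_max_right _ _).trans hTm
  have hzT' := abs_le.1 hzT
  obtain ⟨y, hy⟩ : ∃ y : ℝ, y = z.im := ⟨_, rfl⟩
  rw [← hy] at hzT'
  have hy1 : T₁ ≤ y := by linarith
  have hy4 : 4 ≤ y := by linarith
  obtain ⟨⟨hpf, hmj⟩, ⟨hℓ, -, -⟩, -⟩ := hT₁ y hy1
  have h16 : 0 < 16 * x / η := by positivity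
  have hL : 0 < Real.log T := by linarith
  obtain ⟨h3, h4⟩ := ell_le hy4
  -- the time
  have hlogy : |Real.log y - Real.log T| ≤ 1 := by
    have h5 : Real.log y ≤ Real.log (2 * T) := Real.log_le_log (by linarith) (by linarith)
    have h6 : Real.log T ≤ Real.log (2 * y) := Real.log_le_log (by linarith) (by linarith)
    rw [Real.log_mul (by norm_num) (by linarith)] at h5 h6
    have := Real.log_two_lt_d9
    exact abs_le.2 ⟨by linarith, by linarith⟩
  have hly := abs_le.1 hlogy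
  have htime : |2 * (x / Real.log T) * ell y - x| ≤ η := by
    have e1 : 2 * (x / Real.log T) * ell y - x = 2 * x * (ell y - 1 / 2 * Real.log T) / Real.log T := by
      field_simp
    rw [e1, abs_div, abs_of_pos hL, div_le_iff₀ hL, abs_mul, abs_of_pos (by linarith : 0 < 2 * x)]
    have h6 : |ell y - 1 / 2 * Real.log T| ≤ 8 := abs_le.2 ⟨by linarith, by linarith⟩
    have h7 : 16 * x ≤ η * Real.log T := by
      have : η * (16 * x / η) = 16 * x := by field_simp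
      nlinarith
    nlinarith [abs_nonneg (ell y - 1 / 2 * Real.log T)]
  have htm := abs_le.1 htime
  -- the zeros lie in the strip
  have ht0 : 0 ≤ x / Real.log T := by positivity
  have hcl : Cl (1 / 2) xi := by
    refine ⟨xi_slow, ⟨1, by simp, xi_fe⟩, fun s hs => ?_⟩
    by_contra hcon
    push Not at hcon
    exact xi_ne (by linarith) hs
  obtain ⟨-, hcl2⟩ := db_all (1 / 2) xi hcl ⟨2, xi_ne (by norm_num)⟩ _ ht0
  have hz1 : z.re ≤ 1 := by
    have := hcl2.zer z hz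
    linarith
  have hz0 : 0 ≤ z.re := by
    obtain ⟨ε, hε, hfe⟩ := hcl2.fe
    have h5 := hfe z
    rw [hz] at h5
    have h6 : heat (x / Real.log T) xi (1 - conj z) = 0 := by
      have hε0 : ε ≠ 0 := by
        intro h
        rw [h, norm_zero] at hε
        norm_num at hε
      have h7 := (mul_eq_zero.1 h5.symm).resolve_left hε0
      have := congrArg conj h7
      simpa using this
    have h8 := hcl2.zer _ h6
    simp at h8
    linarith
  by_contra hne
  have hxx : z.re - 1 / 2 ≠ 0 := sub_ne_zero.2 hne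
  have hmain := HF (ell y) (Gy y) (x / Real.log T) (fy y) hℓ (hUD y)
    ⟨fun u a1 a2 a3 => hpf.low u a1 (a2.trans (le_max_left _ _)) (a3.trans (le_max_left _ _)),
      fun u a1 a2 => hpf.upp u (a1.trans (le_max_left _ _)) (a2.trans (le_max_left _ _)),
      fun u a1 a2 a3 => hpf.der u a1 (a2.trans (le_max_left _ _)) (a3.trans (le_max_left _ _))⟩
    hmj (by positivity) (by
      have h5 := min_le_right 1 (d / 4)
      linarith) (by
      have h5 := min_le_right 1 (d / 4)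
      linarith) (by linarith) (z.re - 1 / 2) hxx (abs_le.2 ⟨by linarith, by linarith⟩)
  apply hmain
  rw [heat_fy]
  show heat (x / Real.log T) xi (1 / 2 + y * I + ((z.re - 1 / 2 : ℝ) : ℂ)) = 0
  have e1 : (1 / 2 : ℂ) + y * I + ((z.re - 1 / 2 : ℝ) : ℂ) = z := by
    apply Complex.ext
    · simp
    · simp [hy]
  rw [e1]
  exact hz

end Pool.Agent.V7H51.HF
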