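import Pool.Agent.W169.HF.DefsB

/-!
# The saddle point lemma SADL of project HF
-/

set_option autoImplicit false

open Complex MeasureTheory Filter Topology Set Metric

namespace Pool.Agent.V7H51.HF

open Pool.Agent.W169.HF

/-- one side: the quotient by the Gaussian is close to one -/
lemma side {c s a : ℝ} (hc : 0 < c) (hs : 0 < s) (k : ℝ → ℂ) (η : ℝ → ℂ)
    (hk : ∀ y : ℝ, 0 ≤ y → y ≤ a → HasDerivAt k (k y * (-((s : ℂ) ^ 2 * (y - η y)))) y)
    (hη : ∀ y : ℝ, 0 ≤ y → y ≤ a → ‖η y‖ ≤ c * y) (hk0 : k 0 ≠ 0) :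
    ∀ y : ℝ, 0 ≤ y → y ≤ a →
      ‖k y - k 0 * Real.exp (-(s ^ 2 * y ^ 2 / 2))‖ ≤
        ‖k 0‖ * Real.exp (-(s ^ 2 * y ^ 2 / 2)) * (Real.exp (s ^ 2 * c * y ^ 2) - 1) := by
  intro Y hY0 hYa
  rcases hY0.eq_or_lt with h0 | hY
  · subst h0
    simp
  obtain ⟨K, hK⟩ : ∃ K : ℝ, K = s ^ 2 * c * Y := ⟨_, rfl⟩
  have hK0 : 0 < K := by rw [hK]; positivity
  obtain ⟨r, hr⟩ : ∃ r : ℝ → ℂ, r = fun y => k y * cexp (((s ^ 2 * y ^ 2 / 2 : ℝ) : ℂ)) / k 0 := ⟨_, rfl⟩
  have hd : ∀ y : ℝ, 0 ≤ y → y ≤ a → HasDerivAt r (r y * ((s : ℂ) ^ 2 * η y)) y := by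
    intro y h1 h2
    have e1 : HasDerivAt (fun y : ℝ => cexp (((s ^ 2 * y ^ 2 / 2 : ℝ) : ℂ)))
        (cexp (((s ^ 2 * y ^ 2 / 2 : ℝ) : ℂ)) * ((s ^ 2 * y : ℝ) : ℂ)) y := by
      have e2 : HasDerivAt (fun y : ℝ => (s ^ 2 * y ^ 2 / 2 : ℝ)) (s ^ 2 * y) y := by
        have := ((hasDerivAt_pow 2 y).const_mul (s ^ 2)).div_const 2
        exact this.congr_deriv (by ring)
      exact e2.ofReal_comp.cexp
    have e3 := ((hk y h1 h2).mul e1).div_const (k 0)
    rw [hr]
    refine HasDerivAt.congr_deriv e3 ?_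
    push_cast
    ring
  have hb : ∀ x ∈ Ico (0 : ℝ) Y, ‖r x * ((s : ℂ) ^ 2 * η x)‖ ≤ K * ‖r x - 1‖ + K := by
    intro x hx
    have h1 := hη x hx.1 (by linarith [hx.2])
    rw [norm_mul, norm_mul, norm_pow, Complex.norm_real, Real.norm_eq_abs, sq_abs]
    have h2 : s ^ 2 * ‖η x‖ ≤ K := by
      rw [hK]
      have : ‖η x‖ ≤ c * Y := h1.trans (by nlinarith [hx.2])
      calc s ^ 2 * ‖η x‖ ≤ s ^ 2 * (c * Y) := by gcongr
        _ = _ := by ring
    have h3 : ‖r x‖ ≤ ‖r x - 1‖ + 1 := by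
      have := norm_add_le (r x - 1) 1
      simpa using this
    calc ‖r x‖ * (s ^ 2 * ‖η x‖) ≤ (‖r x - 1‖ + 1) * K := by gcongr
      _ = _ := by ring
  have hgr := norm_le_gronwallBound_of_norm_deriv_right_le (f := fun y => r y - 1)
    (f' := fun y => r y * ((s : ℂ) ^ 2 * η y)) (δ := 0) (K := K) (ε := K) (a := 0) (b := Y)
    (fun y hy => ((hd y hy.1 (by linarith [hy.2])).continuousAt.sub continuousAt_const).continuousWithinAt)
    (fun y hy => ((hd y hy.1 (by linarith [hy.2])).sub_const 1).hasDerivWithinAt)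
    (by rw [hr]; simp [hk0]) hb Y ⟨hY.le, le_rfl⟩
  rw [gronwallBound_of_K_ne_0 hK0.ne'] at hgr
  have e4 : K * (Y - 0) = s ^ 2 * c * Y ^ 2 := by rw [hK]; ring
  replace hgr : ‖r Y - 1‖ ≤ 0 * Real.exp (K * (Y - 0)) + K / K * (Real.exp (K * (Y - 0)) - 1) := hgr
  rw [e4, zero_mul, zero_add, div_self hK0.ne', one_mul] at hgr
  have e5 : k Y - k 0 * Real.exp (-(s ^ 2 * Y ^ 2 / 2)) =
      k 0 * (Real.exp (-(s ^ 2 * Y ^ 2 / 2)) : ℂ) * (r Y - 1) := by
    have e6 : (Real.exp (-(s ^ 2 * Y ^ 2 / 2)) : ℂ) * cexp (((s ^ 2 * Y ^ 2 / 2 : ℝ) : ℂ)) = 1 := by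
      rw [Complex.ofReal_exp, ← Complex.exp_add]
      push_cast
      simp
    have e7 : k 0 * (Real.exp (-(s ^ 2 * Y ^ 2 / 2)) : ℂ) * r Y = k Y := by
      rw [hr]
      show k 0 * (Real.exp (-(s ^ 2 * Y ^ 2 / 2)) : ℂ) *
        (k Y * cexp (((s ^ 2 * Y ^ 2 / 2 : ℝ) : ℂ)) / k 0) = k Y
      calc k 0 * (Real.exp (-(s ^ 2 * Y ^ 2 / 2)) : ℂ) *
          (k Y * cexp (((s ^ 2 * Y ^ 2 / 2 : ℝ) : ℂ)) / k 0) =
          k Y * ((Real.exp (-(s ^ 2 * Y ^ 2 / 2)) : ℂ) * cexp (((s ^ 2 * Y ^ 2 / 2 : ℝ) : ℂ))) * (k 0 / k 0) := by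
            ring
        _ = k Y := by rw [e6, div_self hk0, mul_one, mul_one]
    rw [mul_sub, e7, mul_one]
  rw [e5, norm_mul, norm_mul, Complex.norm_real, Real.norm_eq_abs, abs_of_pos (Real.exp_pos _)]
  exact mul_le_mul_of_nonneg_left hgr (by positivity)

theorem sadl : S_SADL := by
  intro F p μ ρ s θ hρ hρ2 hs hsρ hθ hθρ hL
  have hs0 : 0 < s := by linarith
  have hsc : (s : ℂ) ^ 2 ≠ 0 := by
    have : (s : ℂ) ≠ 0 := by exact_mod_cast hs0.ne'
    positivity
  obtain ⟨E, hEdef⟩ : ∃ E : ℂ → ℂ, E = fun w => (logDeriv F w - μ) / (s : ℂ) ^ 2 := ⟨_, rfl⟩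
  have hE : ∀ w ∈ ball p ρ, ‖E w‖ ≤ θ := by
    intro w hw
    obtain ⟨-, -, h3⟩ := hL w hw
    rw [hEdef]
    show ‖(logDeriv F w - μ) / (s : ℂ) ^ 2‖ ≤ θ
    rw [norm_div, norm_pow, Complex.norm_real, Real.norm_eq_abs, sq_abs, div_le_iff₀ (by positivity)]
    exact h3
  have hFd : DifferentiableOn ℂ F (ball p ρ) := fun w hw => (hL w hw).1.differentiableWithinAt
  have hEd : DifferentiableOn ℂ E (ball p ρ) := by
    rw [hEdef]
    have h1 := hFd.deriv isOpen_ball
    have h2 : DifferentiableOn ℂ (fun w => deriv F w / F w) (ball p ρ) :=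
      h1.div hFd fun w hw => (hL w hw).2.1
    exact (h2.sub_const μ).div_const _
  have hθ1 : 100000 * θ ≤ ρ := by
    rw [le_div_iff₀ (by norm_num)] at hθρ
    linarith
  have hE' : ∀ w ∈ ball p (ρ / 2), ‖deriv E w‖ ≤ 1 / 25000 := by
    intro w hw
    have hsub : closedBall w (ρ / 4) ⊆ ball p ρ := by
      intro z hz
      rw [mem_closedBall] at hz
      rw [mem_ball] at hw ⊢
      have := dist_triangle z w p
      linarith
    have h1 := Complex.norm_deriv_le_of_forall_mem_sphere_norm_le (f := E) (c := w) (R := ρ / 4) (C := θ)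
      (by linarith) ((hEd.mono hsub).diffContOnCl_ball Subset.rfl)
      (fun z hz => hE z (hsub (sphere_subset_closedBall hz)))
    refine h1.trans ?_
    rw [div_le_iff₀ (by linarith)]
    linarith
  have hLip : ∀ a ∈ ball p (ρ / 2), ∀ b ∈ ball p (ρ / 2), ‖E a - E b‖ ≤ 1 / 25000 * ‖a - b‖ := by
    intro a ha b hb
    refine (convex_ball p (ρ / 2)).norm_image_sub_le_of_norm_deriv_le (f := E) (fun z hz => ?_) hE' hb ha
    refine (hEd z (ball_subset_ball (by linarith) hz)).differentiableAt (isOpen_ball.mem_nhds ?_)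
    exact ball_subset_ball (by linarith) hz
  -- the fixed point
  have hcb : closedBall p θ ⊆ ball p (ρ / 2) := by
    intro z hz
    rw [mem_closedBall] at hz
    rw [mem_ball]
    linarith
  obtain ⟨w0, hw0, hfix⟩ : ∃ w0 ∈ closedBall p θ, p + E w0 = w0 := by
    have hcont : ContinuousOn (fun w => ‖p + E w - w‖) (closedBall p θ) := by
      have h1 : ContinuousOn E (closedBall p θ) :=
        hEd.continuousOn.mono (hcb.trans (ball_subset_ball (by linarith)))
      exact ((continuousOn_const.add h1).sub continuousOn_id).norm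
    obtain ⟨w0, hw0, hmin⟩ := (isCompact_closedBall p θ).exists_isMinOn
      ⟨p, mem_closedBall_self hθ.le⟩ hcont
    refine ⟨w0, hw0, ?_⟩
    have hT : p + E w0 ∈ closedBall p θ := by
      rw [mem_closedBall, dist_eq_norm, add_sub_cancel_left]
      exact hE w0 (ball_subset_ball (by linarith) (hcb hw0))
    have h1 : ‖p + E w0 - w0‖ ≤ ‖p + E (p + E w0) - (p + E w0)‖ := hmin hT
    have h2 := hLip (p + E w0) (hcb hT) w0 (hcb hw0)
    have e1 : p + E (p + E w0) - (p + E w0) = E (p + E w0) - E w0 := by ring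
    rw [e1] at h1
    have h3 : ‖p + E w0 - w0‖ = 0 := by
      have := norm_nonneg (p + E w0 - w0)
      linarith
    exact sub_eq_zero.1 (norm_eq_zero.1 h3)
  have hw0p : ‖w0 - p‖ ≤ θ := by rwa [← dist_eq_norm, ← mem_closedBall]
  -- derivative of the integrand
  obtain ⟨z0, hz0⟩ : ∃ z0 : ℂ, z0 = p - μ / (s : ℂ) ^ 2 := ⟨_, rfl⟩
  have hQd : ∀ w ∈ ball p ρ, HasDerivAt (Q F s z0)
      (Q F s z0 w * (-((s : ℂ) ^ 2 * ((w - w0) - (E w - E w0))))) w := by
    intro w hw
    obtain ⟨h1, h2, -⟩ := hL w hw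
    have e1 : HasDerivAt (fun w => cexp (-((s : ℂ) ^ 2 * (w - z0) ^ 2 / 2)))
        (cexp (-((s : ℂ) ^ 2 * (w - z0) ^ 2 / 2)) * (-((s : ℂ) ^ 2 * (w - z0)))) w := by
      have e2 : HasDerivAt (fun w : ℂ => -((s : ℂ) ^ 2 * (w - z0) ^ 2 / 2)) (-((s : ℂ) ^ 2 * (w - z0))) w := by
        have h3 := ((((hasDerivAt_id' w).sub_const z0).pow 2).const_mul ((s : ℂ) ^ 2)).div_const 2 |>.neg
        refine HasDerivAt.congr_deriv h3 ?_
        push_cast
        ring
      exact e2.cexp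
    have e3 := e1.mul h1.hasDerivAt
    unfold Q
    refine HasDerivAt.congr_deriv e3 ?_
    have e5 : deriv F w = F w * logDeriv F w := by
      rw [logDeriv_apply]
      field_simp
    have e6 : (w - w0) - (E w - E w0) = (w - z0) - logDeriv F w / (s : ℂ) ^ 2 := by
      have e7 : w0 - E w0 = p := by rw [sub_eq_iff_eq_add]; exact hfix.symm
      have e8 : (w - w0) - (E w - E w0) = w - (w0 - E w0) - E w := by ring
      rw [e8, e7, hz0, hEdef]
      show w - p - (logDeriv F w - μ) / (s : ℂ) ^ 2 = _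
      ring
    have e9 : (s : ℂ) ^ 2 * (logDeriv F w / (s : ℂ) ^ 2) = logDeriv F w := mul_div_cancel₀ _ hsc
    rw [e6, e5]
    linear_combination (cexp (-((s : ℂ) ^ 2 * (w - z0) ^ 2 / 2)) * F w) * (-e9)
  have hQ0 : Q F s z0 w0 ≠ 0 := by
    unfold Q
    exact mul_ne_zero (Complex.exp_ne_zero _) (hL w0 (ball_subset_ball (by linarith) (hcb hw0))).2.1
  have hball : ∀ y : ℝ, |y| ≤ ρ / 5 → w0 + (y : ℂ) ∈ ball p (ρ / 2) := by
    intro y hy
    rw [mem_ball, dist_eq_norm]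
    have e1 : w0 + (y : ℂ) - p = (w0 - p) + (y : ℂ) := by ring
    rw [e1]
    refine (norm_add_le _ _).trans_lt ?_
    rw [Complex.norm_real, Real.norm_eq_abs]
    linarith
  -- the main estimate
  have hmain : ∀ y : ℝ, |y| ≤ ρ / 5 →
      ‖Q F s z0 (w0 + y) - Q F s z0 w0 * Real.exp (-(s ^ 2 * y ^ 2 / 2))‖ ≤
        ‖Q F s z0 w0‖ * Real.exp (-(s ^ 2 * y ^ 2 / 2)) * (Real.exp (s ^ 2 * (1 / 25000) * y ^ 2) - 1) := by
    have key : ∀ σ : ℝ, (σ = 1 ∨ σ = -1) → ∀ y : ℝ, 0 ≤ y → y ≤ ρ / 5 →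
        ‖Q F s z0 (w0 + ((σ * y : ℝ) : ℂ)) - Q F s z0 w0 * Real.exp (-(s ^ 2 * y ^ 2 / 2))‖ ≤
        ‖Q F s z0 w0‖ * Real.exp (-(s ^ 2 * y ^ 2 / 2)) * (Real.exp (s ^ 2 * (1 / 25000) * y ^ 2) - 1) := by
      intro σ hσ
      have hσ2 : (σ : ℂ) * σ = 1 := by
        rcases hσ with h | h <;> rw [h] <;> norm_num
      have hσa : |σ| = 1 := by
        rcases hσ with h | h <;> rw [h] <;> norm_num
      have h := side (c := 1 / 25000) (s := s) (a := ρ / 5) (by norm_num) hs0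
        (fun y : ℝ => Q F s z0 (w0 + ((σ * y : ℝ) : ℂ)))
        (fun y : ℝ => (σ : ℂ) * (E (w0 + ((σ * y : ℝ) : ℂ)) - E w0)) ?_ ?_ ?_
      · intro y h1 h2
        have h3 := h y h1 h2
        simp only [mul_zero, Complex.ofReal_zero, add_zero] at h3
        exact h3
      · intro y h1 h2
        have hy : |σ * y| ≤ ρ / 5 := by rw [abs_mul, hσa, one_mul, abs_of_nonneg h1]; exact h2
        have h3 := hQd (w0 + ((σ * y : ℝ) : ℂ)) (ball_subset_ball (by linarith) (hball _ hy))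
        have h4 : HasDerivAt (fun y : ℝ => w0 + ((σ * y : ℝ) : ℂ)) (σ : ℂ) y := by
          have h5 : HasDerivAt (fun y : ℝ => σ * y) σ y := by
            simpa using (hasDerivAt_id y).const_mul σ
          exact h5.ofReal_comp.const_add w0
        have h6 := h3.comp y h4
        refine HasDerivAt.congr_deriv h6 ?_
        symm
        have e1 : w0 + ((σ * y : ℝ) : ℂ) - w0 = (σ : ℂ) * y := by push_cast; ring
        rw [e1]
        have e2 : (y : ℂ) = (σ : ℂ) * σ * y := by rw [hσ2, one_mul]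
        calc Q F s z0 (w0 + ((σ * y : ℝ) : ℂ)) *
            (-((s : ℂ) ^ 2 * ((y : ℂ) - (σ : ℂ) * (E (w0 + ((σ * y : ℝ) : ℂ)) - E w0)))) =
            Q F s z0 (w0 + ((σ * y : ℝ) : ℂ)) *
            (-((s : ℂ) ^ 2 * ((σ : ℂ) * σ * y - (σ : ℂ) * (E (w0 + ((σ * y : ℝ) : ℂ)) - E w0)))) := by
              rw [← e2]
          _ = _ := by ring
      · intro y h1 h2
        have hy : |σ * y| ≤ ρ / 5 := by rw [abs_mul, hσa, one_mul, abs_of_nonneg h1]; exact h2
        rw [norm_mul, Complex.norm_real, Real.norm_eq_abs, hσa, one_mul]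
        have h3 := hLip _ (hball _ hy) w0 (hcb hw0)
        refine h3.trans (le_of_eq ?_)
        have e1 : w0 + ((σ * y : ℝ) : ℂ) - w0 = ((σ * y : ℝ) : ℂ) := by ring
        rw [e1, Complex.norm_real, Real.norm_eq_abs, abs_mul, hσa, one_mul, abs_of_nonneg h1]
      · simp only [mul_zero, Complex.ofReal_zero, add_zero]
        exact hQ0
    intro y hy
    rcases le_total 0 y with h | h
    · have h1 := key 1 (Or.inl rfl) y h (by rwa [abs_of_nonneg h] at hy)
      rw [one_mul] at h1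
      exact h1
    · have h1 := key (-1) (Or.inr rfl) (-y) (by linarith) (by rwa [abs_of_nonpos h] at hy)
      have e1 : (-1 : ℝ) * -y = y := by ring
      rw [e1] at h1
      have e2 : (-y) ^ 2 = y ^ 2 := by ring
      rw [e2] at h1
      exact h1
  rw [← hz0]
  refine ⟨w0, hw0p, ?_, ?_⟩
  · intro y hy
    have h1 := hmain y hy
    have h2 : ‖Q F s z0 (w0 + y)‖ ≤ ‖Q F s z0 w0‖ * Real.exp (-(s ^ 2 * y ^ 2 / 2)) *
        Real.exp (s ^ 2 * (1 / 25000) * y ^ 2) := by
      have h3 := norm_le_norm_add_norm_sub' (Q F s z0 (w0 + y))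
        (Q F s z0 w0 * Real.exp (-(s ^ 2 * y ^ 2 / 2)))
      have h4 : ‖Q F s z0 w0 * (Real.exp (-(s ^ 2 * y ^ 2 / 2)) : ℂ)‖ =
          ‖Q F s z0 w0‖ * Real.exp (-(s ^ 2 * y ^ 2 / 2)) := by
        rw [norm_mul, Complex.norm_real, Real.norm_eq_abs, abs_of_pos (Real.exp_pos _)]
      rw [h4] at h3
      linarith
    refine h2.trans ?_
    rw [mul_assoc, ← Real.exp_add, mul_comm]
    apply mul_le_mul_of_nonneg_right _ (norm_nonneg _)
    apply Real.exp_le_exp.2
    have : 0 ≤ s ^ 2 * y ^ 2 := by positivity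
    nlinarith
  · -- the integral
    have ha0 : 0 < ρ / 5 := by linarith
    have hsa : 1 / s ≤ ρ / 5 := by
      rw [div_le_iff₀ hρ] at hsρ
      rw [div_le_iff₀ hs0]
      linarith
    obtain ⟨M, hM⟩ : ∃ M : ℝ, M = ‖Q F s z0 w0‖ := ⟨_, rfl⟩
    have hM0 : 0 < M := by rw [hM]; exact norm_pos_iff.2 hQ0
    have hQc : ContinuousOn (fun y : ℝ => Q F s z0 (w0 + y)) (uIcc (-(ρ / 5)) (ρ / 5)) := by
      intro y hy
      rw [uIcc_of_le (by linarith)] at hy
      have h1 := (hQd _ (ball_subset_ball (by linarith) (hball y (abs_le.2 hy)))).continuousAt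
      have h2 : ContinuousAt (fun y : ℝ => w0 + (y : ℂ)) y := by fun_prop
      exact (h1.comp (f := fun y : ℝ => w0 + (y : ℂ)) h2).continuousWithinAt
    have hI1 : IntervalIntegrable (fun y : ℝ => Q F s z0 (w0 + y)) volume (-(ρ / 5)) (ρ / 5) :=
      hQc.intervalIntegrable
    have hGc : Continuous fun y : ℝ => Q F s z0 w0 * (Real.exp (-(s ^ 2 * y ^ 2 / 2)) : ℂ) := by
      fun_prop
    have hI2 := hGc.intervalIntegrable (μ := volume) (-(ρ / 5)) (ρ / 5)
    -- the error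
    have hint8 : Integrable fun y : ℝ => Real.exp (-(s ^ 2 / 8) * y ^ 2) :=
      integrable_exp_neg_mul_sq (by positivity)
    have herr : ‖∫ y in (-(ρ / 5))..(ρ / 5), (Q F s z0 (w0 + y) -
        Q F s z0 w0 * (Real.exp (-(s ^ 2 * y ^ 2 / 2)) : ℂ))‖ ≤ M * (1 / 100 / s) := by
      have h1 : ∀ y ∈ Set.uIoc (-(ρ / 5)) (ρ / 5), ‖Q F s z0 (w0 + y) -
          Q F s z0 w0 * (Real.exp (-(s ^ 2 * y ^ 2 / 2)) : ℂ)‖ ≤
          M * (1 / 3000) * Real.exp (-(s ^ 2 / 8) * y ^ 2) := by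
        intro y hy
        rw [uIoc_of_le (by linarith)] at hy
        have h2 := hmain y (abs_le.2 ⟨by linarith [hy.1], hy.2⟩)
        rw [← hM] at h2
        refine h2.trans ?_
        obtain ⟨q, hq⟩ : ∃ q : ℝ, q = s ^ 2 * y ^ 2 := ⟨_, rfl⟩
        have hq0 : 0 ≤ q := by rw [hq]; positivity
        have e1 : s ^ 2 * (1 / 25000) * y ^ 2 = q / 25000 := by rw [hq]; ring
        have e2 : -(s ^ 2 / 8) * y ^ 2 = -(q / 8) := by rw [hq]; ring
        rw [e1, e2, ← hq]
        have h3 : Real.exp (q / 25000) - 1 ≤ q / 25000 * Real.exp (q / 25000) := by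
          have h4 := Real.add_one_le_exp (-(q / 25000))
          have h5 : Real.exp (-(q / 25000)) * Real.exp (q / 25000) = 1 := by
            rw [← Real.exp_add]; simp
          have h6 := Real.exp_pos (q / 25000)
          nlinarith
        have h7 : q / 8 ≤ Real.exp (q / 8) := by
          have := Real.add_one_le_exp (q / 8)
          linarith
        have h8 : Real.exp (-(q / 2)) * (q / 25000 * Real.exp (q / 25000)) ≤
            1 / 3000 * Real.exp (-(q / 8)) := by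
          have h9 : Real.exp (-(q / 2)) * (q / 25000 * Real.exp (q / 25000)) ≤
              Real.exp (-(q / 2)) * (8 / 25000 * Real.exp (q / 8) * Real.exp (q / 8)) := by
            have h10 : Real.exp (q / 25000) ≤ Real.exp (q / 8) := Real.exp_le_exp.2 (by linarith)
            have h11 : q / 25000 ≤ 8 / 25000 * Real.exp (q / 8) := by linarith
            gcongr
          refine h9.trans ?_
          have e3 : Real.exp (-(q / 2)) * (8 / 25000 * Real.exp (q / 8) * Real.exp (q / 8)) =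
              8 / 25000 * Real.exp (-(q / 2) + q / 8 + q / 8) := by
            rw [Real.exp_add, Real.exp_add]; ring
          rw [e3]
          have e4 : -(q / 2) + q / 8 + q / 8 ≤ -(q / 8) := by linarith
          have := Real.exp_le_exp.2 e4
          have := Real.exp_pos (-(q / 8))
          nlinarith
        calc M * Real.exp (-(q / 2)) * (Real.exp (q / 25000) - 1) ≤
            M * Real.exp (-(q / 2)) * (q / 25000 * Real.exp (q / 25000)) := by gcongr
          _ = M * (Real.exp (-(q / 2)) * (q / 25000 * Real.exp (q / 25000))) := by ring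
          _ ≤ M * (1 / 3000 * Real.exp (-(q / 8))) := by gcongr
          _ = _ := by ring
      have h2 := intervalIntegral.norm_integral_le_of_norm_le (a := -(ρ / 5)) (b := ρ / 5)
        (μ := volume) (f := fun y : ℝ => Q F s z0 (w0 + y) -
          Q F s z0 w0 * (Real.exp (-(s ^ 2 * y ^ 2 / 2)) : ℂ))
        (g := fun y => M * (1 / 3000) * Real.exp (-(s ^ 2 / 8) * y ^ 2)) (by linarith)
        (Eventually.of_forall fun y hy => h1 y (by rw [uIoc_of_le (by linarith)]; exact hy))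
        ((hint8.const_mul _).intervalIntegrable)
      refine h2.trans ?_
      rw [intervalIntegral.integral_of_le (by linarith)]
      have h3 : ∫ y in Ioc (-(ρ / 5)) (ρ / 5), M * (1 / 3000) * Real.exp (-(s ^ 2 / 8) * y ^ 2) ≤
          ∫ y : ℝ, M * (1 / 3000) * Real.exp (-(s ^ 2 / 8) * y ^ 2) := by
        refine setIntegral_le_integral (hint8.const_mul _) (Eventually.of_forall fun y => ?_)
        positivity
      refine h3.trans ?_
      rw [integral_const_mul, integral_gaussian]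
      have h4 : Real.sqrt (Real.pi / (s ^ 2 / 8)) ≤ 6 / s := by
        rw [Real.sqrt_le_left (by positivity)]
        have e5 : (6 / s) ^ 2 = 36 / s ^ 2 := by rw [div_pow]; norm_num
        rw [e5, div_div_eq_mul_div, div_le_div_iff_of_pos_right (by positivity)]
        have := Real.pi_lt_d2
        linarith
      calc M * (1 / 3000) * Real.sqrt (Real.pi / (s ^ 2 / 8)) ≤ M * (1 / 3000) * (6 / s) := by gcongr
        _ = M * (1 / 500 / s) := by ring
        _ ≤ _ := by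
          have : 1 / 500 / s ≤ 1 / 100 / s := by gcongr; norm_num
          exact mul_le_mul_of_nonneg_left this hM0.le
    -- the main term
    have hmt : M * (51 / 100 / s) ≤ ‖∫ y in (-(ρ / 5))..(ρ / 5),
        Q F s z0 w0 * (Real.exp (-(s ^ 2 * y ^ 2 / 2)) : ℂ)‖ := by
      rw [intervalIntegral.integral_const_mul, norm_mul, ← hM]
      have e1 : ∫ y in (-(ρ / 5))..(ρ / 5), (Real.exp (-(s ^ 2 * y ^ 2 / 2)) : ℂ) =
          ((∫ y in (-(ρ / 5))..(ρ / 5), Real.exp (-(s ^ 2 * y ^ 2 / 2)) : ℝ) : ℂ) :=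
        intervalIntegral.integral_ofReal
      rw [e1, Complex.norm_real]
      apply mul_le_mul_of_nonneg_left _ hM0.le
      refine le_trans ?_ (le_abs_self _)
      have hc1 : Continuous fun y : ℝ => Real.exp (-(s ^ 2 * y ^ 2 / 2)) := by fun_prop
      have h1 : ∫ y in (-(1 / s))..(1 / s), Real.exp (-(s ^ 2 * y ^ 2 / 2)) ≤
          ∫ y in (-(ρ / 5))..(ρ / 5), Real.exp (-(s ^ 2 * y ^ 2 / 2)) := by
        apply intervalIntegral.integral_mono_interval (by linarith) (by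
          have : 0 < 1 / s := by positivity
          linarith) hsa
        · exact Eventually.of_forall fun y => (Real.exp_pos _).le
        · exact hc1.intervalIntegrable _ _
      refine le_trans ?_ h1
      have h2 : ∫ _y in (-(1 / s))..(1 / s), (51 / 200 : ℝ) ≤
          ∫ y in (-(1 / s))..(1 / s), Real.exp (-(s ^ 2 * y ^ 2 / 2)) := by
        apply intervalIntegral.integral_mono_on (by
          have : 0 < 1 / s := by positivity
          linarith) (continuous_const.intervalIntegrable _ _) (hc1.intervalIntegrable _ _)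
        intro y hy
        have h3 : s ^ 2 * y ^ 2 ≤ 1 := by
          have h4 : |y| ≤ 1 / s := abs_le.2 hy
          have h5 : |s * y| ≤ 1 := by
            rw [abs_mul, abs_of_pos hs0]
            calc s * |y| ≤ s * (1 / s) := by gcongr
              _ = 1 := by field_simp
          have h6 : (s * y) ^ 2 ≤ 1 := by rw [← sq_abs]; nlinarith [abs_nonneg (s * y)]
          nlinarith
        have h7 := Real.add_one_le_exp (-(s ^ 2 * y ^ 2 / 2))
        linarith
      refine le_trans (le_of_eq ?_) h2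
      rw [intervalIntegral.integral_const, smul_eq_mul]
      ring
    have hsplit : ∫ y in (-(ρ / 5))..(ρ / 5), Q F s z0 (w0 + y) =
        (∫ y in (-(ρ / 5))..(ρ / 5), (Q F s z0 (w0 + y) -
          Q F s z0 w0 * (Real.exp (-(s ^ 2 * y ^ 2 / 2)) : ℂ))) +
        ∫ y in (-(ρ / 5))..(ρ / 5), Q F s z0 w0 * (Real.exp (-(s ^ 2 * y ^ 2 / 2)) : ℂ) := by
      rw [← intervalIntegral.integral_add (hI1.sub hI2) hI2]
      refine intervalIntegral.integral_congr fun y _ => ?_
      simp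
    rw [hsplit, ← hM]
    have h1 := norm_sub_norm_le (∫ y in (-(ρ / 5))..(ρ / 5), Q F s z0 w0 * (Real.exp (-(s ^ 2 * y ^ 2 / 2)) : ℂ))
      (-(∫ y in (-(ρ / 5))..(ρ / 5), (Q F s z0 (w0 + y) -
          Q F s z0 w0 * (Real.exp (-(s ^ 2 * y ^ 2 / 2)) : ℂ))))
    rw [norm_neg, sub_neg_eq_add, add_comm (∫ y in (-(ρ / 5))..(ρ / 5), Q F s z0 w0 * _)] at h1
    refine le_trans ?_ h1
    have e9 : 1 / 2 / s * M = M * (51 / 100 / s) - M * (1 / 100 / s) := by ring
    rw [e9]
    linarith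

end Pool.Agent.V7H51.HF
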