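import Pool.Agent.V7H51.HF.All
import Pool.Agent.W169.HF.Aut1

/-!
# The unconditional data at height `y` from sharp analytic data
-/

set_option autoImplicit false

open Complex Filter Topology Set Metric
open scoped ComplexConjugate

namespace Pool.Agent.V7H51.HF

open Pool.Agent.W169.HF H353.E H353.F

variable {C B σ : ℝ} {Sg : ℝ → ℝ} {Λ γ D : ℂ → ℂ}

/-- comparison with the right half plane -/
lemma to_right (S : Sharp C B σ Sg Λ γ D) (z : ℂ) :
    ∃ v : ℂ, σ ≤ v.re ∧ ‖v‖ ≤ ‖z‖ + 1 + σ ∧ ‖Λ z‖ ≤ B * ‖γ v‖ := by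
  have hB := S.hB
  have hσ := S.hσ
  have key : ∀ w : ℂ, 1 / 2 ≤ w.re → ∃ v : ℂ, σ ≤ v.re ∧ ‖v‖ ≤ ‖w‖ + σ ∧ ‖Λ w‖ ≤ B * ‖γ v‖ := by
    intro w hw
    rcases le_total σ w.re with h | h
    · exact ⟨w, h, by linarith, S.hi w h⟩
    · refine ⟨σ + w.im * I, by simp, ?_, S.strip w hw h⟩
      refine (norm_add_le _ _).trans ?_
      rw [Complex.norm_real, Real.norm_eq_abs, abs_of_nonneg (by linarith), norm_mul, Complex.norm_I,
        mul_one, Complex.norm_real, Real.norm_eq_abs]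
      have := Complex.abs_im_le_norm w
      linarith
  rcases le_total (1 / 2) z.re with h | h
  · obtain ⟨v, h1, h2, h3⟩ := key z h
    exact ⟨v, h1, by linarith, h3⟩
  · obtain ⟨ε, hε, hfe⟩ := S.fe
    obtain ⟨v, h1, h2, h3⟩ := key (1 - conj z) (by simp; linarith)
    refine ⟨v, h1, ?_, ?_⟩
    · have h4 : ‖1 - conj z‖ ≤ 1 + ‖z‖ := by
        refine (norm_sub_le _ _).trans ?_
        rw [norm_one, Complex.norm_conj]
      linarith
    · have h4 := hfe z
      rw [h4, norm_mul, hε, one_mul, Complex.norm_conj]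
      exact h3

theorem slow_of_sharp (S : Sharp C B σ Sg Λ γ D) {a k : ℝ} (ha : 0 ≤ a) (hk : 0 ≤ k)
    (hD : ∀ s : ℂ, 1 ≤ s.re → ‖D s‖ ≤ a + k * Real.log (‖s‖ + 4)) : Slow Λ := by
  refine ⟨S.diff, fun δ hδ => ?_⟩
  have hσ := S.hσ
  have hB := S.hB
  obtain ⟨c, hc⟩ : ∃ c : ℝ, c = 6 + 3 * σ := ⟨_, rfl⟩
  have hc0 : 0 < c := by linarith
  obtain ⟨L, hL⟩ : ∃ L : ℝ, L = 4 * k / δ + 1 := ⟨_, rfl⟩
  have hL1 : 1 ≤ L := by
    have : 0 ≤ 4 * k / δ := by positivity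
    linarith
  have hkL : k / L ≤ δ / 4 := by
    rw [div_le_iff₀ (by linarith)]
    have : δ / 4 * (4 * k / δ + 1) = k + δ / 4 := by field_simp
    rw [hL, this]
    linarith
  obtain ⟨A, hA⟩ : ∃ A : ℝ, A = a + k * Real.log L := ⟨_, rfl⟩
  have hA0 : 0 ≤ A := by
    have := Real.log_nonneg hL1
    rw [hA]; positivity
  have hγσ : 0 < ‖γ σ‖ := norm_pos_iff.2 (S.gp.ne σ (by simpa using hσ))
  refine ⟨B * ‖γ σ‖ * Real.exp (δ / 2 * c ^ 2 + A ^ 2 / δ + A * c), by positivity, fun z => ?_⟩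
  obtain ⟨v, h1, h2, h3⟩ := to_right S z
  refine h3.trans ?_
  obtain ⟨X, hX⟩ : ∃ X : ℝ, X = ‖z‖ := ⟨_, rfl⟩
  have hX0 : 0 ≤ X := by rw [hX]; exact norm_nonneg _
  rw [← hX] at h2 ⊢
  have hmove := gam_move S.gp (s := (σ : ℂ)) (v := v - σ) (ℓ := 0)
    (K := a + k * Real.log (X + c)) (by simpa using hσ) (by simp; linarith) (fun t ht => by
      have h4 : 1 ≤ ((σ : ℂ) + t * (v - σ)).re := by
        rw [add_re, Complex.re_ofReal_mul, sub_re, Complex.ofReal_re]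
        nlinarith [ht.1, ht.2]
      have h5 := hD _ h4
      have e1 : (((0 : ℝ)) : ℂ) = 0 := by simp
      rw [e1, sub_zero]
      refine h5.trans ?_
      have h6 : ‖(σ : ℂ) + t * (v - σ)‖ ≤ σ + (X + 1 + 2 * σ) := by
        refine (norm_add_le _ _).trans ?_
        rw [Complex.norm_real, Real.norm_eq_abs, abs_of_nonneg (by linarith), norm_mul,
          Complex.norm_real, Real.norm_eq_abs, abs_of_nonneg ht.1]
        have h7 : ‖v - σ‖ ≤ X + 1 + 2 * σ := by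
          refine (norm_sub_le _ _).trans ?_
          rw [Complex.norm_real, Real.norm_eq_abs, abs_of_nonneg (by linarith)]
          linarith
        have h8 : t * ‖v - σ‖ ≤ 1 * ‖v - σ‖ := mul_le_mul_of_nonneg_right ht.2 (norm_nonneg _)
        linarith
      have h9 : Real.log (‖(σ : ℂ) + t * (v - σ)‖ + 4) ≤ Real.log (X + c) := by
        apply Real.log_le_log
        · have := norm_nonneg ((σ : ℂ) + t * (v - σ))
          linarith
        · rw [hc]; linarith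
      have := mul_le_mul_of_nonneg_left h9 hk
      linarith)
  have e2 : (σ : ℂ) + (v - σ) = v := by ring
  rw [e2, zero_mul, zero_add] at hmove
  have hv : ‖v - σ‖ ≤ X + c := by
    refine (norm_sub_le _ _).trans ?_
    rw [Complex.norm_real, Real.norm_eq_abs, abs_of_nonneg (by linarith)]
    rw [hc]; linarith
  have hlog : Real.log (X + c) ≤ (X + c) / L + Real.log L := by
    have h4 := Real.log_le_sub_one_of_pos (show 0 < (X + c) / L by positivity)
    rw [Real.log_div (by linarith) (by linarith)] at h4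
    linarith
  have hK : (a + k * Real.log (X + c)) * ‖v - σ‖ ≤
      δ / 2 * c ^ 2 + A ^ 2 / δ + A * c + δ * X ^ 2 := by
    have h5 : a + k * Real.log (X + c) ≤ A + k / L * (X + c) := by
      have := mul_le_mul_of_nonneg_left hlog hk
      rw [hA]
      calc a + k * Real.log (X + c) ≤ a + k * ((X + c) / L + Real.log L) := by linarith
        _ = _ := by ring
    have h6 : a + k * Real.log (X + c) ≤ A + δ / 4 * (X + c) := by
      have := mul_le_mul_of_nonneg_right hkL (show 0 ≤ X + c by linarith)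
      linarith
    have h7 : 0 ≤ A + δ / 4 * (X + c) := by positivity
    calc (a + k * Real.log (X + c)) * ‖v - σ‖ ≤ (A + δ / 4 * (X + c)) * ‖v - σ‖ :=
          mul_le_mul_of_nonneg_right h6 (norm_nonneg _)
      _ ≤ (A + δ / 4 * (X + c)) * (X + c) := mul_le_mul_of_nonneg_left hv h7
      _ ≤ _ := by
        have h8 : A * X ≤ δ / 4 * X ^ 2 + A ^ 2 / δ := by
          have h9 : 0 ≤ (δ / 2 * X - A) ^ 2 / δ := by positivity
          have h10 : (δ / 2 * X - A) ^ 2 / δ = δ / 4 * X ^ 2 - A * X + A ^ 2 / δ := by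
            field_simp
            ring
          linarith
        nlinarith [sq_nonneg (X - c)]
  calc B * ‖γ v‖ ≤ B * (‖γ σ‖ * Real.exp ((a + k * Real.log (X + c)) * ‖v - σ‖)) := by
        gcongr
    _ ≤ B * (‖γ σ‖ * Real.exp (δ / 2 * c ^ 2 + A ^ 2 / δ + A * c + δ * X ^ 2)) := by gcongr
    _ = _ := by rw [Real.exp_add _ (δ * X ^ 2)]; ring

/-- a translate of a slow function is slow -/
lemma slow_shift {f : ℂ → ℂ} (hf : Slow f) (a : ℂ) : Slow (fun u => f (a + u)) := by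
  refine ⟨hf.1.comp (by fun_prop), fun δ hδ => ?_⟩
  obtain ⟨K, hK, h⟩ := hf.2 (δ / 2) (by linarith)
  refine ⟨K * Real.exp (δ * ‖a‖ ^ 2), by positivity, fun z => (h (a + z)).trans ?_⟩
  rw [mul_assoc, ← Real.exp_add]
  apply mul_le_mul_of_nonneg_left _ hK.le
  apply Real.exp_le_exp.2
  have h1 := norm_add_le a z
  have h2 : ‖a + z‖ ^ 2 ≤ (‖a‖ + ‖z‖) ^ 2 := pow_le_pow_left₀ (norm_nonneg _) h1 2
  nlinarith [sq_nonneg (‖a‖ - ‖z‖)]

/-- the size of `γ` on horizontal moves from `3/2 + i y`, upper bound -/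
lemma gam_up (gp : GP C Sg γ D) {y : ℝ} {u : ℂ} (hu : 1 / 2 ≤ u.re) :
    ‖γ (1 / 2 + y * I + u)‖ ≤ ‖γ (3 / 2 + y * I)‖ * Real.exp (-(D (3 / 2 + y * I)).re) *
      Real.exp ((D (3 / 2 + y * I)).re * u.re + 4 * C * (1 + ‖u‖ ^ 2)) := by
  have hC := gp.C_nonneg
  have hre : ((3 / 2 : ℂ) + y * I).re = 3 / 2 := by simp
  have hun := norm_nonneg u
  have h1 : ‖u - 1‖ ≤ ‖u‖ + 1 := by
    refine (norm_sub_le _ _).trans ?_
    rw [norm_one]
  have h := gam_move gp (s := 3 / 2 + y * I) (v := u - 1) (ℓ := (D (3 / 2 + y * I)).re)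
    (K := C * (‖u‖ + 2)) (by rw [hre]; norm_num) (by rw [add_re, hre, sub_re, one_re]; linarith)
    (fun t ht => by
      have h2 : 1 ≤ ((3 / 2 : ℂ) + y * I + t * (u - 1)).re := by
        rw [add_re, hre, Complex.re_ofReal_mul, sub_re, one_re]
        nlinarith [ht.1, ht.2]
      have h3 := gp.lipD (ρ := 1) le_rfl h2 (t := 3 / 2 + y * I) (by rw [hre]; norm_num)
      rw [div_one, add_sub_cancel_left, norm_mul, Complex.norm_real, Real.norm_eq_abs,
        abs_of_nonneg ht.1] at h3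
      have h4 : ‖D (3 / 2 + y * I) - (((D (3 / 2 + y * I)).re : ℝ) : ℂ)‖ ≤ C := by
        have e1 : D (3 / 2 + y * I) - (((D (3 / 2 + y * I)).re : ℝ) : ℂ) =
            ((D (3 / 2 + y * I)).im : ℂ) * I := by
          apply Complex.ext <;> simp
        rw [e1, norm_mul, Complex.norm_I, mul_one, Complex.norm_real, Real.norm_eq_abs]
        exact gp.im _ (by rw [hre]; norm_num)
      have e2 : D (3 / 2 + y * I + t * (u - 1)) - (((D (3 / 2 + y * I)).re : ℝ) : ℂ) =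
          (D (3 / 2 + y * I + t * (u - 1)) - D (3 / 2 + y * I)) +
          (D (3 / 2 + y * I) - (((D (3 / 2 + y * I)).re : ℝ) : ℂ)) := by ring
      rw [e2]
      refine (norm_add_le _ _).trans ?_
      have h5 : t * ‖u - 1‖ ≤ ‖u‖ + 1 := by nlinarith [ht.1, ht.2, norm_nonneg (u - 1)]
      have h6 := mul_le_mul_of_nonneg_left h5 hC
      linarith)
  have e3 : (3 / 2 : ℂ) + y * I + (u - 1) = 1 / 2 + y * I + u := by ring
  rw [e3, sub_re, one_re] at h
  refine h.trans ?_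
  rw [mul_assoc ‖γ (3 / 2 + y * I)‖, ← Real.exp_add]
  apply mul_le_mul_of_nonneg_left _ (norm_nonneg _)
  apply Real.exp_le_exp.2
  have h7 : C * (‖u‖ + 2) * ‖u - 1‖ ≤ 4 * C * (1 + ‖u‖ ^ 2) := by
    have h8 : (‖u‖ + 2) * ‖u - 1‖ ≤ 4 * (1 + ‖u‖ ^ 2) := by
      have : (‖u‖ + 2) * ‖u - 1‖ ≤ (‖u‖ + 2) * (‖u‖ + 1) := by gcongr
      nlinarith [sq_nonneg (‖u‖ - 1)]
    have := mul_le_mul_of_nonneg_left h8 hC
    linarith
  linarith

/-- lower bound -/
lemma gam_lo (gp : GP C Sg γ D) {y : ℝ} {u : ℂ} (hu : 1 / 2 ≤ u.re) :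
    ‖γ (3 / 2 + y * I)‖ * Real.exp (-(D (3 / 2 + y * I)).re) *
      Real.exp ((D (3 / 2 + y * I)).re * u.re - 4 * C * (1 + ‖u‖ ^ 2)) ≤ ‖γ (1 / 2 + y * I + u)‖ := by
  have hC := gp.C_nonneg
  have hre : ((3 / 2 : ℂ) + y * I).re = 3 / 2 := by simp
  have hun := norm_nonneg u
  have hreu : ((1 / 2 : ℂ) + y * I + u).re = 1 / 2 + u.re := by simp
  have h1 : ‖1 - u‖ ≤ ‖u‖ + 1 := by
    refine (norm_sub_le _ _).trans ?_
    rw [norm_one]; linarith
  have h := gam_move gp (s := 1 / 2 + y * I + u) (v := 1 - u) (ℓ := (D (3 / 2 + y * I)).re)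
    (K := C * (‖u‖ + 2)) (by rw [hreu]; linarith) (by rw [add_re, hreu, sub_re, one_re]; linarith)
    (fun t ht => by
      have h2 : 1 ≤ ((1 / 2 : ℂ) + y * I + u + t * (1 - u)).re := by
        rw [add_re, hreu, Complex.re_ofReal_mul, sub_re, one_re]
        nlinarith [ht.1, ht.2]
      have h3 := gp.lipD (ρ := 1) le_rfl h2 (t := 3 / 2 + y * I) (by rw [hre]; norm_num)
      have e0 : (1 / 2 : ℂ) + y * I + u + t * (1 - u) - (3 / 2 + y * I) = ((t - 1 : ℝ) : ℂ) * (1 - u) := by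
        push_cast; ring
      rw [div_one, e0, norm_mul, Complex.norm_real, Real.norm_eq_abs] at h3
      have h4 : ‖D (3 / 2 + y * I) - (((D (3 / 2 + y * I)).re : ℝ) : ℂ)‖ ≤ C := by
        have e1 : D (3 / 2 + y * I) - (((D (3 / 2 + y * I)).re : ℝ) : ℂ) =
            ((D (3 / 2 + y * I)).im : ℂ) * I := by
          apply Complex.ext <;> simp
        rw [e1, norm_mul, Complex.norm_I, mul_one, Complex.norm_real, Real.norm_eq_abs]
        exact gp.im _ (by rw [hre]; norm_num)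
      have e2 : D (1 / 2 + y * I + u + t * (1 - u)) - (((D (3 / 2 + y * I)).re : ℝ) : ℂ) =
          (D (1 / 2 + y * I + u + t * (1 - u)) - D (3 / 2 + y * I)) +
          (D (3 / 2 + y * I) - (((D (3 / 2 + y * I)).re : ℝ) : ℂ)) := by ring
      rw [e2]
      refine (norm_add_le _ _).trans ?_
      have h5 : |t - 1| * ‖1 - u‖ ≤ ‖u‖ + 1 := by
        have h6 : |t - 1| ≤ 1 := abs_le.2 ⟨by linarith [ht.1], by linarith [ht.2]⟩
        have := mul_le_mul_of_nonneg_right h6 (norm_nonneg (1 - u))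
        linarith
      have h6 := mul_le_mul_of_nonneg_left h5 hC
      linarith)
  have e3 : (1 / 2 : ℂ) + y * I + u + (1 - u) = 3 / 2 + y * I := by ring
  rw [e3, sub_re, one_re] at h
  have h7 : C * (‖u‖ + 2) * ‖1 - u‖ ≤ 4 * C * (1 + ‖u‖ ^ 2) := by
    have h8 : (‖u‖ + 2) * ‖1 - u‖ ≤ 4 * (1 + ‖u‖ ^ 2) := by
      have : (‖u‖ + 2) * ‖1 - u‖ ≤ (‖u‖ + 2) * (‖u‖ + 1) := by gcongr
      nlinarith [sq_nonneg (‖u‖ - 1)]
    have := mul_le_mul_of_nonneg_left h8 hC
    linarith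
  calc ‖γ (3 / 2 + y * I)‖ * Real.exp (-(D (3 / 2 + y * I)).re) *
      Real.exp ((D (3 / 2 + y * I)).re * u.re - 4 * C * (1 + ‖u‖ ^ 2)) ≤
      (‖γ (1 / 2 + y * I + u)‖ * Real.exp ((D (3 / 2 + y * I)).re * (1 - u.re) +
        C * (‖u‖ + 2) * ‖1 - u‖)) * Real.exp (-(D (3 / 2 + y * I)).re) *
      Real.exp ((D (3 / 2 + y * I)).re * u.re - 4 * C * (1 + ‖u‖ ^ 2)) := by gcongr
    _ = ‖γ (1 / 2 + y * I + u)‖ * Real.exp ((D (3 / 2 + y * I)).re * (1 - u.re) +
        C * (‖u‖ + 2) * ‖1 - u‖ + -(D (3 / 2 + y * I)).re +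
        ((D (3 / 2 + y * I)).re * u.re - 4 * C * (1 + ‖u‖ ^ 2))) := by
      rw [Real.exp_add ((D (3 / 2 + y * I)).re * (1 - u.re) +
          C * (‖u‖ + 2) * ‖1 - u‖ + -(D (3 / 2 + y * I)).re) ((D (3 / 2 + y * I)).re * u.re -
          4 * C * (1 + ‖u‖ ^ 2)), Real.exp_add ((D (3 / 2 + y * I)).re * (1 - u.re) +
          C * (‖u‖ + 2) * ‖1 - u‖) (-(D (3 / 2 + y * I)).re)]
      ring
    _ ≤ ‖γ (1 / 2 + y * I + u)‖ * Real.exp 0 := by
      apply mul_le_mul_of_nonneg_left _ (norm_nonneg _)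
      apply Real.exp_le_exp.2
      linarith
    _ = _ := by rw [Real.exp_zero, mul_one]

/-- the normalising constant at height `y` -/
noncomputable def GG (γ D : ℂ → ℂ) (y : ℝ) : ℝ := ‖γ (3 / 2 + y * I)‖ * Real.exp (-(D (3 / 2 + y * I)).re)

theorem ud_of_sharp (S : Sharp C B σ Sg Λ γ D) (hs : Slow Λ) (hσ3 : σ ≤ 5 / 2) {y : ℝ} :
    UD (B + 20 * C) (σ - 1 / 2) (D (3 / 2 + y * I)).re (GG γ D y) (fun u => Λ (1 / 2 + y * I + u)) := by
  have hB := S.hB
  have hC := S.hC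
  have hσ := S.hσ
  obtain ⟨ℓ, hℓd⟩ : ∃ ℓ : ℝ, ℓ = (D (3 / 2 + y * I)).re := ⟨_, rfl⟩
  obtain ⟨ε, hε, hfe⟩ := S.fe
  have hBe : B ≤ Real.exp B := by
    have := Real.add_one_le_exp B
    linarith
  have hG : 0 < GG γ D y := by
    unfold GG
    have : 0 < ‖γ (3 / 2 + y * I)‖ := norm_pos_iff.2 (S.gp.ne _ (by simp; norm_num))
    positivity
  have hfe' : ∀ u : ℂ, Λ (1 / 2 + y * I + u) = ε * conj (Λ (1 / 2 + y * I + -conj u)) := fun u => by
    rw [hfe (1 / 2 + y * I + u)]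
    congr 3
    rw [map_add, map_add, map_mul, conj_ofReal, conj_I]
    have : conj (1 / 2 : ℂ) = 1 / 2 := by
      rw [map_div₀, map_one, map_ofNat]
    rw [this]
    ring
  -- upper bound to the right
  have hright : ∀ u : ℂ, σ - 1 / 2 ≤ u.re → ‖γ (1 / 2 + y * I + u)‖ ≤
      GG γ D y * Real.exp (ℓ * u.re + 4 * C * (1 + ‖u‖ ^ 2)) := fun u hu => by
    rw [hℓd]
    exact gam_up S.gp (by linarith)
  have hupr : ∀ u : ℂ, 0 ≤ u.re → ‖Λ (1 / 2 + y * I + u)‖ ≤
      GG γ D y * Real.exp (ℓ * max |u.re| (σ - 1 / 2) + (B + 20 * C) * (1 + ‖u‖ ^ 2)) := by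
    intro u hu
    rw [abs_of_nonneg hu]
    have hre : ((1 / 2 : ℂ) + y * I + u).re = 1 / 2 + u.re := by simp
    rcases le_total (σ - 1 / 2) u.re with h | h
    · have h1 := S.hi (1 / 2 + y * I + u) (by rw [hre]; linarith)
      refine h1.trans ?_
      calc B * ‖γ (1 / 2 + y * I + u)‖ ≤ Real.exp B *
            (GG γ D y * Real.exp (ℓ * u.re + 4 * C * (1 + ‖u‖ ^ 2))) := by
              have := hright u h
              gcongr
        _ = GG γ D y * Real.exp (B + (ℓ * u.re + 4 * C * (1 + ‖u‖ ^ 2))) := by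
              rw [Real.exp_add B]; ring
        _ ≤ _ := by
          apply mul_le_mul_of_nonneg_left _ hG.le
          apply Real.exp_le_exp.2
          rw [max_eq_left h]
          have : 0 ≤ ‖u‖ ^ 2 := by positivity
          nlinarith
    · have him : ((1 / 2 : ℂ) + y * I + u).im = y + u.im := by simp
      have h1 := S.strip (1 / 2 + y * I + u) (by rw [hre]; linarith) (by rw [hre]; linarith)
      rw [him] at h1
      obtain ⟨w, hw⟩ : ∃ w : ℂ, w = ((σ - 1 / 2 : ℝ) : ℂ) + u.im * I := ⟨_, rfl⟩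
      have e1 : (σ : ℂ) + ((y + u.im : ℝ) : ℂ) * I = 1 / 2 + y * I + w := by
        rw [hw]; push_cast; ring
      rw [e1] at h1
      have hwre : w.re = σ - 1 / 2 := by rw [hw]; simp
      have hwn : ‖w‖ ^ 2 ≤ 4 + ‖u‖ ^ 2 := by
        have h2 : ‖w‖ ^ 2 = (σ - 1 / 2) ^ 2 + u.im ^ 2 := by
          rw [← Complex.normSq_eq_norm_sq, Complex.normSq_apply, hwre]
          have : w.im = u.im := by rw [hw]; simp
          rw [this]; ring
        have h3 : u.im ^ 2 ≤ ‖u‖ ^ 2 := by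
          rw [← Complex.normSq_eq_norm_sq, Complex.normSq_apply]
          nlinarith [sq_nonneg u.re]
        rw [h2]
        nlinarith
      refine h1.trans ?_
      calc B * ‖γ (1 / 2 + y * I + w)‖ ≤ Real.exp B *
            (GG γ D y * Real.exp (ℓ * w.re + 4 * C * (1 + ‖w‖ ^ 2))) := by
              have := hright w (by rw [hwre])
              gcongr
        _ = GG γ D y * Real.exp (B + (ℓ * w.re + 4 * C * (1 + ‖w‖ ^ 2))) := by
              rw [Real.exp_add B]; ring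
        _ ≤ _ := by
          apply mul_le_mul_of_nonneg_left _ hG.le
          apply Real.exp_le_exp.2
          rw [max_eq_right h, hwre]
          have h4 : 0 ≤ ‖u‖ ^ 2 := by positivity
          have h5 : 4 * C * (1 + ‖w‖ ^ 2) ≤ 4 * C * (5 + ‖u‖ ^ 2) := by
            apply mul_le_mul_of_nonneg_left _ (by linarith)
            linarith
          nlinarith
  rw [← hℓd]
  refine { slow := slow_shift hs _, fe := ⟨ε, hε, hfe'⟩, hG := hG, up := fun u => ?_, lo := fun u hu => ?_ }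
  · rcases le_total 0 u.re with h | h
    · exact hupr u h
    · have h1 := hupr (-conj u) (by simp; linarith)
      have e1 : (-conj u).re = -u.re := by simp
      have e2 : ‖-conj u‖ = ‖u‖ := by rw [norm_neg, Complex.norm_conj]
      rw [e1, e2, abs_neg] at h1
      show ‖Λ (1 / 2 + y * I + u)‖ ≤ _
      rw [hfe' u, norm_mul, hε, one_mul, Complex.norm_conj]
      exact h1
  · have hre : ((1 / 2 : ℂ) + y * I + u).re = 1 / 2 + u.re := by simp
    have h1 := S.lo (1 / 2 + y * I + u) (by rw [hre]; linarith)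
    have h2 : GG γ D y * Real.exp (ℓ * u.re - 4 * C * (1 + ‖u‖ ^ 2)) ≤ ‖γ (1 / 2 + y * I + u)‖ := by
      rw [hℓd]
      exact gam_lo S.gp (y := y) (u := u) (by linarith)
    have h3 : GG γ D y * Real.exp (ℓ * u.re - 4 * C * (1 + ‖u‖ ^ 2)) ≤
        Real.exp B * ‖Λ (1 / 2 + y * I + u)‖ :=
      h2.trans (h1.trans (mul_le_mul_of_nonneg_right hBe (norm_nonneg _)))
    have h4 : GG γ D y * Real.exp (ℓ * u.re - (B + 20 * C) * (1 + ‖u‖ ^ 2)) ≤
        Real.exp (-B) * (GG γ D y * Real.exp (ℓ * u.re - 4 * C * (1 + ‖u‖ ^ 2))) := by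
      have e1 : Real.exp (-B) * (GG γ D y * Real.exp (ℓ * u.re - 4 * C * (1 + ‖u‖ ^ 2))) =
          GG γ D y * Real.exp (-B + (ℓ * u.re - 4 * C * (1 + ‖u‖ ^ 2))) := by
        rw [Real.exp_add (-B)]; ring
      rw [e1]
      apply mul_le_mul_of_nonneg_left _ hG.le
      apply Real.exp_le_exp.2
      have : 0 ≤ ‖u‖ ^ 2 := by positivity
      nlinarith
    refine h4.trans ?_
    calc Real.exp (-B) * (GG γ D y * Real.exp (ℓ * u.re - 4 * C * (1 + ‖u‖ ^ 2))) ≤
        Real.exp (-B) * (Real.exp B * ‖Λ (1 / 2 + y * I + u)‖) := by gcongr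
      _ = _ := by rw [← mul_assoc, ← Real.exp_add]; simp

end Pool.Agent.V7H51.HF
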