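import Pool.Agent.V7H51.HF.Zeta

/-!
# The data of `xi` at the height `y`, and zeta
-/

set_option autoImplicit false

open Complex Filter Topology Set Metric MeasureTheory
open scoped ComplexConjugate

namespace Pool.Agent.V7H51.HF

open Pool.Agent.W169.HF H353.E H353.F

/-- the size parameter at height `y` -/
noncomputable def ell (y : ℝ) : ℝ := (dz (3 / 2 + y * I)).re

/-- the constant at height `y` -/
noncomputable def Gy (y : ℝ) : ℝ := GG gz dz y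

/-- `xi` around the height `y` -/
noncomputable def fy (y : ℝ) (u : ℂ) : ℂ := xi (1 / 2 + y * I + u)

theorem ud_xi : ∃ K : ℝ, 1 ≤ K ∧ ∀ y : ℝ, UD K 1 (ell y) (Gy y) (fy y) := by
  obtain ⟨B, hB, S⟩ := xi_sharp
  refine ⟨B + 20 * 6, by linarith, fun y => ?_⟩
  have h := ud_of_sharp S xi_slow (by norm_num) (y := y)
  have e : (3 / 2 - 1 / 2 : ℝ) = 1 := by norm_num
  rw [e] at h
  exact h

lemma ell_le {y : ℝ} (hy : 4 ≤ y) : ell y ≤ 1 / 2 * Real.log y + 7 ∧ 1 / 2 * Real.log y - 7 ≤ ell y := by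
  have h1 := gaD_re_le (m := 1) (N := 1) le_rfl m4_le y
  have h2 := gaD_re_ge (m := 1) (N := 1) le_rfl m4_le y
  have e : ((1 : ℕ) : ℝ) = 1 := by norm_num
  rw [e] at h1 h2
  have e2 : (1 : ℝ) * ∏ j, (1 + ‖(y : ℂ) * I - m4 j‖) = 1 + ‖(y : ℂ) * I + 4‖ := by
    simp [m4]
  rw [e2] at h1 h2
  have h3 : ‖(y : ℂ) * I + 4‖ ≤ y + 4 := by
    refine (norm_add_le _ _).trans ?_
    rw [norm_mul, Complex.norm_I, mul_one, Complex.norm_real, Real.norm_eq_abs, abs_of_pos (by linarith)]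
    simp
  have h4 : y ≤ ‖(y : ℂ) * I + 4‖ := by
    have := Complex.abs_im_le_norm ((y : ℂ) * I + 4)
    simp at this
    exact (le_abs_self y).trans this
  have h5 : Real.log (1 + ‖(y : ℂ) * I + 4‖) ≤ Real.log y + 2 := by
    have h6 : Real.log (1 + ‖(y : ℂ) * I + 4‖) ≤ Real.log (3 * y) :=
      Real.log_le_log (by linarith) (by linarith)
    rw [Real.log_mul (by norm_num) (by linarith)] at h6
    have := Real.log_le_sub_one_of_pos (show (0:ℝ) < 3 by norm_num)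
    linarith
  have h7 : Real.log y ≤ Real.log (1 + ‖(y : ℂ) * I + 4‖) := Real.log_le_log (by linarith) (by linarith)
  change ell y ≤ _ at h1
  change _ ≤ ell y at h2
  constructor <;> linarith

lemma Gy_pos (y : ℝ) : 0 < Gy y := by
  obtain ⟨K, _, h⟩ := ud_xi
  exact (h y).hG

/-- the gamma factor with no shift -/
noncomputable def m0 : Fin 1 → ℂ := fun _ => 0

lemma m0_le : ∀ j, (m0 j).re ≤ 1 / 2 := fun j => by simp [m0]

lemma g0_GP : GP 6 (fun K => 4 * Real.exp (2 * |K| + 10)) (gaf 1 m0) (gaD 1 m0) := by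
  have h := gaf_GP (m := 1) le_rfl (N := 1) le_rfl m0_le
  have e : (6 * ((1 : ℕ) : ℝ)) = 6 := by norm_num
  rw [e] at h
  exact h

lemma gz_g0 (s : ℂ) : gz s = gaf 1 m0 (s + 4) := by
  simp [gz, gaf, m0, m4]

lemma dz_d0 (s : ℂ) : dz s = gaD 1 m0 (s + 4) := by
  simp [dz, gaD, m0, m4]

/-- comparison of the gamma factor with its value at `3/2 + i y` -/
theorem gz_cmp (y : ℝ) (u : ℂ) (hu : -1 ≤ u.re) :
    ‖gz (1 / 2 + y * I + u)‖ ≤ Gy y * Real.exp (ell y * u.re + 3000 * (1 + ‖u‖ ^ 2)) ∧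
    Gy y * Real.exp (ell y * u.re - 3000 * (1 + ‖u‖ ^ 2)) ≤ ‖gz (1 / 2 + y * I + u)‖ := by
  have gp := g0_GP
  obtain ⟨ℓ0, hℓ0⟩ : ∃ ℓ0 : ℝ, ℓ0 = (gaD 1 m0 (3 / 2 + y * I)).re := ⟨_, rfl⟩
  obtain ⟨P, hP⟩ : ∃ P : ℝ, P = ‖gaf 1 m0 (3 / 2 + y * I)‖ * Real.exp (-ℓ0) := ⟨_, rfl⟩
  have hP0 : 0 < P := by
    rw [hP]
    have := norm_pos_iff.2 (gp.ne (3 / 2 + y * I) (by simp; norm_num))
    positivity
  have hup : ∀ v : ℂ, 1 / 2 ≤ v.re → ‖gaf 1 m0 (1 / 2 + y * I + v)‖ ≤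
      P * Real.exp (ℓ0 * v.re + 24 * (1 + ‖v‖ ^ 2)) := fun v hv => by
    have h := gam_up gp (y := y) hv
    rw [← hℓ0, ← hP] at h
    have e : (4 * 6 : ℝ) = 24 := by norm_num
    rw [e] at h
    exact h
  have hlo : ∀ v : ℂ, 1 / 2 ≤ v.re → P * Real.exp (ℓ0 * v.re - 24 * (1 + ‖v‖ ^ 2)) ≤
      ‖gaf 1 m0 (1 / 2 + y * I + v)‖ := fun v hv => by
    have h := gam_lo gp (y := y) hv
    rw [← hℓ0, ← hP] at h
    have e : (4 * 6 : ℝ) = 24 := by norm_num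
    rw [e] at h
    exact h
  have hdd : |ell y - ℓ0| ≤ 24 := by
    have h := gp.lipD (ρ := 1) le_rfl (s := 3 / 2 + y * I + 4) (t := 3 / 2 + y * I) (by simp; norm_num)
      (by simp; norm_num)
    rw [← dz_d0, add_sub_cancel_left] at h
    have h2 := (Complex.abs_re_le_norm _).trans h
    rw [sub_re] at h2
    have e4 : ‖(4 : ℂ)‖ = 4 := by simp
    rw [e4, div_one] at h2
    rw [hℓ0]
    have e5 : (6 * 4 : ℝ) = 24 := by norm_num
    rw [e5] at h2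
    exact h2
  have hd := abs_le.1 hdd
  -- the centre
  have hc1 := hup 5 (by norm_num)
  have hc2 := hlo 5 (by norm_num)
  have e5 : (1 / 2 : ℂ) + y * I + 5 = 3 / 2 + y * I + 4 := by ring
  have e5n : ‖(5 : ℂ)‖ = 5 := by simp
  have e5r : (5 : ℂ).re = 5 := by simp
  rw [e5, ← gz_g0, e5n, e5r] at hc1 hc2
  have hGy : Gy y = ‖gz (3 / 2 + y * I)‖ * Real.exp (-ell y) := rfl
  have hG1 : Gy y ≤ P * Real.exp (ℓ0 * 5 + 624 - ell y) := by
    rw [hGy, sub_eq_add_neg, Real.exp_add (ℓ0 * 5 + 624), ← mul_assoc]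
    apply mul_le_mul_of_nonneg_right _ (Real.exp_pos _).le
    refine hc1.trans (le_of_eq ?_)
    norm_num
  have hG2 : P * Real.exp (ℓ0 * 5 - 624 - ell y) ≤ Gy y := by
    rw [hGy, sub_eq_add_neg (ℓ0 * 5 - 624), Real.exp_add (ℓ0 * 5 - 624), ← mul_assoc]
    apply mul_le_mul_of_nonneg_right _ (Real.exp_pos _).le
    refine le_trans (le_of_eq ?_) hc2
    norm_num
  have e6 : (1 / 2 : ℂ) + y * I + (u + 4) = 1 / 2 + y * I + u + 4 := by ring
  have hr4 : (u + 4).re = u.re + 4 := by simp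
  have h1 := hup (u + 4) (by rw [hr4]; linarith)
  have h2 := hlo (u + 4) (by rw [hr4]; linarith)
  rw [e6, ← gz_g0, hr4] at h1 h2
  have hn4 : ‖u + 4‖ ^ 2 ≤ 2 * ‖u‖ ^ 2 + 32 := by
    have h3 := norm_add_le u 4
    have e4 : ‖(4 : ℂ)‖ = 4 := by simp
    rw [e4] at h3
    have h4 := pow_le_pow_left₀ (norm_nonneg _) h3 2
    nlinarith [sq_nonneg (‖u‖ - 4)]
  have hur : |u.re - 1| ≤ ‖u‖ + 1 := by
    have h3 := Complex.abs_re_le_norm (u - 1)
    rw [sub_re, one_re] at h3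
    have h4 := norm_sub_le u 1
    rw [norm_one] at h4
    linarith
  have hprod : |(ell y - ℓ0) * (u.re - 1)| ≤ 24 * (‖u‖ + 1) := by
    rw [abs_mul]
    exact mul_le_mul hdd hur (abs_nonneg _) (by norm_num)
  have hpr := abs_le.1 hprod
  have hn0 := norm_nonneg u
  constructor
  · have hPle : P ≤ Gy y * Real.exp (-(ℓ0 * 5 - 624 - ell y)) := by
      rw [Real.exp_neg, ← div_eq_mul_inv, le_div_iff₀ (Real.exp_pos _)]
      exact hG2
    calc ‖gz (1 / 2 + y * I + u)‖ ≤ P * Real.exp (ℓ0 * (u.re + 4) + 24 * (1 + ‖u + 4‖ ^ 2)) := h1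
      _ ≤ Gy y * Real.exp (-(ℓ0 * 5 - 624 - ell y)) *
          Real.exp (ℓ0 * (u.re + 4) + 24 * (1 + ‖u + 4‖ ^ 2)) := by gcongr
      _ = Gy y * Real.exp (-(ℓ0 * 5 - 624 - ell y) + (ℓ0 * (u.re + 4) + 24 * (1 + ‖u + 4‖ ^ 2))) := by
          rw [Real.exp_add (-(ℓ0 * 5 - 624 - ell y))]; ring
      _ ≤ _ := by
          apply mul_le_mul_of_nonneg_left _ (Gy_pos y).le
          apply Real.exp_le_exp.2
          nlinarith [sq_nonneg (‖u‖ - 1)]
  · have hPle : Gy y * Real.exp (-(ℓ0 * 5 + 624 - ell y)) ≤ P := by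
      rw [Real.exp_neg, ← div_eq_mul_inv, div_le_iff₀ (Real.exp_pos _)]
      exact hG1
    calc Gy y * Real.exp (ell y * u.re - 3000 * (1 + ‖u‖ ^ 2)) ≤
          Gy y * Real.exp (-(ℓ0 * 5 + 624 - ell y) + (ℓ0 * (u.re + 4) - 24 * (1 + ‖u + 4‖ ^ 2))) := by
          apply mul_le_mul_of_nonneg_left _ (Gy_pos y).le
          apply Real.exp_le_exp.2
          nlinarith [sq_nonneg (‖u‖ - 1)]
      _ = Gy y * Real.exp (-(ℓ0 * 5 + 624 - ell y)) *
          Real.exp (ℓ0 * (u.re + 4) - 24 * (1 + ‖u + 4‖ ^ 2)) := by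
          rw [Real.exp_add (-(ℓ0 * 5 + 624 - ell y))]; ring
      _ ≤ P * Real.exp (ℓ0 * (u.re + 4) - 24 * (1 + ‖u + 4‖ ^ 2)) := by gcongr
      _ ≤ _ := h2

/-- from zeta to `xi` -/
theorem f_le {y : ℝ} {u : ℂ} (hu : -1 / 2 < u.re) (h1 : 1 / 2 + y * I + u ≠ 1) :
    ‖fy y u‖ ≤ 20 * (Gy y * Real.exp (ell y * u.re + 3000 * (1 + ‖u‖ ^ 2))) *
      ‖riemannZeta (1 / 2 + y * I + u)‖ := by
  have hre : ((1 / 2 : ℂ) + y * I + u).re = 1 / 2 + u.re := by simp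
  have h0 : 0 < ((1 / 2 : ℂ) + y * I + u).re := by rw [hre]; linarith
  unfold fy
  rw [xi_gz h0 h1, norm_mul, norm_mul, ← mul_assoc]
  apply mul_le_mul_of_nonneg_right _ (norm_nonneg _)
  have h2 := rz_le h0
  have h3 := (gz_cmp y u (by linarith)).1
  gcongr

/-- from `xi` to zeta -/
theorem zeta_le {y : ℝ} {u : ℂ} (hu : -1 / 2 < u.re) (h1 : 1 / 2 ≤ |y + u.im|) :
    ‖riemannZeta (1 / 2 + y * I + u)‖ * (Gy y * Real.exp (ell y * u.re - 3000 * (1 + ‖u‖ ^ 2))) ≤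
      ‖fy y u‖ := by
  have hre : ((1 / 2 : ℂ) + y * I + u).re = 1 / 2 + u.re := by simp
  have him : ((1 / 2 : ℂ) + y * I + u).im = y + u.im := by simp
  have h0 : 0 < ((1 / 2 : ℂ) + y * I + u).re := by rw [hre]; linarith
  have h2 : 1 / 2 ≤ ‖(1 / 2 + y * I + u) - 1‖ := by
    have := Complex.abs_im_le_norm ((1 / 2 + y * I + u) - 1)
    rw [sub_im, him, one_im, sub_zero] at this
    linarith
  have hne : (1 / 2 : ℂ) + y * I + u ≠ 1 := by
    intro h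
    rw [h, sub_self, norm_zero] at h2
    norm_num at h2
  unfold fy
  rw [xi_gz h0 hne, norm_mul, norm_mul]
  have h3 := rz_ge h0 h2
  have h4 := (gz_cmp y u (by linarith)).2
  have h5 := norm_nonneg (riemannZeta (1 / 2 + y * I + u))
  have h6 := norm_nonneg (gz (1 / 2 + y * I + u))
  calc ‖riemannZeta (1 / 2 + y * I + u)‖ * (Gy y * Real.exp (ell y * u.re - 3000 * (1 + ‖u‖ ^ 2))) ≤
      ‖riemannZeta (1 / 2 + y * I + u)‖ * ‖gz (1 / 2 + y * I + u)‖ := by gcongr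
    _ = 1 * (‖gz (1 / 2 + y * I + u)‖ * ‖riemannZeta (1 / 2 + y * I + u)‖) := by ring
    _ ≤ _ := by gcongr

lemma xi_ne {s : ℂ} (hs : 1 < s.re) : xi s ≠ 0 := by
  have h1 : s ≠ 1 := by
    rintro rfl
    norm_num at hs
  have h0 : s ≠ 0 := by
    rintro rfl
    norm_num at hs
  rw [xi_eq (by linarith) h1]
  refine mul_ne_zero (div_ne_zero (mul_ne_zero h0 (sub_ne_zero.2 h1)) (by norm_num))
    (mul_ne_zero (Gammaℝ_ne_zero_of_re_pos (by linarith)) (riemannZeta_ne_zero_of_one_lt_re hs))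

/-- the zeros of the heat flow of `xi` have real part at most one -/
theorem heat_zero {t : ℝ} (ht : 0 ≤ t) : (∃ z, heat t xi z ≠ 0) ∧
    ∀ z : ℂ, heat t xi z = 0 → z.re ≤ 1 := by
  have hcl : Cl (1 / 2) xi := by
    refine ⟨xi_slow, ⟨1, by simp, xi_fe⟩, fun s hs => ?_⟩
    by_contra hcon
    push Not at hcon
    exact xi_ne (by linarith) hs
  have hne : ∃ z, xi z ≠ 0 := ⟨2, xi_ne (by norm_num)⟩
  obtain ⟨h1, h2⟩ := db_all (1 / 2) xi hcl hne t ht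
  refine ⟨h1, fun z hz => ?_⟩
  have := h2.zer z hz
  linarith

/-- the heat flow and translations -/
lemma heat_shift (t : ℝ) (F : ℂ → ℂ) (a : ℂ) :
    heat t (fun u => F (a + u)) = fun u => heat t F (a + u) := by
  funext u
  unfold heat
  congr 2
  funext v
  rw [add_assoc]

lemma ord_shift {H : ℂ → ℂ} (hH : Differentiable ℂ H) (hne : ∃ z, H z ≠ 0) (a z : ℂ) :
    analyticOrderNatAt (fun u => H (a + u)) z = analyticOrderNatAt H (a + z) := by
  obtain ⟨h, hh, hz, he⟩ := Pool.Agent.W186.LH.single hH hne (a + z)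
  refine Pool.Agent.W186.LH.ord_of (h := fun u => h (a + u)) (by fun_prop) (by fun_prop) hz fun u => ?_
  show H (a + u) = _
  rw [he]
  congr 2
  ring

lemma heat_fy (t y : ℝ) : heat t (fy y) = fun u => heat t xi (1 / 2 + y * I + u) := heat_shift t xi _

end Pool.Agent.V7H51.HF
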