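import Pool.Agent.V7H51.HF.ZM1

/-!
# Size of zeta and zeros of the heat flow: the equivalence
-/

set_option autoImplicit false

open Complex Filter Topology Set Metric MeasureTheory
open scoped ComplexConjugate

namespace Pool.Agent.V7H51.HF

open Pool.Agent.W169.HF H353.E H353.F

/-- the exponent of zeta -/
noncomputable def ex (x r : ℝ) : ℝ := max (x - r) 0 ^ 2 / (4 * x)

/-- the size of zeta in the critical strip -/
def Size (x : ℝ) : Prop := ∀ r : ℝ, 0 ≤ r → r ≤ 1 / 2 → ∀ ε : ℝ, 0 < ε → ∃ C : ℝ, ∀ t : ℝ, 1 ≤ t →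
  ‖riemannZeta (1 / 2 + r + t * I)‖ ≤ C * t ^ (ex x r + ε)

/-- few zeros of the heat flow off the line -/
def Few (x : ℝ) : Prop := ∀ δ R ε : ℝ, 0 < δ → 0 < R → 0 < ε → ∃ T₀ : ℝ, ∀ T : ℝ, T₀ ≤ T →
  ∀ S : Finset ℂ, (∀ z ∈ S, heat (x / Real.log T) xi z = 0 ∧ 1 / 2 + δ ≤ z.re ∧ |z.im - T| ≤ R) →
    ∑ z ∈ S, (analyticOrderNatAt (heat (x / Real.log T) xi) z : ℝ) ≤ ε * Real.log T

lemma ex_nonneg {x : ℝ} (hx : 0 < x) (r : ℝ) : 0 ≤ ex x r := by
  unfold ex
  positivity

lemma ex_phx {x : ℝ} (_hx : 0 < x) (r : ℝ) : phx x r = r + 2 * ex x r := by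
  unfold phx ex
  field_simp
  ring

lemma log_large (A : ℝ) : ∀ᶠ T : ℝ in atTop, A ≤ Real.log T :=
  Real.tendsto_log_atTop.eventually_ge_atTop A

/-- the heat time -/
lemma time_ev {x κ : ℝ} (hx : 0 < x) (hκ : 0 < κ) : ∀ᶠ T : ℝ in atTop,
    |2 * (x / Real.log T) * ell T - x| ≤ κ := by
  filter_upwards [log_large (14 * x / κ + 1), eventually_ge_atTop 4] with T h1 h2
  obtain ⟨h3, h4⟩ := ell_le h2
  have h5 : 0 < 14 * x / κ + 1 := by positivity
  have hL : 0 < Real.log T := by linarith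
  have e1 : 2 * (x / Real.log T) * ell T - x = 2 * x * (ell T - 1 / 2 * Real.log T) / Real.log T := by
    field_simp
  rw [e1, abs_div, abs_of_pos hL, div_le_iff₀ hL, abs_mul, abs_of_pos (by linarith : 0 < 2 * x)]
  have h6 : |ell T - 1 / 2 * Real.log T| ≤ 7 := abs_le.2 ⟨by linarith, by linarith⟩
  have h7 : 14 * x ≤ κ * Real.log T := by
    have : κ * (14 * x / κ) = 14 * x := by field_simp
    nlinarith
  nlinarith [abs_nonneg (ell T - 1 / 2 * Real.log T)]

lemma ell_ev (A : ℝ) : ∀ᶠ T : ℝ in atTop, A ≤ ell T ∧ ell T ≤ Real.log T ∧ Real.log T / 4 ≤ ell T := by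
  filter_upwards [log_large (2 * A + 14), log_large 28, eventually_ge_atTop 4] with T h1 h2 h3
  obtain ⟨h4, h5⟩ := ell_le h3
  exact ⟨by linarith, by linarith, by linarith⟩

/-- one line -/
lemma line_ev {x r κ R : ℝ} (hx : 0 < x) (hr0 : 0 ≤ r) (hr : r ≤ 1 / 2) (hκ : 0 < κ) (_hR : 0 ≤ R)
    (h : Size x) : ∀ᶠ T : ℝ in atTop, ∀ v : ℝ, |v| ≤ R →
      ‖fy T ((r : ℂ) + v * I)‖ ≤ Gy T * Real.exp (ell T * phx x r + κ * ell T) := by
  obtain ⟨C, hC⟩ := h r hr0 hr (κ / 8) (by linarith)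
  obtain ⟨C1, hC1⟩ : ∃ C1 : ℝ, C1 = max C 1 := ⟨_, rfl⟩
  have hC11 : 1 ≤ C1 := by rw [hC1]; exact le_max_right _ _
  obtain ⟨A, hA⟩ : ∃ A : ℝ, A = Real.log (20 * C1) + 3000 * (1 + (r ^ 2 + R ^ 2)) +
    (ex x r + κ / 8) + 14 * ex x r + 7 * κ := ⟨_, rfl⟩
  filter_upwards [log_large (8 / κ * A), eventually_ge_atTop (R + 5)] with T h1 h2
  intro v hv
  have hv' := abs_le.1 hv
  obtain ⟨h3, h4⟩ := ell_le (y := T) (by linarith)
  have hT : 0 < T := by linarith
  have he := ex_nonneg hx r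
  have him : T + ((r : ℂ) + v * I).im = T + v := by simp
  have hne : (1 / 2 : ℂ) + T * I + (r + v * I) ≠ 1 := by
    intro h
    have := congrArg im h
    simp at this
    linarith
  have hf := f_le (y := T) (u := (r : ℂ) + v * I) (by simp; linarith) hne
  have e1 : (1 / 2 : ℂ) + T * I + (r + v * I) = 1 / 2 + r + ((T + v : ℝ) : ℂ) * I := by
    push_cast; ring
  have e2 : ((r : ℂ) + v * I).re = r := by simp
  have e3 : ‖(r : ℂ) + v * I‖ ^ 2 = r ^ 2 + v ^ 2 := by
    rw [← Complex.normSq_eq_norm_sq, Complex.normSq_apply]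
    simp
    ring
  rw [e1, e2, e3] at hf
  have hz := hC (T + v) (by linarith)
  have hz2 : ‖riemannZeta (1 / 2 + r + ((T + v : ℝ) : ℂ) * I)‖ ≤
      C1 * Real.exp ((ex x r + κ / 8) * (Real.log T + 1)) := by
    refine hz.trans ?_
    have h5 : (T + v) ^ (ex x r + κ / 8) ≤ Real.exp ((ex x r + κ / 8) * (Real.log T + 1)) := by
      rw [Real.rpow_def_of_pos (by linarith)]
      apply Real.exp_le_exp.2
      rw [mul_comm]
      apply mul_le_mul_of_nonneg_left _ (by linarith)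
      have h6 : Real.log (T + v) ≤ Real.log (2 * T) := Real.log_le_log (by linarith) (by linarith)
      rw [Real.log_mul (by norm_num) hT.ne'] at h6
      have := Real.log_two_lt_d9
      linarith
    have h7 : C ≤ C1 := by rw [hC1]; exact le_max_left _ _
    calc C * (T + v) ^ (ex x r + κ / 8) ≤ C1 * (T + v) ^ (ex x r + κ / 8) := by
          apply mul_le_mul_of_nonneg_right h7
          exact Real.rpow_nonneg (by linarith) _
      _ ≤ _ := by gcongr
  have hG := Gy_pos T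
  have e4 : (20 * C1 : ℝ) = Real.exp (Real.log (20 * C1)) := (Real.exp_log (by linarith)).symm
  calc ‖fy T ((r : ℂ) + v * I)‖ ≤ 20 * (Gy T * Real.exp (ell T * r + 3000 * (1 + (r ^ 2 + v ^ 2)))) *
        (C1 * Real.exp ((ex x r + κ / 8) * (Real.log T + 1))) := by
        refine hf.trans ?_
        gcongr
    _ = Gy T * ((20 * C1) * (Real.exp (ell T * r + 3000 * (1 + (r ^ 2 + v ^ 2))) *
        Real.exp ((ex x r + κ / 8) * (Real.log T + 1)))) := by ring
    _ = Gy T * Real.exp (Real.log (20 * C1) + (ell T * r + 3000 * (1 + (r ^ 2 + v ^ 2)) +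
        (ex x r + κ / 8) * (Real.log T + 1))) := by
        rw [Real.exp_add (Real.log (20 * C1)), ← e4, Real.exp_add (ell T * r + _)]
    _ ≤ _ := by
        apply mul_le_mul_of_nonneg_left _ hG.le
        apply Real.exp_le_exp.2
        rw [ex_phx hx]
        have h8 : v ^ 2 ≤ R ^ 2 := by
          rw [← sq_abs v]
          exact pow_le_pow_left₀ (abs_nonneg v) hv 2
        have h9 : A ≤ κ / 8 * Real.log T := by
          have : κ / 8 * (8 / κ * A) = A := by field_simp
          have h10 := mul_le_mul_of_nonneg_left h1 (show 0 ≤ κ / 8 by linarith)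
          linarith
        have h11 : ex x r * Real.log T - 14 * ex x r ≤ 2 * ex x r * ell T := by nlinarith
        have h12 : κ * (1 / 2 * Real.log T - 7) ≤ κ * ell T := mul_le_mul_of_nonneg_left h4 hκ.le
        have h13 : 0 ≤ Real.log T := Real.log_nonneg (by linarith)
        have h14 : 0 ≤ κ * Real.log T := by positivity
        rw [hA] at h9
        nlinarith

theorem few_of_Size {x : ℝ} (hx : 0 < x) (h : Size x) : Few x := by
  intro δ R ε hδ hR hε
  obtain ⟨K, hK, hUD⟩ := ud_xi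
  obtain ⟨κ1, R1, ℓ1, hκ1, hR1, H⟩ := few_of_size (K := K) (ϑ0 := 1) (x := x) (X := x + 1)
    (R := max R 1) (δ := min δ 1) (ε := ε) hK (by norm_num) (by norm_num) hx (by linarith)
    (by linarith) (le_max_right _ _) (lt_min hδ one_pos) (min_le_right _ _) hε
  obtain ⟨M, κ2, R2, ℓ2, hM, hκ2, hR2, HN⟩ := net_all K 1 x κ1 R1 hK (by norm_num) (by norm_num) hx
    hκ1 hR1
  have hM0 : (0 : ℝ) < M := by exact_mod_cast hM
  have hM1 : (1 : ℝ) ≤ M := by exact_mod_cast hM
  obtain ⟨R3, ℓ3, hR23, HP⟩ := prof_all K 1 (1 / 2) (1 / (2 * M)) κ2 R2 hK (by norm_num) (by norm_num)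
    (by norm_num) (by norm_num) (by positivity) (by
      rw [div_le_one (by linarith)]; linarith) hκ2 hR2
  have hlines : ∀ᶠ T : ℝ in atTop, ∀ k ∈ Finset.Icc 1 M, ∀ v : ℝ, |v| ≤ R2 →
      ‖fy T (((k / (2 * M) : ℝ) : ℂ) + v * I)‖ ≤
        Gy T * Real.exp (ell T * phx x (k / (2 * M)) + κ2 * ell T) := by
    rw [Filter.eventually_all_finset]
    intro k hk
    rw [Finset.mem_Icc] at hk
    have hk1 : (k : ℝ) ≤ M := by exact_mod_cast hk.2
    refine line_ev hx (by positivity) ?_ hκ2 (by linarith) h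
    rw [div_le_iff₀ (by linarith)]
    linarith
  have hev := (hlines.and (time_ev hx (show 0 < min κ1 1 from lt_min hκ1 one_pos))).and
    ((ell_ev (max ℓ1 (max ℓ2 ℓ3))).and ((eventually_ge_atTop (4 : ℝ)).and (log_large 1)))
  obtain ⟨T₀, hT₀⟩ := Filter.eventually_atTop.1 hev
  refine ⟨T₀, fun T hT S hS => ?_⟩
  obtain ⟨⟨hl, htime⟩, ⟨hℓ, hℓlog, -⟩, hT4, hlog1⟩ := hT₀ T hT
  have hud := hUD T
  have hG := hud.hG
  have htime' := abs_le.1 htime
  have hL : 0 < Real.log T := by linarith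
  have hcnt := H (ell T) (Gy T) (x / Real.log T) (fy T) ((le_max_left _ _).trans hℓ) hud
    (HN (ell T) (Gy T) (fy T) (((le_max_left _ _).trans (le_max_right _ _)).trans hℓ) hud
      (HP (ell T) (Gy T) (fy T) (((le_max_right _ _).trans (le_max_right _ _)).trans hℓ) hud
        (fun u hu _ => xi_ne (by simp; linarith)))
      (fun k hk1 hk2 v hv => hl k (Finset.mem_Icc.2 ⟨hk1, hk2⟩) v hv))
    (by positivity) (by have := min_le_left κ1 1; linarith) (by have := min_le_right κ1 1; linarith)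
  -- transfer
  have ht0 : 0 ≤ x / Real.log T := by positivity
  obtain ⟨hne, hz1⟩ := heat_zero ht0
  have hHd := heat_diff xi_slow ht0
  obtain ⟨a, ha⟩ : ∃ a : ℂ, a = 1 / 2 + T * I := ⟨_, rfl⟩
  have hare : a.re = 1 / 2 := by rw [ha]; simp
  have haim : a.im = T := by rw [ha]; simp
  have h1 := hcnt (S.image fun z => z - a) (by
    intro w hw
    obtain ⟨z, hz, rfl⟩ := Finset.mem_image.1 hw
    obtain ⟨h2, h3, h4⟩ := hS z hz
    have h5 := hz1 z h2
    rw [heat_fy]
    refine ⟨?_, ?_, ?_, ?_⟩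
    · show heat (x / Real.log T) xi (1 / 2 + T * I + (z - a)) = 0
      rw [← ha]
      have : a + (z - a) = z := by ring
      rw [this]
      exact h2
    · rw [sub_re, hare]
      have := min_le_left δ 1
      linarith
    · rw [sub_re, hare]
      have := le_max_right R 1
      linarith
    · rw [sub_im, haim]
      exact h4.trans (le_max_left _ _))
  rw [Finset.sum_image (by
    intro z _ w _ hzw
    have : z - a + a = w - a + a := by rw [show z - a = w - a from hzw]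
    simpa using this)] at h1
  have e1 : ∀ z ∈ S, (analyticOrderNatAt (heat (x / Real.log T) (fy T)) (z - a) : ℝ) =
      (analyticOrderNatAt (heat (x / Real.log T) xi) z : ℝ) := by
    intro z _
    rw [heat_fy, ord_shift hHd hne, ← ha]
    congr 2
    ring
  rw [Finset.sum_congr rfl e1] at h1
  refine h1.trans ?_
  gcongr

/-- a bound for large `t` gives a bound for all `t ≥ 1` -/
lemma all_of_ev {r e : ℝ} (he : 0 ≤ e)
    (h : ∀ᶠ T : ℝ in atTop, ‖riemannZeta (1 / 2 + r + T * I)‖ ≤ T ^ e) :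
    ∃ C : ℝ, ∀ t : ℝ, 1 ≤ t → ‖riemannZeta (1 / 2 + r + t * I)‖ ≤ C * t ^ e := by
  obtain ⟨T₀, hT₀⟩ := Filter.eventually_atTop.1 h
  have hc : ContinuousOn (fun t : ℝ => ‖riemannZeta (1 / 2 + r + t * I)‖) (Icc 1 (max T₀ 1)) := by
    intro t ht
    have hne : (1 / 2 + r + t * I : ℂ) ≠ 1 := by
      intro h
      have := congrArg im h
      simp at this
      linarith [ht.1]
    have h1 := (differentiableAt_riemannZeta hne).continuousAt
    have h2 : ContinuousAt (fun t : ℝ => (1 / 2 + r + t * I : ℂ)) t := by fun_prop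
    exact ((h1.comp (f := fun t : ℝ => (1 / 2 + r + t * I : ℂ)) h2).norm).continuousWithinAt
  obtain ⟨M, hM⟩ := (isCompact_Icc.image_of_continuousOn hc).bddAbove
  refine ⟨max M 1, fun t ht => ?_⟩
  have h1 : 1 ≤ t ^ e := Real.one_le_rpow ht he
  rcases le_or_gt T₀ t with h2 | h2
  · calc ‖riemannZeta (1 / 2 + r + t * I)‖ ≤ t ^ e := hT₀ t h2
      _ = 1 * t ^ e := (one_mul _).symm
      _ ≤ _ := by gcongr; exact le_max_right _ _
  · have h3 : ‖riemannZeta (1 / 2 + r + t * I)‖ ≤ M :=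
      hM ⟨t, ⟨ht, h2.le.trans (le_max_left _ _)⟩, rfl⟩
    calc ‖riemannZeta (1 / 2 + r + t * I)‖ ≤ max M 1 := h3.trans (le_max_left _ _)
      _ = max M 1 * 1 := (mul_one _).symm
      _ ≤ _ := by gcongr

/-- from the bound of `fy T r` to zeta -/
lemma zeta_ev {r a κ : ℝ} (hr0 : 0 ≤ r) (hκ : 0 < κ)
    (h : ∀ᶠ T : ℝ in atTop, ‖fy T (r : ℂ)‖ ≤ Gy T * Real.exp (ell T * (r + 2 * a) + κ * ell T)) :
    ∀ᶠ T : ℝ in atTop, ‖riemannZeta (1 / 2 + r + T * I)‖ ≤ T ^ (a + κ) := by
  obtain ⟨A, hA⟩ : ∃ A : ℝ, A = 14 * |a| + 7 * κ + 3000 * (1 + r ^ 2) := ⟨_, rfl⟩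
  filter_upwards [h, log_large (2 / κ * A), eventually_ge_atTop (4 : ℝ)] with T h1 h2 h3
  have hT : 0 < T := by linarith
  obtain ⟨h4, h5⟩ := ell_le h3
  have hz := zeta_le (y := T) (u := (r : ℂ)) (by simp; linarith) (by
    simp
    rw [abs_of_pos hT]
    linarith)
  have e1 : (1 / 2 : ℂ) + T * I + r = 1 / 2 + r + T * I := by ring
  have e2 : ‖(r : ℂ)‖ ^ 2 = r ^ 2 := by rw [Complex.norm_real, Real.norm_eq_abs, sq_abs]
  rw [e1, ofReal_re, e2] at hz
  have hG := Gy_pos T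
  have h6 : ‖riemannZeta (1 / 2 + r + T * I)‖ ≤
      Real.exp ((ell T * (r + 2 * a) + κ * ell T) - (ell T * r - 3000 * (1 + r ^ 2))) := by
    rw [Real.exp_sub, le_div_iff₀ (Real.exp_pos _)]
    have h7 := hz.trans h1
    have h8 : Gy T * (‖riemannZeta (1 / 2 + r + T * I)‖ * Real.exp (ell T * r - 3000 * (1 + r ^ 2))) ≤
        Gy T * Real.exp (ell T * (r + 2 * a) + κ * ell T) := by
      calc Gy T * (‖riemannZeta (1 / 2 + r + T * I)‖ * Real.exp (ell T * r - 3000 * (1 + r ^ 2))) =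
          ‖riemannZeta (1 / 2 + r + T * I)‖ * (Gy T * Real.exp (ell T * r - 3000 * (1 + r ^ 2))) := by ring
        _ ≤ _ := h7
    exact le_of_mul_le_mul_left h8 hG
  refine h6.trans ?_
  rw [Real.rpow_def_of_pos hT]
  apply Real.exp_le_exp.2
  have h9 : A ≤ κ / 2 * Real.log T := by
    have : κ / 2 * (2 / κ * A) = A := by field_simp
    have h10 := mul_le_mul_of_nonneg_left h2 (show 0 ≤ κ / 2 by linarith)
    linarith
  have h11 : 2 * a * ell T ≤ a * Real.log T + 14 * |a| := by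
    have h12 : 2 * a * ell T - a * Real.log T = 2 * a * (ell T - 1 / 2 * Real.log T) := by ring
    have h13 : |ell T - 1 / 2 * Real.log T| ≤ 7 := abs_le.2 ⟨by linarith, by linarith⟩
    have h14 : 2 * a * (ell T - 1 / 2 * Real.log T) ≤ 14 * |a| := by
      refine (le_abs_self _).trans ?_
      rw [abs_mul, abs_mul]
      have e3 : |(2 : ℝ)| = 2 := by norm_num
      rw [e3]
      nlinarith [abs_nonneg a, abs_nonneg (ell T - 1 / 2 * Real.log T)]
    linarith
  have h15 : κ * ell T ≤ κ * (1 / 2 * Real.log T + 7) := mul_le_mul_of_nonneg_left h4 hκ.le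
  rw [hA] at h9
  nlinarith

theorem Size_of_few {x : ℝ} (hx : 0 < x) (h : Few x) : Size x := by
  intro r hr0 hr1 ε hε
  obtain ⟨K, hK, hUD⟩ := ud_xi
  obtain ⟨κ1, R, ℓ0, hκ1, hR, H⟩ := size_of_few (K := K) (ϑ0 := 1) (g := x / 2) (X := x + 1)
    (κ := ε / 2) hK (by norm_num) (by norm_num) (by linarith) (by linarith) (by linarith)
  obtain ⟨T₀, hT₀⟩ := h κ1 R (κ1 / 4) hκ1 (by linarith) (by linarith)
  have he := ex_nonneg hx r
  refine all_of_ev (by linarith) (zeta_ev hr0 hε ?_)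
  -- continuity of the exponent
  have hcont : ContinuousAt (fun x' : ℝ => phx x' r) x := by
    unfold phx
    refine ContinuousAt.add continuousAt_const (ContinuousAt.div ?_ ?_ (by positivity))
    · fun_prop
    · fun_prop
  obtain ⟨η, hη, hηx⟩ := Metric.continuousAt_iff.1 hcont (ε / 2) (by linarith)
  filter_upwards [time_ev hx (show 0 < min (η / 2) (min (x / 2) 1) from
      lt_min (by linarith) (lt_min (by linarith) one_pos)), ell_ev (max ℓ0 0),
    eventually_ge_atTop T₀, eventually_ge_atTop (4 : ℝ), log_large 1] with T h1 h2 h3 h4 h5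
  obtain ⟨hℓ, -, hℓ4⟩ := h2
  have hℓ0 : 0 ≤ ell T := (le_max_right _ _).trans hℓ
  have hL : 0 < Real.log T := by linarith
  have hm1 := min_le_left (η / 2) (min (x / 2) 1)
  have hm2 := (min_le_right (η / 2) (min (x / 2) 1)).trans (min_le_left _ _)
  have hm3 := (min_le_right (η / 2) (min (x / 2) 1)).trans (min_le_right _ _)
  have h1' := abs_le.1 h1
  have ht0 : 0 ≤ x / Real.log T := by positivity
  obtain ⟨hne, hz1⟩ := heat_zero ht0
  have hHd := heat_diff xi_slow ht0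
  obtain ⟨a, ha⟩ : ∃ a : ℂ, a = 1 / 2 + T * I := ⟨_, rfl⟩
  have hare : a.re = 1 / 2 := by rw [ha]; simp
  have haim : a.im = T := by rw [ha]; simp
  have hcnt : Cnt (heat (x / Real.log T) (fy T)) {z : ℂ | κ1 ≤ z.re ∧ z.re ≤ R ∧ |z.im| ≤ R}
      (κ1 * ell T) := by
    intro S hS
    have h6 := hT₀ T h3 (S.image fun z => a + z) (by
      intro w hw
      obtain ⟨z, hz, rfl⟩ := Finset.mem_image.1 hw
      obtain ⟨h7, h8, h9, h10⟩ := hS z hz
      rw [heat_fy] at h7
      refine ⟨by rw [ha]; exact h7, ?_, ?_⟩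
      · rw [add_re, hare]; linarith
      · rw [add_im, haim, add_sub_cancel_left]; exact h10)
    rw [Finset.sum_image (by
      intro z _ w _ hzw
      exact add_left_cancel hzw)] at h6
    have e1 : ∀ z ∈ S, (analyticOrderNatAt (heat (x / Real.log T) (fy T)) z : ℝ) =
        (analyticOrderNatAt (heat (x / Real.log T) xi) (a + z) : ℝ) := by
      intro z _
      rw [heat_fy, ord_shift hHd hne, ← ha]
    rw [Finset.sum_congr rfl e1]
    refine h6.trans ?_
    nlinarith
  have hmain := H (ell T) (Gy T) (x / Real.log T) (fy T) ((le_max_left _ _).trans hℓ) (hUD T)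
    (by positivity) (by linarith) (by linarith) hcnt r hr0 (by linarith)
  refine hmain.trans ?_
  apply mul_le_mul_of_nonneg_left _ (Gy_pos T).le
  apply Real.exp_le_exp.2
  rw [← ex_phx hx]
  have h6 : phx (2 * (x / Real.log T) * ell T) r ≤ phx x r + ε / 2 := by
    have h7 := hηx (x := 2 * (x / Real.log T) * ell T) (by
      rw [Real.dist_eq]
      exact h1.trans_lt (by linarith))
    rw [Real.dist_eq] at h7
    have := (abs_lt.1 h7).2
    linarith
  have h8 := mul_le_mul_of_nonneg_left h6 hℓ0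
  nlinarith

theorem few_iff {x : ℝ} (hx : 0 < x) : Few x ↔ Size x := ⟨Size_of_few hx, few_of_Size hx⟩

end Pool.Agent.V7H51.HF
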