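import Pool.Agent.V7H51.HF.ZM2

/-!
# The Lindelof exponent and the heat flow
-/

set_option autoImplicit false

open Complex Filter Topology Set Metric MeasureTheory
open scoped ComplexConjugate

namespace Pool.Agent.V7H51.HF

open Pool.Agent.W169.HF H353.E H353.F

/-- the exponent `θ` on the critical line -/
def Expo (θ : ℝ) : Prop := ∀ ε : ℝ, 0 < ε → ∃ C : ℝ, ∀ t : ℝ,
  ‖riemannZeta (1 / 2 + t * I)‖ ≤ C * (1 + |t|) ^ (θ + ε)

lemma expo_one {θ : ℝ} (hθ : 0 ≤ θ) (h : Expo θ) : ∀ ε : ℝ, 0 < ε → ∃ C : ℝ, ∀ t : ℝ, 1 ≤ t →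
    ‖riemannZeta (1 / 2 + ((0 : ℝ) : ℂ) + t * I)‖ ≤ C * t ^ (θ + ε) := by
  intro ε hε
  obtain ⟨C, hC⟩ := h ε hε
  refine ⟨max C 0 * 2 ^ (θ + ε), fun t ht => ?_⟩
  have h1 := hC t
  rw [Complex.ofReal_zero, add_zero]
  refine h1.trans ?_
  have h2 : (1 + |t|) ^ (θ + ε) ≤ 2 ^ (θ + ε) * t ^ (θ + ε) := by
    rw [← Real.mul_rpow (by norm_num) (by linarith), abs_of_pos (by linarith)]
    exact Real.rpow_le_rpow (by linarith) (by linarith) (by linarith)
  have h3 : 0 ≤ (1 + |t|) ^ (θ + ε) := Real.rpow_nonneg (by positivity) _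
  calc C * (1 + |t|) ^ (θ + ε) ≤ max C 0 * (1 + |t|) ^ (θ + ε) := by
        gcongr
        exact le_max_left _ _
    _ ≤ max C 0 * (2 ^ (θ + ε) * t ^ (θ + ε)) := by
        gcongr
    _ = _ := by ring

lemma expo_of_one {θ : ℝ} (hθ : 0 ≤ θ) (h : ∀ ε : ℝ, 0 < ε → ∃ C : ℝ, ∀ t : ℝ, 1 ≤ t →
    ‖riemannZeta (1 / 2 + ((0 : ℝ) : ℂ) + t * I)‖ ≤ C * t ^ (θ + ε)) : Expo θ := by
  intro ε hε
  obtain ⟨C, hC⟩ := h ε hε
  have hne : ∀ t : ℝ, (1 / 2 + t * I : ℂ) ≠ 1 := by
    intro t h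
    have := congrArg re h
    norm_num at this
  have hc : Continuous fun t : ℝ => ‖riemannZeta (1 / 2 + t * I)‖ := by
    rw [continuous_iff_continuousAt]
    intro t
    have h1 := (differentiableAt_riemannZeta (hne t)).continuousAt
    have h2 : ContinuousAt (fun t : ℝ => (1 / 2 + t * I : ℂ)) t := by fun_prop
    exact (h1.comp (f := fun t : ℝ => (1 / 2 + t * I : ℂ)) h2).norm
  obtain ⟨M, hM⟩ := (isCompact_Icc.image (s := Icc (-1 : ℝ) 1) hc).bddAbove
  refine ⟨max (max C 0) M, fun t => ?_⟩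
  have h1 : 1 ≤ (1 + |t|) ^ (θ + ε) := Real.one_le_rpow (by linarith [abs_nonneg t]) (by linarith)
  have hmm : 0 ≤ max (max C 0) M := (le_max_right C 0).trans (le_max_left _ _)
  have key : ∀ t : ℝ, 1 ≤ t → ‖riemannZeta (1 / 2 + t * I)‖ ≤
      max (max C 0) M * (1 + |t|) ^ (θ + ε) := by
    intro t ht
    have h2 := hC t ht
    rw [Complex.ofReal_zero, add_zero] at h2
    refine h2.trans ?_
    have h3 : t ^ (θ + ε) ≤ (1 + |t|) ^ (θ + ε) := by
      apply Real.rpow_le_rpow (by linarith) _ (by linarith)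
      rw [abs_of_pos (by linarith)]
      linarith
    have h4 : 0 ≤ t ^ (θ + ε) := Real.rpow_nonneg (by linarith) _
    calc C * t ^ (θ + ε) ≤ max (max C 0) M * t ^ (θ + ε) := by
          gcongr
          exact (le_max_left _ _).trans (le_max_left _ _)
      _ ≤ _ := by gcongr
  rcases le_or_gt 1 t with ht | ht
  · exact key t ht
  rcases le_or_gt t (-1) with ht2 | ht2
  · have h2 := key (-t) (by linarith)
    rw [abs_neg] at h2
    have e1 : (1 / 2 + ((-t : ℝ) : ℂ) * I : ℂ) = conj (1 / 2 + t * I) := by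
      rw [map_add, map_mul, conj_ofReal, conj_I, map_div₀, map_one, map_ofNat]
      push_cast
      ring
    rw [e1, riemannZeta_conj, Complex.norm_conj] at h2
    exact h2
  · have h3 : ‖riemannZeta (1 / 2 + t * I)‖ ≤ M := hM ⟨t, ⟨ht2.le, ht.le⟩, rfl⟩
    calc ‖riemannZeta (1 / 2 + t * I)‖ ≤ max (max C 0) M := h3.trans (le_max_right _ _)
      _ = max (max C 0) M * 1 := (mul_one _).symm
      _ ≤ _ := by gcongr

/-- the interpolated bound -/
lemma interp {θ : ℝ} (hθ : 0 ≤ θ) (hθ2 : θ ≤ 1 / 2) (h : Expo θ) : ∀ r : ℝ, 0 ≤ r → r ≤ 1 / 2 →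
    ∀ κ : ℝ, 0 < κ → ∀ᶠ T : ℝ in atTop,
      ‖fy T (r : ℂ)‖ ≤ Gy T * Real.exp (ell T * (r + 2 * (θ * (1 - 2 * r))) + κ * ell T) := by
  intro r hr0 hr1 κ hκ
  obtain ⟨K, hK, hUD⟩ := ud_xi
  obtain ⟨ρ, hρ⟩ : ∃ ρ : ℝ, ρ = min (1 / 2) (κ / 8) := ⟨_, rfl⟩
  have hρ0 : 0 < ρ := by rw [hρ]; exact lt_min (by norm_num) (by linarith)
  have hρ1 : ρ ≤ 1 / 2 := by rw [hρ]; exact min_le_left _ _
  have hρ2 : ρ ≤ κ / 8 := by rw [hρ]; exact min_le_right _ _
  obtain ⟨κ1, R, hκ1, hR, HR⟩ := rect_all (4 + K) (1 / 2 + ρ) (κ / 2) 1 (by linarith) (by linarith)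
    (by linarith) (by linarith) le_rfl
  obtain ⟨R3, ℓ3, hR3, HP⟩ := prof_all K 1 (1 / 2) ρ κ1 (max R 1) hK (by norm_num) (by norm_num)
    (by norm_num) (by norm_num) hρ0 (by linarith) hκ1 (le_max_right _ _)
  -- the critical line
  have hcrit : ∀ᶠ T : ℝ in atTop, ∀ v : ℝ, |v| ≤ R →
      ‖fy T (((0 : ℝ) : ℂ) + v * I)‖ ≤ Gy T * Real.exp (ell T * (2 * θ) + κ1 * ell T) := by
    obtain ⟨C, hC⟩ := expo_one hθ h (κ1 / 8) (by linarith)
    obtain ⟨C1, hC1⟩ : ∃ C1 : ℝ, C1 = max C 1 := ⟨_, rfl⟩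
    have hC11 : 1 ≤ C1 := by rw [hC1]; exact le_max_right _ _
    obtain ⟨A, hA⟩ : ∃ A : ℝ, A = Real.log (20 * C1) + 3000 * (1 + R ^ 2) +
      (θ + κ1 / 8) + 14 * θ + 7 * κ1 := ⟨_, rfl⟩
    filter_upwards [log_large (8 / κ1 * A), eventually_ge_atTop (R + 5)] with T h1 h2
    intro v hv
    have hv' := abs_le.1 hv
    obtain ⟨h3, h4⟩ := ell_le (y := T) (by linarith)
    have hT : 0 < T := by linarith
    have hne : (1 / 2 : ℂ) + T * I + (((0 : ℝ) : ℂ) + v * I) ≠ 1 := by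
      intro h
      have := congrArg im h
      simp at this
      linarith
    have hf := f_le (y := T) (u := ((0 : ℝ) : ℂ) + v * I) (by simp; norm_num) hne
    have e1 : (1 / 2 : ℂ) + T * I + (((0 : ℝ) : ℂ) + v * I) =
        1 / 2 + ((0 : ℝ) : ℂ) + ((T + v : ℝ) : ℂ) * I := by
      push_cast; ring
    have e2 : (((0 : ℝ) : ℂ) + v * I).re = 0 := by simp
    have e3 : ‖((0 : ℝ) : ℂ) + v * I‖ ^ 2 = v ^ 2 := by
      rw [← Complex.normSq_eq_norm_sq, Complex.normSq_apply]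
      simp
      ring
    rw [e1, e2, e3] at hf
    have hz := hC (T + v) (by linarith)
    have hz2 : ‖riemannZeta (1 / 2 + ((0 : ℝ) : ℂ) + ((T + v : ℝ) : ℂ) * I)‖ ≤
        C1 * Real.exp ((θ + κ1 / 8) * (Real.log T + 1)) := by
      refine hz.trans ?_
      have h5 : (T + v) ^ (θ + κ1 / 8) ≤ Real.exp ((θ + κ1 / 8) * (Real.log T + 1)) := by
        rw [Real.rpow_def_of_pos (by linarith)]
        apply Real.exp_le_exp.2
        rw [mul_comm]
        apply mul_le_mul_of_nonneg_left _ (by linarith)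
        have h6 : Real.log (T + v) ≤ Real.log (2 * T) := Real.log_le_log (by linarith) (by linarith)
        rw [Real.log_mul (by norm_num) hT.ne'] at h6
        have := Real.log_two_lt_d9
        linarith
      have h7 : C ≤ C1 := by rw [hC1]; exact le_max_left _ _
      calc C * (T + v) ^ (θ + κ1 / 8) ≤ C1 * (T + v) ^ (θ + κ1 / 8) := by
            apply mul_le_mul_of_nonneg_right h7
            exact Real.rpow_nonneg (by linarith) _
        _ ≤ _ := by gcongr
    have hG := Gy_pos T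
    have e4 : (20 * C1 : ℝ) = Real.exp (Real.log (20 * C1)) := (Real.exp_log (by linarith)).symm
    calc ‖fy T (((0 : ℝ) : ℂ) + v * I)‖ ≤ 20 * (Gy T * Real.exp (ell T * 0 + 3000 * (1 + v ^ 2))) *
          (C1 * Real.exp ((θ + κ1 / 8) * (Real.log T + 1))) := by
          refine hf.trans ?_
          gcongr
      _ = Gy T * ((20 * C1) * (Real.exp (ell T * 0 + 3000 * (1 + v ^ 2)) *
          Real.exp ((θ + κ1 / 8) * (Real.log T + 1)))) := by ring
      _ = Gy T * Real.exp (Real.log (20 * C1) + (ell T * 0 + 3000 * (1 + v ^ 2) +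
          (θ + κ1 / 8) * (Real.log T + 1))) := by
          rw [Real.exp_add (Real.log (20 * C1)), ← e4, Real.exp_add (ell T * 0 + _)]
      _ ≤ _ := by
          apply mul_le_mul_of_nonneg_left _ hG.le
          apply Real.exp_le_exp.2
          have h8 : v ^ 2 ≤ R ^ 2 := by
            rw [← sq_abs v]
            exact pow_le_pow_left₀ (abs_nonneg v) hv 2
          have h9 : A ≤ κ1 / 8 * Real.log T := by
            have : κ1 / 8 * (8 / κ1 * A) = A := by field_simp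
            have h10 := mul_le_mul_of_nonneg_left h1 (show 0 ≤ κ1 / 8 by linarith)
            linarith
          have h11 : θ * Real.log T - 14 * θ ≤ 2 * θ * ell T := by nlinarith
          have h12 : κ1 * (1 / 2 * Real.log T - 7) ≤ κ1 * ell T := mul_le_mul_of_nonneg_left h4 hκ1.le
          have h13 : 0 ≤ Real.log T := Real.log_nonneg (by linarith)
          have h14 : 0 ≤ κ1 * Real.log T := by positivity
          rw [hA] at h9
          nlinarith
  filter_upwards [hcrit, ell_ev (max ℓ3 (max 1 (1 + 4 * R ^ 2))), eventually_ge_atTop (4 : ℝ)] with T h1 h2 h3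
  obtain ⟨hℓ, -, -⟩ := h2
  have hℓ1 : 1 ≤ ell T := ((le_max_left _ _).trans (le_max_right _ _)).trans hℓ
  have hℓR : 1 + 4 * R ^ 2 ≤ ell T := ((le_max_right _ _).trans (le_max_right _ _)).trans hℓ
  have hud := hUD T
  have hG := hud.hG
  have hpf := HP (ell T) (Gy T) (fy T) ((le_max_left _ _).trans hℓ) hud
    (fun u hu _ => xi_ne (by simp; linarith))
  have hdiff : Differentiable ℂ (fy T) := hud.slow.1
  have hmain := HR (ell T) 0 (2 * θ) (1 / 2 + ρ) (Gy T) (fy T) (by linarith) hG hdiff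
    (by rw [abs_of_nonneg (by linarith)]; linarith) (by rw [abs_of_nonneg (by linarith)]; linarith)
    (fun u h4 h5 => by
      have e1 : u = ((0 : ℝ) : ℂ) + (u.im : ℂ) * I := by
        apply Complex.ext <;> simp [h4]
      rw [e1]
      exact h1 u.im h5)
    (fun u h4 h5 => by
      rw [zero_add] at h4
      have h6 := hpf.upp u (by
        rw [h4, abs_of_nonneg (by linarith)]
        have := le_max_right R 1
        linarith) (h5.trans (le_max_left _ _))
      rw [h4, abs_of_nonneg (show (0 : ℝ) ≤ 1 / 2 + ρ by linarith), max_self] at h6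
      exact h6)
    (fun u h4 h5 h6 => by
      have h7 := hud.up u
      refine h7.trans ?_
      apply mul_le_mul_of_nonneg_left _ hG.le
      apply Real.exp_le_exp.2
      rw [zero_add] at h5
      have h8 : max |u.re| 1 ≤ 1 := by
        rw [abs_of_nonneg h4]
        exact max_le (by linarith) le_rfl
      have h9 : ‖u‖ ^ 2 ≤ 1 + R ^ 2 := by
        rw [← Complex.normSq_eq_norm_sq, Complex.normSq_apply]
        have h10 : u.im * u.im = R ^ 2 := by
          rw [← h6, sq_abs]; ring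
        rw [h10]
        nlinarith
      have h11 : K * (1 + ‖u‖ ^ 2) ≤ K * ell T := by
        apply mul_le_mul_of_nonneg_left _ (by linarith)
        nlinarith [sq_nonneg R]
      have h12 : ell T * max |u.re| 1 ≤ ell T * 1 := mul_le_mul_of_nonneg_left h8 (by linarith)
      nlinarith)
    (r : ℂ) (by simpa using hr0) (by simp; linarith) (by simp)
  refine hmain.trans ?_
  apply mul_le_mul_of_nonneg_left _ hG.le
  apply Real.exp_le_exp.2
  rw [ofReal_re, sub_zero]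
  have hb : 0 < 1 / 2 + ρ := by linarith
  have h4 : 2 * θ + (1 / 2 + ρ - 2 * θ) * (r / (1 / 2 + ρ)) ≤ r + 2 * (θ * (1 - 2 * r)) + κ / 2 := by
    have e1 : 2 * θ + (1 / 2 + ρ - 2 * θ) * (r / (1 / 2 + ρ)) =
        r + 2 * (θ * (1 - 2 * r)) + 4 * θ * r * ρ / (1 / 2 + ρ) := by
      field_simp
      ring
    rw [e1]
    have h5 : 4 * θ * r * ρ / (1 / 2 + ρ) ≤ κ / 2 := by
      rw [div_le_iff₀ hb]
      have h6 : θ * r ≤ 1 / 4 := by nlinarith
      nlinarith [mul_nonneg hθ hr0]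
    linarith
  have h5 := mul_le_mul_of_nonneg_left h4 (show 0 ≤ ell T by linarith)
  nlinarith

/-- the exponents of the interpolated bound -/
lemma ex_ge {θ x r : ℝ} (hθ : 0 ≤ θ) (hθ2 : θ < 1 / 2) (hx : 1 / (2 * (1 - 2 * θ)) ≤ x)
    (_hr0 : 0 ≤ r) (hr : r ≤ 1 / 2) : θ * (1 - 2 * r) ≤ ex x r := by
  have h1 : 0 < 1 - 2 * θ := by linarith
  rw [div_le_iff₀ (by linarith)] at hx
  have hx2 : 1 / 2 ≤ x := by
    by_contra hcon
    push Not at hcon
    nlinarith
  unfold ex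
  rw [max_eq_left (by linarith), le_div_iff₀ (by linarith)]
  nlinarith [sq_nonneg (r - x * (1 - 4 * θ)), mul_nonneg hθ (show 0 ≤ x * (2 * (1 - 2 * θ)) - 1 by linarith),
    mul_nonneg (mul_nonneg hθ (show 0 ≤ x by linarith)) (show 0 ≤ x * (2 * (1 - 2 * θ)) - 1 by linarith)]

theorem few_of_expo {θ x : ℝ} (hθ : 0 ≤ θ) (hθ2 : θ < 1 / 2) (hx : 1 / (2 * (1 - 2 * θ)) ≤ x)
    (h : Expo θ) : Few x := by
  have hx0 : 0 < x := lt_of_lt_of_le (by
    have : 0 < 1 - 2 * θ := by linarith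
    positivity) hx
  refine few_of_Size hx0 fun r hr0 hr1 ε hε => ?_
  have he := ex_nonneg hx0 r
  refine all_of_ev (by linarith) (zeta_ev hr0 hε ?_)
  filter_upwards [interp hθ hθ2.le h r hr0 hr1 ε hε, ell_ev 0] with T h1 h2
  refine h1.trans ?_
  apply mul_le_mul_of_nonneg_left _ (Gy_pos T).le
  apply Real.exp_le_exp.2
  have h3 := ex_ge hθ hθ2 hx hr0 hr1
  have h4 : ell T * (r + 2 * (θ * (1 - 2 * r))) ≤ ell T * (r + 2 * ex x r) := by
    apply mul_le_mul_of_nonneg_left _ h2.1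
    linarith
  linarith

theorem size_of_lindelof (h : Expo 0) {x : ℝ} (hx : 0 < x) : Size x := by
  intro r hr0 hr1 ε hε
  have he := ex_nonneg hx r
  refine all_of_ev (by linarith) (zeta_ev hr0 hε ?_)
  filter_upwards [interp le_rfl (by norm_num) h r hr0 hr1 ε hε, ell_ev 0] with T h1 h2
  refine h1.trans ?_
  apply mul_le_mul_of_nonneg_left _ (Gy_pos T).le
  apply Real.exp_le_exp.2
  have h4 : ell T * (r + 2 * (0 * (1 - 2 * r))) ≤ ell T * (r + 2 * ex x r) := by
    apply mul_le_mul_of_nonneg_left _ h2.1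
    linarith
  linarith

theorem expo_of_few {x : ℝ} (hx : 0 < x) (h : Few x) : Expo (x / 4) := by
  refine expo_of_one (by linarith) fun ε hε => ?_
  obtain ⟨C, hC⟩ := Size_of_few hx h 0 le_rfl (by norm_num) ε hε
  have e : ex x 0 = x / 4 := by
    unfold ex
    rw [sub_zero, max_eq_left hx.le]
    field_simp
  rw [e] at hC
  exact ⟨C, hC⟩

theorem expo_mono {θ θ' : ℝ} (h : θ ≤ θ') (H : Expo θ) : Expo θ' := by
  intro ε hε
  obtain ⟨C, hC⟩ := H ε hε
  refine ⟨max C 0, fun t => (hC t).trans ?_⟩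
  have h1 : (1 + |t|) ^ (θ + ε) ≤ (1 + |t|) ^ (θ' + ε) :=
    Real.rpow_le_rpow_of_exponent_le (by linarith [abs_nonneg t]) (by linarith)
  have h2 : 0 ≤ (1 + |t|) ^ (θ + ε) := Real.rpow_nonneg (by positivity) _
  calc C * (1 + |t|) ^ (θ + ε) ≤ max C 0 * (1 + |t|) ^ (θ + ε) := by
        gcongr
        exact le_max_left _ _
    _ ≤ _ := by
        gcongr

theorem expo_closed {θ : ℝ} (h : ∀ η : ℝ, 0 < η → Expo (θ + η)) : Expo θ := by
  intro ε hε
  obtain ⟨C, hC⟩ := h (ε / 2) (by linarith) (ε / 2) (by linarith)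
  refine ⟨C, fun t => ?_⟩
  have := hC t
  rwa [show θ + ε / 2 + ε / 2 = θ + ε by ring] at this

theorem lindelof_iff : Expo 0 ↔ ∀ x : ℝ, 0 < x → Few x := by
  refine ⟨fun h x hx => few_of_Size hx (size_of_lindelof h hx), fun h => ?_⟩
  refine expo_closed fun η hη => ?_
  have h1 := expo_of_few (x := 4 * η) (by linarith) (h _ (by linarith))
  rw [zero_add]
  have e : 4 * η / 4 = η := by ring
  rwa [e] at h1

/-- the convexity bound -/
theorem convexity : Expo (1 / 4) := by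
  refine expo_of_one (by norm_num) fun ε hε => ?_
  obtain ⟨K, hK, hUD⟩ := ud_xi
  obtain ⟨ρ, hρ⟩ : ∃ ρ : ℝ, ρ = min (1 / 2) (ε / 2) := ⟨_, rfl⟩
  have hρ0 : 0 < ρ := by rw [hρ]; exact lt_min (by norm_num) (by linarith)
  have hρ1 : ρ ≤ 1 / 2 := by rw [hρ]; exact min_le_left _ _
  have hρ2 : ρ ≤ ε / 2 := by rw [hρ]; exact min_le_right _ _
  obtain ⟨R3, ℓ3, hR3, HP⟩ := prof_all K 1 (1 / 2) ρ (ε / 2) 1 hK (by norm_num) (by norm_num)
    (by norm_num) (by norm_num) hρ0 (by linarith) (by linarith) le_rfl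
  refine all_of_ev (by linarith) (zeta_ev le_rfl hε ?_)
  filter_upwards [ell_ev (max ℓ3 0)] with T h2
  obtain ⟨hℓ, -, -⟩ := h2
  have hℓ0 : 0 ≤ ell T := (le_max_right _ _).trans hℓ
  have hud := hUD T
  have hpf := HP (ell T) (Gy T) (fy T) ((le_max_left _ _).trans hℓ) hud
    (fun u hu _ => xi_ne (by simp; linarith))
  have h1 := hpf.upp ((0 : ℝ) : ℂ) (by simp) (by simp)
  refine h1.trans ?_
  apply mul_le_mul_of_nonneg_left _ hud.hG.le
  apply Real.exp_le_exp.2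
  rw [ofReal_re, abs_zero, max_eq_right (by linarith)]
  nlinarith

theorem few_of_one_le {x : ℝ} (hx : 1 ≤ x) : Few x :=
  few_of_expo (θ := 1 / 4) (by norm_num) (by norm_num) (by norm_num; exact hx) convexity

/-- monotonicity -/
theorem few_mono {x x' : ℝ} (hx : 0 < x) (h : x ≤ x') (H : Few x) : Few x' := by
  have hx' : 0 < x' := by linarith
  refine few_of_Size hx' fun r hr0 hr1 ε hε => ?_
  obtain ⟨C, hC⟩ := Size_of_few hx H r hr0 hr1 ε hε
  refine ⟨max C 0, fun t ht => (hC t ht).trans ?_⟩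
  have h1 : ex x r ≤ ex x' r := by
    unfold ex
    rw [div_le_div_iff₀ (by positivity) (by positivity)]
    rcases le_total x r with h2 | h2
    · rw [max_eq_right (by linarith : x - r ≤ 0)]
      have : 0 ≤ max (x' - r) 0 ^ 2 * (4 * x) := by positivity
      simpa using this
    · rw [max_eq_left (by linarith : 0 ≤ x - r), max_eq_left (by linarith : 0 ≤ x' - r)]
      have h3 : 0 ≤ (x' - x) * (x * x' - r ^ 2) := by
        apply mul_nonneg (by linarith)
        nlinarith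
      nlinarith
  have h2 : t ^ (ex x r + ε) ≤ t ^ (ex x' r + ε) :=
    Real.rpow_le_rpow_of_exponent_le ht (by linarith)
  have h3 : 0 ≤ t ^ (ex x r + ε) := Real.rpow_nonneg (by linarith) _
  calc C * t ^ (ex x r + ε) ≤ max C 0 * t ^ (ex x r + ε) := by
        gcongr
        exact le_max_left _ _
    _ ≤ _ := by
        gcongr

/-- closedness -/
theorem few_closed {x : ℝ} (hx : 0 < x) (H : ∀ x' : ℝ, x < x' → Few x') : Few x := by
  refine few_of_Size hx fun r hr0 hr1 ε hε => ?_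
  have hcont : ContinuousAt (fun x' : ℝ => ex x' r) x := by
    unfold ex
    refine ContinuousAt.div ?_ ?_ (by positivity)
    · fun_prop
    · fun_prop
  obtain ⟨η, hη, hηx⟩ := Metric.continuousAt_iff.1 hcont (ε / 2) (by linarith)
  have h1 := hηx (x := x + η / 2) (by
    rw [Real.dist_eq, add_sub_cancel_left, abs_of_pos (by linarith)]
    linarith)
  rw [Real.dist_eq] at h1
  have h2 := (abs_lt.1 h1).2
  obtain ⟨C, hC⟩ := Size_of_few (by linarith) (H (x + η / 2) (by linarith)) r hr0 hr1 (ε / 2) (by linarith)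
  refine ⟨max C 0, fun t ht => (hC t ht).trans ?_⟩
  have h3 : t ^ (ex (x + η / 2) r + ε / 2) ≤ t ^ (ex x r + ε) :=
    Real.rpow_le_rpow_of_exponent_le ht (by linarith)
  have h4 : 0 ≤ t ^ (ex (x + η / 2) r + ε / 2) := Real.rpow_nonneg (by linarith) _
  calc C * t ^ (ex (x + η / 2) r + ε / 2) ≤ max C 0 * t ^ (ex (x + η / 2) r + ε / 2) := by
        gcongr
        exact le_max_left _ _
    _ ≤ _ := by
        gcongr

/-- the critical time -/
theorem critical : ∃ x₀ : ℝ, 0 ≤ x₀ ∧ x₀ ≤ 1 ∧ (∀ x : ℝ, 0 < x → (Few x ↔ x₀ ≤ x)) ∧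
    (Expo 0 ↔ x₀ = 0) ∧ Expo (x₀ / 4) ∧
    ∀ θ : ℝ, 0 ≤ θ → θ < 1 / 2 → Expo θ → x₀ = 0 ∨ x₀ ≤ 1 / (2 * (1 - 2 * θ)) := by
  obtain ⟨A, hA⟩ : ∃ A : Set ℝ, A = {x : ℝ | 0 < x ∧ Few x} := ⟨_, rfl⟩
  have h1A : (1 : ℝ) ∈ A := by rw [hA]; exact ⟨one_pos, few_of_one_le le_rfl⟩
  have hbd : BddBelow A := ⟨0, fun x hx => by rw [hA] at hx; exact hx.1.le⟩
  obtain ⟨x₀, hx₀⟩ : ∃ x₀ : ℝ, x₀ = sInf A := ⟨_, rfl⟩
  have h0 : 0 ≤ x₀ := by
    rw [hx₀]
    exact le_csInf ⟨1, h1A⟩ fun x hx => by rw [hA] at hx; exact hx.1.le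
  have h1 : x₀ ≤ 1 := by rw [hx₀]; exact csInf_le hbd h1A
  have hiff : ∀ x : ℝ, 0 < x → (Few x ↔ x₀ ≤ x) := by
    intro x hx
    constructor
    · intro h
      rw [hx₀]
      exact csInf_le hbd (by rw [hA]; exact ⟨hx, h⟩)
    · intro h
      refine few_closed hx fun x' hx' => ?_
      have h2 : sInf A < x' := by rw [← hx₀]; linarith
      obtain ⟨y, hy, hyx⟩ := exists_lt_of_csInf_lt ⟨1, h1A⟩ h2
      rw [hA] at hy
      exact few_mono hy.1 hyx.le hy.2
  have hlin : Expo 0 ↔ x₀ = 0 := by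
    rw [lindelof_iff]
    constructor
    · intro h
      by_contra hne
      have hpos : 0 < x₀ := lt_of_le_of_ne h0 (Ne.symm hne)
      have := (hiff (x₀ / 2) (by linarith)).1 (h _ (by linarith))
      linarith
    · intro h x hx
      exact (hiff x hx).2 (by linarith)
  refine ⟨x₀, h0, h1, hiff, hlin, ?_, fun θ hθ hθ2 h => ?_⟩
  · refine expo_closed fun η hη => ?_
    have h2 := expo_of_few (x := x₀ + 4 * η) (by linarith) ((hiff _ (by linarith)).2 (by linarith))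
    have e : (x₀ + 4 * η) / 4 = x₀ / 4 + η := by ring
    rwa [e] at h2
  · right
    have h3 : 0 < 1 - 2 * θ := by linarith
    exact (hiff _ (by positivity)).1 (few_of_expo hθ hθ2 le_rfl h)

end Pool.Agent.V7H51.HF
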