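import Pool.Agent.V7H51.HF.ZM3
import Pool.Agent.W22.EH.EX
import Pool.Agent.W903.EH.BK
import Pool.Agent.W347.EH.KT

/-!
# Unconditional bounds for the critical time
-/

set_option autoImplicit false

open Complex Filter Topology Set Metric MeasureTheory
open scoped ComplexConjugate

namespace Pool.Agent.V7H51.HF

open Pool.Agent.W169.HF H353.E H353.F

/-- the exponent `m` on the line `1/2 + r` -/
def Gr (r m : ℝ) : Prop := ∀ ε : ℝ, 0 < ε → ∃ C : ℝ, ∀ t : ℝ, 1 ≤ t →
  ‖riemannZeta (1 / 2 + r + t * I)‖ ≤ C * t ^ (m + ε)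

lemma gr_line {m r κ R : ℝ} (hm : 0 ≤ m) (hr0 : 0 ≤ r) (hκ : 0 < κ) (_hR : 0 ≤ R)
    (h : Gr r m) : ∀ᶠ T : ℝ in atTop, ∀ v : ℝ, |v| ≤ R →
      ‖fy T ((r : ℂ) + v * I)‖ ≤ Gy T * Real.exp (ell T * (r + 2 * m) + κ * ell T) := by
  obtain ⟨C, hC⟩ := h (κ / 8) (by linarith)
  obtain ⟨C1, hC1⟩ : ∃ C1 : ℝ, C1 = max C 1 := ⟨_, rfl⟩
  have hC11 : 1 ≤ C1 := by rw [hC1]; exact le_max_right _ _
  obtain ⟨A, hA⟩ : ∃ A : ℝ, A = Real.log (20 * C1) + 3000 * (1 + (r ^ 2 + R ^ 2)) +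
    (m + κ / 8) + 14 * m + 7 * κ := ⟨_, rfl⟩
  filter_upwards [log_large (8 / κ * A), eventually_ge_atTop (R + 5)] with T h1 h2
  intro v hv
  have hv' := abs_le.1 hv
  obtain ⟨h3, h4⟩ := ell_le (y := T) (by linarith)
  have hT : 0 < T := by linarith
  have hne : (1 / 2 : ℂ) + T * I + (r + v * I) ≠ 1 := by
    intro h
    have := congrArg im h
    simp at this
    linarith
  have hf := f_le (y := T) (u := (r : ℂ) + v * I) (by simp; linarith) hne
  have e1 : (1 / 2 : ℂ) + T * I + (r + v * I) = 1 / 2 + r + ((T + v : ℝ) : ℂ) * I := by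
    push_cast; ring
  have e2 : ((r : ℂ) + v * I).re = r := by simp
  have e3 : ‖(r : ℂ) + v * I‖ ^ 2 = r ^ 2 + v ^ 2 := by
    rw [← Complex.normSq_eq_norm_sq, Complex.normSq_apply]
    simp
    ring
  rw [e1, e2, e3] at hf
  have hz := hC (T + v) (by linarith)
  have hz2 : ‖riemannZeta (1 / 2 + r + ((T + v : ℝ) : ℂ) * I)‖ ≤
      C1 * Real.exp ((m + κ / 8) * (Real.log T + 1)) := by
    refine hz.trans ?_
    have h5 : (T + v) ^ (m + κ / 8) ≤ Real.exp ((m + κ / 8) * (Real.log T + 1)) := by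
      rw [Real.rpow_def_of_pos (by linarith)]
      apply Real.exp_le_exp.2
      rw [mul_comm]
      apply mul_le_mul_of_nonneg_left _ (by linarith)
      have h6 : Real.log (T + v) ≤ Real.log (2 * T) := Real.log_le_log (by linarith) (by linarith)
      rw [Real.log_mul (by norm_num) hT.ne'] at h6
      have := Real.log_two_lt_d9
      linarith
    have h7 : C ≤ C1 := by rw [hC1]; exact le_max_left _ _
    calc C * (T + v) ^ (m + κ / 8) ≤ C1 * (T + v) ^ (m + κ / 8) := by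
          apply mul_le_mul_of_nonneg_right h7
          exact Real.rpow_nonneg (by linarith) _
      _ ≤ _ := by gcongr
  have hG := Gy_pos T
  have e4 : (20 * C1 : ℝ) = Real.exp (Real.log (20 * C1)) := (Real.exp_log (by linarith)).symm
  calc ‖fy T ((r : ℂ) + v * I)‖ ≤ 20 * (Gy T * Real.exp (ell T * r + 3000 * (1 + (r ^ 2 + v ^ 2)))) *
        (C1 * Real.exp ((m + κ / 8) * (Real.log T + 1))) := by
        refine hf.trans ?_
        gcongr
    _ = Gy T * ((20 * C1) * (Real.exp (ell T * r + 3000 * (1 + (r ^ 2 + v ^ 2))) *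
        Real.exp ((m + κ / 8) * (Real.log T + 1)))) := by ring
    _ = Gy T * Real.exp (Real.log (20 * C1) + (ell T * r + 3000 * (1 + (r ^ 2 + v ^ 2)) +
        (m + κ / 8) * (Real.log T + 1))) := by
        rw [Real.exp_add (Real.log (20 * C1)), ← e4, Real.exp_add (ell T * r + _)]
    _ ≤ _ := by
        apply mul_le_mul_of_nonneg_left _ hG.le
        apply Real.exp_le_exp.2
        have h8 : v ^ 2 ≤ R ^ 2 := by
          rw [← sq_abs v]
          exact pow_le_pow_left₀ (abs_nonneg v) hv 2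
        have h9 : A ≤ κ / 8 * Real.log T := by
          have : κ / 8 * (8 / κ * A) = A := by field_simp
          have h10 := mul_le_mul_of_nonneg_left h1 (show 0 ≤ κ / 8 by linarith)
          linarith
        have h11 : m * Real.log T - 14 * m ≤ 2 * m * ell T := by nlinarith
        have h12 : κ * (1 / 2 * Real.log T - 7) ≤ κ * ell T := mul_le_mul_of_nonneg_left h4 hκ.le
        have h13 : 0 ≤ Real.log T := Real.log_nonneg (by linarith)
        have h14 : 0 ≤ κ * Real.log T := by positivity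
        rw [hA] at h9
        nlinarith

/-- convexity of the exponents between two lines -/
theorem gr_interp {r1 r2 m1 m2 : ℝ} (hr1 : 0 ≤ r1) (hr12 : r1 < r2) (hr2 : r2 ≤ 1 / 2) (hm1 : 0 ≤ m1)
    (hm2 : 0 ≤ m2) (hm1' : m1 ≤ 1) (hm2' : m2 ≤ 1) (h1 : Gr r1 m1) (h2 : Gr r2 m2) :
    ∀ r : ℝ, r1 ≤ r → r ≤ r2 → Gr r (m1 + (m2 - m1) * ((r - r1) / (r2 - r1))) := by
  intro r hr hr' ε hε
  obtain ⟨q, hq⟩ : ∃ q : ℝ, q = (r - r1) / (r2 - r1) := ⟨_, rfl⟩
  have hb : 0 < r2 - r1 := by linarith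
  have hq0 : 0 ≤ q := by rw [hq]; exact div_nonneg (by linarith) hb.le
  have hq1 : q ≤ 1 := by rw [hq, div_le_one hb]; linarith
  rw [← hq]
  have hmm : 0 ≤ m1 + (m2 - m1) * q := by nlinarith
  refine all_of_ev (by linarith) (zeta_ev (by linarith) hε ?_)
  obtain ⟨K, hK, hUD⟩ := ud_xi
  obtain ⟨κ1, R, hκ1, hR, HR⟩ := rect_all (4 + K) (r2 - r1) ε 1 (by linarith) hb
    (by linarith) hε le_rfl
  filter_upwards [gr_line hm1 hr1 hκ1 (show 0 ≤ R by linarith) h1,
    gr_line hm2 (by linarith) hκ1 (show 0 ≤ R by linarith) h2, ell_ev (1 + 4 * R ^ 2)] with T a1 a2 a3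
  obtain ⟨hℓR, -, -⟩ := a3
  have hℓ1 : 1 ≤ ell T := by nlinarith [sq_nonneg R]
  have hud := hUD T
  have hG := hud.hG
  have hdiff : Differentiable ℂ (fy T) := hud.slow.1
  have hmain := HR (ell T) r1 (r1 + 2 * m1) (r2 + 2 * m2) (Gy T) (fy T) (by linarith) hG hdiff
    (by rw [abs_of_nonneg (by linarith)]; linarith) (by rw [abs_of_nonneg (by linarith)]; linarith)
    (fun u h4 h5 => by
      have e1 : u = ((r1 : ℝ) : ℂ) + (u.im : ℂ) * I := by
        apply Complex.ext <;> simp [h4]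
      rw [e1]
      exact a1 u.im h5)
    (fun u h4 h5 => by
      have e1 : u = ((r2 : ℝ) : ℂ) + (u.im : ℂ) * I := by
        apply Complex.ext <;> simp [h4]
      rw [e1]
      exact a2 u.im h5)
    (fun u h4 h5 h6 => by
      have h7 := hud.up u
      refine h7.trans ?_
      apply mul_le_mul_of_nonneg_left _ hG.le
      apply Real.exp_le_exp.2
      have h8 : max |u.re| 1 ≤ 1 := by
        rw [abs_of_nonneg (by linarith)]
        exact max_le (by linarith) le_rfl
      have h9 : ‖u‖ ^ 2 ≤ 1 + R ^ 2 := by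
        rw [← Complex.normSq_eq_norm_sq, Complex.normSq_apply]
        have h10 : u.im * u.im = R ^ 2 := by
          rw [← h6, sq_abs]; ring
        rw [h10]
        nlinarith
      have h11 : K * (1 + ‖u‖ ^ 2) ≤ K * ell T := by
        apply mul_le_mul_of_nonneg_left _ (by linarith)
        nlinarith [sq_nonneg R]
      have h12 : ell T * max |u.re| 1 ≤ ell T * 1 := mul_le_mul_of_nonneg_left h8 (by linarith)
      nlinarith)
    (r : ℂ) (by simpa using hr) (by simp; linarith) (by simp)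
  refine hmain.trans (le_of_eq ?_)
  rw [ofReal_re]
  have e2 : r1 + 2 * m1 + (r2 + 2 * m2 - (r1 + 2 * m1)) * ((r - r1) / (r2 - r1)) =
      r + 2 * (m1 + (m2 - m1) * q) := by
    rw [hq]
    field_simp
    ring
  rw [e2]

lemma gr_mono {r m m' : ℝ} (hm : m ≤ m') (h : Gr r m) : Gr r m' := by
  intro ε hε
  obtain ⟨C, hC⟩ := h ε hε
  refine ⟨max C 0, fun t ht => (hC t ht).trans ?_⟩
  have h1 : t ^ (m + ε) ≤ t ^ (m' + ε) := Real.rpow_le_rpow_of_exponent_le ht (by linarith)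
  have h2 : 0 ≤ t ^ (m + ε) := Real.rpow_nonneg (by linarith) _
  calc C * t ^ (m + ε) ≤ max C 0 * t ^ (m + ε) := by
        gcongr
        exact le_max_left _ _
    _ ≤ _ := by gcongr

lemma expo_gr {θ : ℝ} (hθ : 0 ≤ θ) : Expo θ ↔ Gr 0 θ :=
  ⟨expo_one hθ, expo_of_one hθ⟩

lemma gr_half : Gr (1 / 2) 0 := by
  intro ε hε
  have h := interp (θ := 1 / 4) (by norm_num) (by norm_num) convexity (1 / 2) (by norm_num) le_rfl ε hε
  have h1 := zeta_ev (r := 1 / 2) (a := 0) (by norm_num) hε (by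
    filter_upwards [h] with T hT
    refine hT.trans (le_of_eq ?_)
    norm_num)
  exact all_of_ev (by linarith) h1

lemma gr_ev {r m : ℝ} (hm : 0 ≤ m) (h : ∀ ε : ℝ, 0 < ε → ∃ T₀ : ℝ, ∀ T : ℝ, T₀ ≤ T →
    ‖riemannZeta (1 / 2 + r + T * I)‖ ≤ T ^ (m + ε)) : Gr r m := by
  intro ε hε
  exact all_of_ev (by linarith) (Filter.eventually_atTop.2 (h ε hε))

lemma gr_weyl : Gr 0 (1 / 6) := by
  refine gr_ev (by norm_num) fun ε hε => ?_
  obtain ⟨T0, hT0⟩ := Pool.Agent.W22.EH.ex (Pool.Agent.W903.EH.bk Pool.Agent.W347.EH.kt)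
    Pool.Agent.W903.EH.b1 ε hε
  refine ⟨T0, fun T hT => ?_⟩
  rw [ofReal_zero, add_zero]
  exact (hT0 T hT).1

lemma gr_57 : Gr (3 / 14) (1 / 14) := by
  refine gr_ev (by norm_num) fun ε hε => ?_
  obtain ⟨T0, hT0⟩ := Pool.Agent.W22.EH.ex (Pool.Agent.W903.EH.bk Pool.Agent.W347.EH.kt)
    Pool.Agent.W903.EH.b1 ε hε
  refine ⟨T0, fun T hT => ?_⟩
  have e : (1 / 2 : ℂ) + ((3 / 14 : ℝ) : ℂ) + T * I = 5 / 7 + T * I := by
    push_cast; ring
  rw [e]
  exact (hT0 T hT).2

theorem size_uncond : Size (27 / 40) := by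
  intro r hr0 hr1
  rcases le_total r (3 / 14) with h | h
  · have h1 := gr_interp le_rfl (by norm_num) (by norm_num) (by norm_num) (by norm_num) (by norm_num)
      (by norm_num) gr_weyl gr_57 r hr0 h
    refine gr_mono ?_ h1
    have e : (1 / 6 + (1 / 14 - 1 / 6) * ((r - 0) / (3 / 14 - 0)) : ℝ) = 1 / 6 - 4 / 9 * r := by
      norm_num
      ring
    rw [e]
    unfold ex
    rw [max_eq_left (by linarith), le_div_iff₀ (by norm_num)]
    nlinarith [sq_nonneg (r - 3 / 40)]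
  · have h1 := gr_interp (by norm_num) (by norm_num) le_rfl (by norm_num) (by norm_num) (by norm_num)
      (by norm_num) gr_57 gr_half r h hr1
    refine gr_mono ?_ h1
    have e : (1 / 14 + (0 - 1 / 14) * ((r - 3 / 14) / (1 / 2 - 3 / 14)) : ℝ) = 1 / 8 - 1 / 4 * r := by
      norm_num
      ring
    rw [e]
    unfold ex
    rw [max_eq_left (by linarith), le_div_iff₀ (by norm_num)]
    nlinarith [sq_nonneg (r - 27 / 80)]

theorem few_uncond : Few (27 / 40) := few_of_Size (by norm_num) size_uncond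

theorem expo_weyl : Expo (1 / 6) := (expo_gr (by norm_num)).2 gr_weyl

end Pool.Agent.V7H51.HF
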