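import Pool.Agent.V7H51.HF.Ud

/-!
# Riemann's function xi as sharp analytic data
-/

set_option autoImplicit false

open Complex Filter Topology Set Metric MeasureTheory
open scoped ComplexConjugate

namespace Pool.Agent.V7H51.HF

open Pool.Agent.W169.HF H353.E H353.F

/-- Riemann's entire function `ξ(s) = s (s - 1) π^(-s/2) Γ(s/2) ζ(s) / 2` -/
noncomputable def xi (s : ℂ) : ℂ := (s * (s - 1) * completedRiemannZeta₀ s + 1) / 2

lemma xi_diff : Differentiable ℂ xi := by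
  have := differentiable_completedZeta₀
  unfold xi
  fun_prop

lemma xi_one_sub (s : ℂ) : xi (1 - s) = xi s := by
  unfold xi
  rw [completedRiemannZeta₀_one_sub]
  ring

lemma xi_eq {s : ℂ} (h0 : 0 < s.re) (h1 : s ≠ 1) :
    xi s = s * (s - 1) / 2 * (Gammaℝ s * riemannZeta s) := by
  have hs : s ≠ 0 := by
    rintro rfl
    simp at h0
  have hG := Gammaℝ_ne_zero_of_re_pos h0
  have h2 : Gammaℝ s * riemannZeta s = completedRiemannZeta s := by
    rw [riemannZeta_def_of_ne_zero hs]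
    field_simp
  have h3 : s - 1 ≠ 0 := sub_ne_zero.2 h1
  have h4 : 1 - s ≠ 0 := sub_ne_zero.2 (Ne.symm h1)
  rw [h2, completedRiemannZeta_eq]
  unfold xi
  field_simp
  ring

lemma Gammaℝ_conj' (s : ℂ) : Gammaℝ (conj s) = conj (Gammaℝ s) := by
  rw [Gammaℝ_def, Gammaℝ_def, map_mul, ← Complex.Gamma_conj]
  congr 1
  · have h := H353.E.conj_cpow_real Real.pi_pos (-s / 2)
    rw [h]
    congr 1
    rw [map_div₀, map_neg, map_ofNat]
  · congr 1
    rw [map_div₀, map_ofNat]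

lemma xi_conj (s : ℂ) : xi (conj s) = conj (xi s) := by
  have key : ∀ s : ℂ, 0 < s.re → xi (conj s) = conj (xi s) := by
    intro s hs
    by_cases h1 : s = 1
    · subst h1
      simp [xi, map_ofNat]
    · have h2 : conj s ≠ 1 := by
        intro h
        apply h1
        have := congrArg conj h
        simpa using this
      rw [xi_eq hs h1, xi_eq (by simpa using hs) h2, Gammaℝ_conj', riemannZeta_conj]
      simp only [map_mul, map_div₀, map_sub, map_one, map_ofNat]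
  rcases lt_or_ge 0 s.re with h | h
  · exact key s h
  · have h1 := key (1 - s) (by simp; linarith)
    rw [xi_one_sub] at h1
    rw [← h1, map_sub, map_one, xi_one_sub]

lemma xi_fe (s : ℂ) : xi s = 1 * conj (xi (1 - conj s)) := by
  rw [xi_one_sub, xi_conj, Complex.conj_conj, one_mul]

/-- `completedRiemannZeta₀` is bounded in vertical strips -/
lemma c0_bdd (a b : ℝ) : ∃ M : ℝ, 0 ≤ M ∧ ∀ s : ℂ, a ≤ s.re → s.re ≤ b → ‖completedRiemannZeta₀ s‖ ≤ M := by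
  obtain ⟨P, hP⟩ : ∃ P : WeakFEPair ℂ, P = HurwitzZeta.hurwitzEvenFEPair 0 := ⟨_, rfl⟩
  have hc : ∀ s : ℂ, MellinConvergent P.f_modif s := fun s =>
    (P.isStrongFEPair_toStrongFEPair.hasMellin s).1
  have hint : ∀ x : ℝ, IntegrableOn (fun t : ℝ => ‖P.f_modif t‖ * t ^ (x - 1)) (Ioi 0) := by
    intro x
    have h1 : IntegrableOn (fun t : ℝ => ‖(t : ℂ) ^ ((x : ℂ) - 1) • P.f_modif t‖) (Ioi 0) :=
      (hc (x : ℂ)).norm
    refine IntegrableOn.congr_fun h1 (fun t ht => ?_) measurableSet_Ioi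
    have ht0 : (0 : ℝ) < t := ht
    show ‖(t : ℂ) ^ ((x : ℂ) - 1) • P.f_modif t‖ = _
    rw [norm_smul, Complex.norm_cpow_eq_rpow_re_of_pos ht0]
    simp [mul_comm]
  obtain ⟨M, hM⟩ : ∃ M : ℝ, M = ∫ t in Ioi (0 : ℝ), (‖P.f_modif t‖ * t ^ (a / 2 - 1) +
      ‖P.f_modif t‖ * t ^ (b / 2 - 1)) := ⟨_, rfl⟩
  have hM0 : 0 ≤ M := by
    rw [hM]
    refine setIntegral_nonneg measurableSet_Ioi fun t ht => ?_
    have ht0 : (0 : ℝ) < t := ht
    positivity
  refine ⟨M / 2, by linarith, fun s h1 h2 => ?_⟩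
  have e1 : completedRiemannZeta₀ s = mellin P.f_modif (s / 2) / 2 := by
    rw [hP]
    rfl
  rw [e1, norm_div]
  have e2 : ‖(2 : ℂ)‖ = 2 := by simp
  rw [e2]
  have h3 : ‖mellin P.f_modif (s / 2)‖ ≤ M := by
    rw [hM]
    unfold mellin
    refine norm_integral_le_of_norm_le ((hint (a / 2)).add (hint (b / 2))) ?_
    refine (ae_restrict_iff' measurableSet_Ioi).2 (Eventually.of_forall fun t ht => ?_)
    have ht0 : (0 : ℝ) < t := ht
    rw [norm_smul, Complex.norm_cpow_eq_rpow_re_of_pos ht0]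
    have e3 : (s / 2 - 1).re = s.re / 2 - 1 := by
      rw [sub_re, one_re, show (2 : ℂ) = ((2 : ℝ) : ℂ) by norm_num, Complex.div_ofReal_re]
    rw [e3]
    have h4 : t ^ (s.re / 2 - 1) ≤ t ^ (a / 2 - 1) + t ^ (b / 2 - 1) := by
      have p1 := Real.rpow_nonneg ht0.le (a / 2 - 1)
      have p2 := Real.rpow_nonneg ht0.le (b / 2 - 1)
      rcases le_total t 1 with h | h
      · have := Real.rpow_le_rpow_of_exponent_ge ht0 h (show a / 2 - 1 ≤ s.re / 2 - 1 by linarith)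
        linarith
      · have := Real.rpow_le_rpow_of_exponent_le h (show s.re / 2 - 1 ≤ b / 2 - 1 by linarith)
        linarith
    calc t ^ (s.re / 2 - 1) * ‖P.f_modif t‖ ≤ (t ^ (a / 2 - 1) + t ^ (b / 2 - 1)) * ‖P.f_modif t‖ := by
          gcongr
      _ = _ := by ring
  linarith

lemma xi_bdd : ∃ M : ℝ, ∀ s : ℂ, -3 ≤ s.re → s.re ≤ 4 → ‖xi s‖ ≤ Real.exp (M * (1 + |s.im|)) := by
  obtain ⟨M, hM0, hM⟩ := c0_bdd (-3) 4
  refine ⟨25 * M + 12, fun s h1 h2 => ?_⟩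
  have h3 := hM s h1 h2
  have hre : |s.re| ≤ 4 := abs_le.2 ⟨by linarith, h2⟩
  have hn : ‖s‖ ≤ 4 + |s.im| := by
    have := Complex.norm_le_abs_re_add_abs_im s
    linarith
  have hn1 : ‖s - 1‖ ≤ 5 + |s.im| := by
    refine (norm_sub_le _ _).trans ?_
    rw [norm_one]
    linarith
  have hi := abs_nonneg s.im
  unfold xi
  rw [norm_div]
  have e2 : ‖(2 : ℂ)‖ = 2 := by simp
  rw [e2]
  have h4 : ‖s * (s - 1) * completedRiemannZeta₀ s + 1‖ ≤ (4 + |s.im|) * (5 + |s.im|) * M + 1 := by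
    refine (norm_add_le _ _).trans ?_
    rw [norm_mul, norm_mul, norm_one]
    gcongr
  have h5 : (4 + |s.im|) * (5 + |s.im|) * M + 1 ≤ (25 * M + 1) * (1 + |s.im|) ^ 2 := by
    nlinarith [mul_nonneg hM0 hi, mul_nonneg hM0 (mul_nonneg hi hi)]
  have h6 : (1 + |s.im|) ^ 2 ≤ Real.exp (2 * |s.im|) := by
    have h7 := Real.add_one_le_exp |s.im|
    have h8 : (1 + |s.im|) ^ 2 ≤ (Real.exp |s.im|) ^ 2 := pow_le_pow_left₀ (by linarith) (by linarith) 2
    refine h8.trans (le_of_eq ?_)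
    rw [← Real.exp_nat_mul]
    push_cast
    rfl
  have h9 : 25 * M + 1 ≤ Real.exp (25 * M + 1) := by
    have := Real.add_one_le_exp (25 * M + 1)
    linarith
  calc ‖s * (s - 1) * completedRiemannZeta₀ s + 1‖ / 2 ≤
        (25 * M + 1) * (1 + |s.im|) ^ 2 := by
          have : 0 ≤ ‖s * (s - 1) * completedRiemannZeta₀ s + 1‖ := norm_nonneg _
          linarith
    _ ≤ Real.exp (25 * M + 1) * Real.exp (2 * |s.im|) := by gcongr
    _ = Real.exp (25 * M + 1 + 2 * |s.im|) := by rw [Real.exp_add (25 * M + 1)]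
    _ ≤ _ := by
      apply Real.exp_le_exp.2
      nlinarith [mul_nonneg hM0 hi]

/-- the shift -/
noncomputable def m4 : Fin 1 → ℂ := fun _ => -4

/-- the gamma factor -/
noncomputable def gz : ℂ → ℂ := gaf 1 m4

/-- its logarithmic derivative -/
noncomputable def dz : ℂ → ℂ := gaD 1 m4

lemma gz_eq (s : ℂ) : gz s = Gammaℝ (s + 4) := by
  simp [gz, gaf, m4]

lemma m4_le : ∀ j, (m4 j).re ≤ 1 / 2 := fun j => by simp [m4]; norm_num

lemma gz_GP : GP 6 (fun K => 4 * Real.exp (2 * |K| + 10)) gz dz := by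
  have h := gaf_GP (m := 1) le_rfl (N := 1) le_rfl m4_le
  have e : (6 * ((1 : ℕ) : ℝ)) = 6 := by norm_num
  rw [e] at h
  exact h

lemma gz_mul {s : ℂ} (h0 : 0 < s.re) :
    gz s = Gammaℝ s * (s * (s + 2)) / (4 * (Real.pi : ℂ) ^ 2) := by
  have hs : s ≠ 0 := by
    rintro rfl
    simp at h0
  have hs2 : s + 2 ≠ 0 := by
    intro h
    have := congrArg re h
    simp at this
    linarith
  have hpi : (Real.pi : ℂ) ≠ 0 := by exact_mod_cast Real.pi_ne_zero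
  rw [gz_eq, show s + 4 = s + 2 + 2 by ring, Gammaℝ_add_two hs2, Gammaℝ_add_two hs]
  field_simp
  ring

/-- the rational factor -/
noncomputable def rz (s : ℂ) : ℂ := 2 * (Real.pi : ℂ) ^ 2 * (s - 1) / (s + 2)

lemma xi_gz {s : ℂ} (h0 : 0 < s.re) (h1 : s ≠ 1) : xi s = rz s * (gz s * riemannZeta s) := by
  have hs : s ≠ 0 := by
    rintro rfl
    simp at h0
  have hs2 : s + 2 ≠ 0 := by
    intro h
    have := congrArg re h
    simp at this
    linarith
  have hpi : (Real.pi : ℂ) ≠ 0 := by exact_mod_cast Real.pi_ne_zero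
  rw [xi_eq h0 h1, gz_mul h0]
  unfold rz
  field_simp
  ring

lemma rz_norm (s : ℂ) : ‖rz s‖ = 2 * Real.pi ^ 2 * (‖s - 1‖ / ‖s + 2‖) := by
  unfold rz
  rw [norm_div, norm_mul, norm_mul, norm_pow, Complex.norm_real, Real.norm_eq_abs,
    abs_of_pos Real.pi_pos]
  have e2 : ‖(2 : ℂ)‖ = 2 := by simp
  rw [e2]
  ring

lemma pi_sq : 9 ≤ Real.pi ^ 2 ∧ Real.pi ^ 2 ≤ 10 := by
  have h1 := Real.pi_gt_three
  have h2 := Real.pi_lt_d2
  constructor <;> nlinarith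

lemma rz_le {s : ℂ} (h0 : 0 < s.re) : ‖rz s‖ ≤ 20 := by
  rw [rz_norm]
  have h1 := pi_sq
  have h2 : ‖s - 1‖ / ‖s + 2‖ ≤ 1 := by
    have h3 : 0 < ‖s + 2‖ := by
      have := re_le_norm (s + 2)
      simp at this
      linarith
    rw [div_le_one h3]
    rw [← sq_le_sq₀ (norm_nonneg _) (norm_nonneg _), ← Complex.normSq_eq_norm_sq,
      ← Complex.normSq_eq_norm_sq, Complex.normSq_apply, Complex.normSq_apply]
    simp
    nlinarith
  have h4 : 0 ≤ ‖s - 1‖ / ‖s + 2‖ := by positivity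
  nlinarith

lemma rz_ge {s : ℂ} (h0 : 0 < s.re) (h1 : 1 / 2 ≤ ‖s - 1‖) : 1 ≤ ‖rz s‖ := by
  rw [rz_norm]
  have h2 := pi_sq
  have h3 : 0 < ‖s + 2‖ := by
    have := re_le_norm (s + 2)
    simp at this
    linarith
  have h4 : 1 / 7 ≤ ‖s - 1‖ / ‖s + 2‖ := by
    rw [le_div_iff₀ h3]
    have h5 : ‖s + 2‖ ≤ ‖s - 1‖ + 3 := by
      have h6 := norm_add_le (s - 1) 3
      have e1 : s - 1 + 3 = s + 2 := by ring
      rw [e1] at h6
      have e2 : ‖(3 : ℂ)‖ = 3 := by simp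
      linarith
    linarith
  nlinarith

/-- the sharp data of `xi` -/
theorem xi_sharp : ∃ B : ℝ, 1 ≤ B ∧
    Sharp 6 B (3 / 2) (fun K => 4 * Real.exp (2 * |K| + 10)) xi gz dz := by
  obtain ⟨B2, hB2, hBe⟩ := euler_two 1 (show (0 : ℝ) < 1 / 2 by norm_num)
  have gp := gz_GP
  have hζ : ∀ s : ℂ, 3 / 2 ≤ s.re → ‖riemannZeta s‖ ≤ B2 ∧ 1 ≤ B2 * ‖riemannZeta s‖ := by
    intro s hs
    have h1 := hBe 0 (fun _ _ => 1) (fun j p hp => by simp) s (by linarith)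
    have e1 : euler (fun (_ : Fin 1) (_ : ℕ) => (1 : ℂ)) s = riemannZeta s := by
      unfold euler
      rw [← riemannZeta_eulerProduct_tprod (by linarith)]
      simp
    rw [e1] at h1
    exact h1
  have hexp1 : 1 ≤ Real.exp ((6 : ℝ) ^ 2 / 4 + 64) := Real.one_le_exp (by norm_num)
  have hne1 : ∀ s : ℂ, 3 / 2 ≤ s.re → s ≠ 1 ∧ 0 < s.re ∧ 1 / 2 ≤ ‖s - 1‖ := fun s hs => by
    refine ⟨?_, by linarith, ?_⟩
    · rintro rfl
      norm_num at hs
    · have := re_le_norm (s - 1)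
      rw [sub_re, one_re] at this
      linarith
  have hhi : ∀ s : ℂ, 3 / 2 ≤ s.re → ‖xi s‖ ≤ (20 * B2) * ‖gz s‖ := fun s hs => by
    obtain ⟨h1, h2, h3⟩ := hne1 s hs
    rw [xi_gz h2 h1, norm_mul, norm_mul]
    have h4 := rz_le h2
    have h5 := (hζ s hs).1
    calc ‖rz s‖ * (‖gz s‖ * ‖riemannZeta s‖) ≤ 20 * (‖gz s‖ * B2) := by gcongr
      _ = _ := by ring
  have hfe : ∃ ε : ℂ, ‖ε‖ = 1 ∧ ∀ s : ℂ, xi s = ε * conj (xi (1 - conj s)) := ⟨1, by simp, xi_fe⟩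
  refine ⟨20 * B2 * Real.exp ((6 : ℝ) ^ 2 / 4 + 64), by nlinarith, ?_⟩
  refine { gp := gp, hC := by norm_num, hB := by nlinarith, hσ := by norm_num, diff := xi_diff,
           fe := hfe, hi := fun s hs => ?_, lo := fun s hs => ?_, strip := fun s h1 h2 => ?_ }
  · refine (hhi s hs).trans (mul_le_mul_of_nonneg_right ?_ (norm_nonneg _))
    nlinarith
  · obtain ⟨h1, h2, h3⟩ := hne1 s hs
    rw [xi_gz h2 h1, norm_mul, norm_mul]
    have h4 := rz_ge h2 h3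
    have h5 := (hζ s hs).2
    have h6 : 1 ≤ 20 * B2 * Real.exp ((6 : ℝ) ^ 2 / 4 + 64) * ‖riemannZeta s‖ := by
      have h7 : 0 ≤ ‖riemannZeta s‖ := norm_nonneg _
      calc (1 : ℝ) ≤ B2 * ‖riemannZeta s‖ := h5
        _ = 1 * B2 * 1 * ‖riemannZeta s‖ := by ring
        _ ≤ _ := by gcongr; norm_num
    have h8 : 0 ≤ ‖gz s‖ := norm_nonneg _
    calc ‖gz s‖ = 1 * ‖gz s‖ * 1 := by ring
      _ ≤ ‖rz s‖ * ‖gz s‖ * (20 * B2 * Real.exp ((6 : ℝ) ^ 2 / 4 + 64) * ‖riemannZeta s‖) := by gcongr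
      _ = _ := by ring
  · have h := strip_sharp (Λ := xi) gp (by norm_num) (show 1 ≤ 20 * B2 by linarith) (σ := 3 / 2)
      (by norm_num) (by norm_num) xi_diff hhi hfe xi_bdd h1 h2
    exact h

lemma xi_slow : Slow xi := by
  obtain ⟨B, hB, S⟩ := xi_sharp
  refine slow_of_sharp S (a := Real.log (1 * ∏ j, (1 + ‖m4 j‖)) + 7) (k := 1) ?_ zero_le_one
    fun s hs => ?_
  · have : 0 ≤ Real.log (1 * ∏ j, (1 + ‖m4 j‖)) := by
      apply Real.log_nonneg
      simp [m4]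
    linarith
  · have h := gaD_norm (N := 1) le_rfl m4_le hs
    have e : (((1 : ℕ) : ℝ)) = 1 := by norm_num
    rw [e] at h
    show ‖gaD 1 m4 s‖ ≤ _
    linarith

end Pool.Agent.V7H51.HF
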